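import Pool.Agent.R97.QL.Defs

/-! MP_8fd344_co: exact statements of the independent parts. -/

open Finset Matrix
open scoped Classical

namespace Pool.Agent.R97.QL

/-- P3 (second moment lemma): good graphs `R` on `[q^2] × [q^2]`. -/
def S_P3 : Prop := ∀ (N : ℕ) (ε : ℝ), 0 < ε → ∃ q0 : ℕ, ∀ q : ℕ, q0 ≤ q →
  ∃ R : Finset (Fin (q ^ 2) × Fin (q ^ 2)),
    ∀ (a b : ℕ) (E : Finset (Fin a × Fin b)), a ≤ N → b ≤ N →
      (q : ℝ) ^ ((M E : ℝ) - ε) ≤ (hom E R : ℝ) ∧ (hom E R : ℝ) ≤ (q : ℝ) ^ ((M E : ℝ) + ε)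

/-- biadjacency matrix -/
noncomputable def biadj {γ δ : Type} (F : Finset (γ × δ)) : Matrix γ δ ℝ :=
  Matrix.of fun x y => if (x, y) ∈ F then 1 else 0

/-- adjacency matrix of the underlying simple graph on `γ ⊕ δ` -/
noncomputable def adj {γ δ : Type} (F : Finset (γ × δ)) : Matrix (γ ⊕ δ) (γ ⊕ δ) ℝ :=
  Matrix.fromBlocks 0 (biadj F) (biadj F)ᵀ 0

/-- disjoint union of two bipartite graphs -/
noncomputable def dsum {γ δ γ' δ' : Type} (F : Finset (γ × δ)) (F' : Finset (γ' × δ')) :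
    Finset ((γ ⊕ γ') × (δ ⊕ δ')) :=
  F.image (Prod.map Sum.inl Sum.inl) ∪ F'.image (Prod.map Sum.inr Sum.inr)

/-- point-line incidence graph of the affine plane over `ZMod d` without the vertical
lines, plus `t` isolated vertices in the second class. -/
noncomputable def aff (d t : ℕ) [NeZero d] :
    Finset ((ZMod d × ZMod d) × ((ZMod d × ZMod d) ⊕ Fin t)) :=
  univ.filter fun e => ∃ l : ZMod d × ZMod d, e.2 = Sum.inl l ∧ e.1.2 = l.1 * e.1.1 + l.2

/-- number of leaves of the star centred at `x` -/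
def lv (d : ℕ) (x : ZMod d × ZMod d) : ℕ :=
  if x.1 = 0 then (if x.2 = 0 then d ^ 2 else 0) else d

/-- disjoint stars: one with `d^2` leaves, `d^2-d` with `d` leaves, `d-1` isolated centres. -/
noncomputable def stars (d : ℕ) [NeZero d] :
    Finset ((ZMod d × ZMod d) × (Σ x : ZMod d × ZMod d, Fin (lv d x))) :=
  univ.filter fun e => e.2.1 = e.1

/-- P4 (cospectrality). -/
def S_P4 : Prop := ∀ (d : ℕ) [NeZero d] (γ δ : Type) [Fintype γ] [Fintype δ]
  (F : Finset (γ × δ)), d.Prime →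
  (adj (dsum F (aff d (d ^ 3 - d ^ 2)))).charpoly = (adj (dsum F (stars d))).charpoly

end Pool.Agent.R97.QL
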