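import Pool.Agent.R97.QL.Claim
import Pool.Agent.R97.QL.Stm

/-! MP_8fd344_co: homomorphisms into the affine incidence graph. -/

open Finset
open scoped Classical

namespace Pool.Agent.R97.QL

/-- symmetric adjacency of a bipartite graph -/
def TT {γ δ : Type} (F : Finset (γ × δ)) : γ ⊕ δ → γ ⊕ δ → Prop
  | Sum.inl a, Sum.inr b => (a, b) ∈ F
  | Sum.inr b, Sum.inl a => (a, b) ∈ F
  | _, _ => False

theorem TT_symm {γ δ : Type} (F : Finset (γ × δ)) : ∀ u v, TT F u v → TT F v u := by
  rintro (a | a) (b | b) h <;> simpa [TT] using h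

theorem TT_cls {γ δ : Type} (F : Finset (γ × δ)) :
    ∀ u v, TT F u v → Sum.isRight u ≠ Sum.isRight v := by
  rintro (a | a) (b | b) h <;> simp_all [TT]

theorem hyp_univ {α β : Type} [Fintype α] [Fintype β] (E : Finset (α × β)) :
    Hyp Sum.isRight (TT E) (univ : Finset (α ⊕ β)) (M E).toNat := by
  intro Z f hf
  have hM := M_nonneg E
  have h1 := val_le_M E (f ∘ Sum.inl) (f ∘ Sum.inr)
  unfold val at h1
  have h2 : (univ.image f).card ≤ (univ.image (f ∘ (Sum.inl : α → α ⊕ β))).card +
      (univ.image (f ∘ (Sum.inr : β → α ⊕ β))).card := by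
    refine le_trans (card_le_card ?_) (card_union_le _ _)
    intro z hz
    obtain ⟨v, _, rfl⟩ := mem_image.1 hz
    rcases v with v | v
    · exact mem_union_left _ (mem_image.2 ⟨v, mem_univ _, rfl⟩)
    · exact mem_union_right _ (mem_image.2 ⟨v, mem_univ _, rfl⟩)
  have h3 : 2 * (E.image (Prod.map (f ∘ Sum.inl) (f ∘ Sum.inr))).card ≤
      ((darts (TT E) univ).image (Prod.map f f)).card := by
    set I := E.image (Prod.map (f ∘ Sum.inl) (f ∘ Sum.inr)) with hI
    have e1 : (I.image Prod.swap).card = I.card :=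
      card_image_of_injective _ Prod.swap_injective
    have e2 : Disjoint I (I.image Prod.swap) := by
      rw [Finset.disjoint_left]
      rintro ⟨x, y⟩ hx hy
      simp only [hI, mem_image, Prod.exists, Prod.map, Function.comp, Prod.mk.injEq,
        Prod.swap] at hx hy
      obtain ⟨a, b, hab, rfl, rfl⟩ := hx
      obtain ⟨x', y', ⟨a', b', hab', rfl, rfl⟩, h5, h6⟩ := hy
      have := hf _ (mem_univ _) _ (mem_univ _) h5
      simp at this
    have e3 : I ∪ I.image Prod.swap ⊆ (darts (TT E) univ).image (Prod.map f f) := by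
      rintro ⟨x, y⟩ hx
      simp only [hI, mem_union, mem_image, Prod.exists, Prod.map, Function.comp, Prod.mk.injEq,
        Prod.swap] at hx
      rw [mem_image]
      rcases hx with ⟨a, b, hab, rfl, rfl⟩ | ⟨x', y', ⟨a, b, hab, rfl, rfl⟩, rfl, rfl⟩
      · exact ⟨(Sum.inl a, Sum.inr b), by simp [darts, TT, hab], rfl⟩
      · exact ⟨(Sum.inr b, Sum.inl a), by simp [darts, TT, hab], rfl⟩
    have := card_le_card e3
    rw [card_union_of_disjoint e2, e1] at this
    omega
  have h4 : ((M E).toNat : ℤ) = M E := Int.toNat_of_nonneg hM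
  zify at h2 h3 ⊢
  rw [h4]
  linarith

/-- adjacency of the image under `s` -/
def AS {V : Type} (A : V → V → Prop) (s : V → V) : V → V → Prop :=
  fun u v => ∃ u' v', s u' = u ∧ s v' = v ∧ A u' v'

theorem hyp_image {V : Type} [Fintype V] {c : V → Bool} {A : V → V → Prop} {m : ℕ}
    (h : Hyp c A univ m) (s : V → V) (hs : ∀ v, c (s v) = c v) :
    Hyp c (AS A s) (univ.image s) m := by
  intro Z f hf
  have h1 := h Z (f ∘ s) (by
    intro u _ v _ huv
    have := hf (s u) (mem_image_of_mem _ (mem_univ _)) (s v) (mem_image_of_mem _ (mem_univ _)) huv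
    rwa [hs, hs] at this)
  have e1 : (univ.image s).image f = univ.image (f ∘ s) := by rw [image_image]
  have e2 : (darts (AS A s) (univ.image s)).image (Prod.map f f) =
      (darts A univ).image (Prod.map (f ∘ s) (f ∘ s)) := by
    ext ⟨x, y⟩
    simp only [darts, mem_image, mem_filter, mem_product, mem_univ, true_and, Prod.exists,
      Prod.map, Prod.mk.injEq, AS, Function.comp]
    constructor
    · rintro ⟨u, v, ⟨_, u', v', rfl, rfl, hA⟩, rfl, rfl⟩
      exact ⟨u', v', hA, rfl, rfl⟩
    · rintro ⟨u', v', hA, rfl, rfl⟩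
      exact ⟨s u', s v', ⟨⟨⟨u', rfl⟩, ⟨v', rfl⟩⟩, u', v', rfl, rfl, hA⟩, rfl, rfl⟩
  rw [e1, e2]
  exact h1

theorem cnt_le {V P : Type} [Fintype V] [Fintype P] {c : V → Bool} {A : V → V → Prop}
    {k : P → Bool} {T : P → P → Prop} {d q m : ℕ} (p0 : P) {Γ : Finset P}
    (hd : 1 ≤ d) (hq : d ≤ q) (hdq : d ^ 39 ≤ q ^ 20) (hT : Tgt k T Γ (d ^ 2) d)
    (hT' : Tgt k T univ (q ^ 2) d) (hΓ : ∀ p p', T p p' → p ∈ Γ)
    (hsy : ∀ u v, A u v → A v u) (hc : ∀ u v, A u v → c u ≠ c v) (hH0 : Hyp c A univ m) :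
    Nat.card {φ : V → P // (∀ v, k (φ v) = c v) ∧
      ∀ u v, A u v → T (φ u) (φ v)} ≤ Nat.card (V → V) * q ^ m := by
  set Hs : Finset (V → P) := univ.filter (fun φ => (∀ v, k (φ v) = c v) ∧
      ∀ u v, A u v → T (φ u) (φ v)) with hHs
  have hcd : Nat.card {φ : V → P // (∀ v, k (φ v) = c v) ∧ ∀ u v, A u v → T (φ u) (φ v)} =
      Hs.card := by
    rw [Nat.card_eq_fintype_card, Fintype.card_subtype]
  rw [hcd, mul_comm, Nat.card_eq_fintype_card]
  have h1 := Finset.card_le_mul_card_image_of_maps_to (s := Hs)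
    (f := fun φ => rep φ) (t := univ) (fun _ _ => mem_univ _) (q ^ m) ?_
  · rwa [Finset.card_univ] at h1
  intro s _
  by_cases hs : ∀ v, c (s v) = c v
  swap
  · have : Hs.filter (fun φ => rep φ = s) = ∅ := by
      rw [Finset.filter_eq_empty_iff]
      rintro φ hφ rfl
      rw [hHs, mem_filter] at hφ
      apply hs
      intro v
      have h2 := f_rep φ v
      rw [← hφ.2.1, h2, hφ.2.1]
    rw [this]
    simp
  · have hH := hyp_image hH0 s hs
    have hAS : ∀ u v, AS A s u v → AS A s v u := by
      rintro u v ⟨u', v', h1, h2, h3⟩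
      exact ⟨v', u', h2, h1, hsy _ _ h3⟩
    have hAc : ∀ u v, AS A s u v → c u ≠ c v := by
      rintro u v ⟨u', v', rfl, rfl, h3⟩
      rw [hs, hs]
      exact hc _ _ h3
    have key := inj_count (p0 := p0) hd hq hdq hT hT' hΓ hAS hAc _ (univ.image s) rfl m hH
    refine le_trans (Finset.card_le_card_of_injOn
      (fun φ v => if v ∈ univ.image s then φ v else p0) ?_ ?_) key
    · intro φ hp
      rw [mem_coe, mem_filter, hHs, mem_filter] at hp
      obtain ⟨⟨_, hcl, hadj⟩, hp2⟩ := hp
      have hrep : ∀ v, φ (s v) = φ v := fun v => by rw [← hp2]; exact f_rep φ v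
      rw [mem_coe, NH, mem_filter]
      refine ⟨mem_univ _, ?_, ?_, ?_, ?_⟩
      · intro v hv
        simp only [if_neg hv]
      · intro v hv
        simp only [if_pos hv]
        exact ⟨mem_univ _, hcl v⟩
      · intro u hu v hv huv
        rw [mem_coe] at hu hv
        simp only [if_pos hu, if_pos hv] at huv
        obtain ⟨u', _, rfl⟩ := mem_image.1 hu
        obtain ⟨v', _, rfl⟩ := mem_image.1 hv
        rw [hrep, hrep] at huv
        rw [← hp2]
        exact rep_eq φ huv
      · intro u hu v hv huv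
        simp only [if_pos hu, if_pos hv]
        obtain ⟨u', v', rfl, rfl, h3⟩ := huv
        rw [hrep, hrep]
        exact hadj _ _ h3
    · intro φ hp φ' hp' he
      rw [mem_coe, mem_filter, hHs, mem_filter] at hp hp'
      funext v
      rw [← f_rep φ v, ← f_rep φ' v, hp.2, hp'.2]
      have := congrFun he (s v)
      simp only [if_pos (mem_image_of_mem s (mem_univ v))] at this
      exact this

theorem hom_le {α β γ δ : Type} [Fintype α] [Fintype β] [Fintype γ] [Fintype δ]
    (E : Finset (α × β)) (F : Finset (γ × δ)) {d q : ℕ} (p0 : γ ⊕ δ) {Γ : Finset (γ ⊕ δ)}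
    (hd : 1 ≤ d) (hq : d ≤ q) (hdq : d ^ 39 ≤ q ^ 20)
    (hT : Tgt Sum.isRight (TT F) Γ (d ^ 2) d)
    (hT' : Tgt Sum.isRight (TT F) univ (q ^ 2) d) (hΓ : ∀ p p', TT F p p' → p ∈ Γ) :
    hom E F ≤ Nat.card (α ⊕ β → α ⊕ β) * q ^ (M E).toNat := by
  refine le_trans ?_ (cnt_le (c := Sum.isRight) (A := TT E) p0 hd hq hdq hT hT' hΓ (TT_symm E)
    (TT_cls E) (hyp_univ E))
  unfold hom
  refine Nat.card_le_card_of_injective
    (fun p => ⟨Sum.map p.1.1 p.1.2, ?_⟩) ?_
  · refine ⟨?_, ?_⟩
    · rintro (x | x) <;> rfl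
    · rintro (u | u) (v | v) h
      · exact h.elim
      · exact p.2 (u, v) h
      · exact p.2 (v, u) h
      · exact h.elim
  · rintro ⟨p, hp⟩ ⟨p', hp'⟩ he
    have hφ := Subtype.mk.inj he
    have h1 : p.1 = p'.1 := by
      funext a
      exact Sum.inl.inj (congrFun hφ (Sum.inl a))
    have h2 : p.2 = p'.2 := by
      funext a
      exact Sum.inr.inj (congrFun hφ (Sum.inr a))
    exact Subtype.ext (Prod.ext h1 h2)

/-- the affine incidence graph satisfies the target hypotheses -/
theorem tgt_aff {d t q : ℕ} [NeZero d] (hd : d.Prime) (h1 : d ^ 2 ≤ q ^ 2)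
    (h2 : d ^ 2 + t ≤ q ^ 2) :
    ∃ Γ : Finset ((ZMod d × ZMod d) ⊕ ((ZMod d × ZMod d) ⊕ Fin t)),
      Tgt Sum.isRight (TT (aff d t)) Γ (d ^ 2) d ∧
      Tgt Sum.isRight (TT (aff d t)) univ (q ^ 2) d ∧
      ∀ p p', TT (aff d t) p p' → p ∈ Γ := by
  haveI : Fact d.Prime := ⟨hd⟩
  have hcard : Fintype.card (ZMod d × ZMod d) = d ^ 2 := by
    rw [Fintype.card_prod, ZMod.card]; ring
  have memaff : ∀ (x l : ZMod d × ZMod d), (x, (Sum.inl l : (ZMod d × ZMod d) ⊕ Fin t)) ∈ aff d t ↔
      x.2 = l.1 * x.1 + l.2 := by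
    intro x l
    rw [aff, mem_filter]
    constructor
    · rintro ⟨_, l', h, h'⟩
      have := Sum.inl.inj h
      rw [this]; exact h'
    · intro h
      exact ⟨mem_univ _, l, rfl, h⟩
  have memaff' : ∀ (x : ZMod d × ZMod d) (i : Fin t), 
      (x, (Sum.inr i : (ZMod d × ZMod d) ⊕ Fin t)) ∉ aff d t := by
    intro x i
    simp [aff]
  -- degrees
  have hdeg : ∀ x, ((univ : Finset ((ZMod d × ZMod d) ⊕ ((ZMod d × ZMod d) ⊕ Fin t))).filter
      fun p => TT (aff d t) p x).card ≤ d := by
    intro x
    have hz : (univ : Finset (ZMod d)).card = d := by rw [Finset.card_univ, ZMod.card d]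
    refine le_trans ?_ (le_of_eq hz)
    rcases x with x | x | x
    · refine Finset.card_le_card_of_injOn (fun p => match p with
        | Sum.inr (Sum.inl l) => l.1
        | _ => 0) (fun _ _ => by simp) ?_
      rintro (a | a | a) ha (b | b | b) hb hab
      all_goals simp [TT, memaff, memaff'] at ha hb hab ⊢
      ext
      · exact hab
      · have : a.2 = x.2 - a.1 * x.1 := by rw [ha]; ring
        rw [this, hab, hb]; ring
    · refine Finset.card_le_card_of_injOn (fun p => match p with
        | Sum.inl a => a.1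
        | _ => 0) (fun _ _ => by simp) ?_
      rintro (a | a | a) ha (b | b | b) hb hab
      all_goals simp [TT, memaff, memaff'] at ha hb hab ⊢
      ext
      · exact hab
      · rw [ha, hb, hab]
    · have : ((univ : Finset ((ZMod d × ZMod d) ⊕ ((ZMod d × ZMod d) ⊕ Fin t))).filter
          fun p => TT (aff d t) p (Sum.inr (Sum.inr x))) = ∅ := by
        rw [Finset.filter_eq_empty_iff]
        rintro (a | a | a) _ <;> simp [TT, memaff']
      rw [this]; simp
  -- linearity
  have hlin : ∀ x y, x ≠ y → Sum.isRight x = Sum.isRight y →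
      ((univ : Finset ((ZMod d × ZMod d) ⊕ ((ZMod d × ZMod d) ⊕ Fin t))).filter
      fun p => TT (aff d t) p x ∧ TT (aff d t) p y).card ≤ 1 := by
    intro x y hxy hcl
    rw [Finset.card_le_one]
    intro a ha b hb
    rw [mem_filter] at ha hb
    obtain ⟨_, ha1, ha2⟩ := ha
    obtain ⟨_, hb1, hb2⟩ := hb
    rcases x with x | x | x <;> rcases y with y | y | y <;> simp at hcl <;>
      rcases a with a | a | a <;> rcases b with b | b | b <;>
      simp [TT, memaff, memaff'] at ha1 ha2 hb1 hb2 ⊢
    · -- two points, lines a b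
      have e1 : a.1 * (x.1 - y.1) = b.1 * (x.1 - y.1) := by
        linear_combination (-ha1 + ha2 + hb1 - hb2)
      by_cases h : x.1 - y.1 = 0
      · exfalso
        apply hxy
        have hx : x.1 = y.1 := sub_eq_zero.1 h
        congr 1
        exact Prod.ext hx (by rw [ha1, ha2, hx])
      · have e2 := mul_right_cancel₀ h e1
        ext
        · exact e2
        · have : a.2 = x.2 - a.1 * x.1 := by rw [ha1]; ring
          rw [this, hb1, e2]; ring
    · -- two lines, points a b
      have e1 : (x.1 - y.1) * a.1 = (x.1 - y.1) * b.1 := by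
        linear_combination (-ha1 + ha2 + hb1 - hb2)
      by_cases h : x.1 - y.1 = 0
      · exfalso
        apply hxy
        have hx : x.1 = y.1 := sub_eq_zero.1 h
        congr 2
        refine Prod.ext hx ?_
        have h3 : x.1 * a.1 + x.2 = y.1 * a.1 + y.2 := by rw [← ha1, ha2]
        rw [hx] at h3
        exact add_left_cancel h3
      · have e2 := mul_left_cancel₀ h e1
        ext
        · exact e2
        · rw [ha1, hb1, e2]
  refine ⟨univ.filter (fun p => ∃ p', TT (aff d t) p p'), ⟨?_, ?_, ?_⟩, ⟨?_, ?_, ?_⟩, ?_⟩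
  · intro b
    rw [← hcard, ← Finset.card_univ]
    refine Finset.card_le_card_of_injOn (fun p => match p with
        | Sum.inl a => a
        | Sum.inr (Sum.inl a) => a
        | _ => 0) (fun _ _ => by simp) ?_
    intro p hp p' hp' he
    rw [mem_coe, mem_filter, mem_filter] at hp hp'
    obtain ⟨⟨_, w, hw⟩, h3⟩ := hp
    obtain ⟨⟨_, w', hw'⟩, h3'⟩ := hp'
    rcases p with p | p | p <;> rcases p' with p' | p' | p' <;> simp at h3 h3' he ⊢ <;>
      first
        | exact he
        | (subst h3; simp at h3'; done)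
        | ((exfalso; rcases w with w | w | w <;> simp [TT, memaff'] at hw); done)
        | ((exfalso; rcases w' with w' | w' | w' <;> simp [TT, memaff'] at hw'); done)
  · intro x
    exact (card_le_card (filter_subset_filter _ (subset_univ _))).trans (hdeg x)
  · intro x y h h'
    exact (card_le_card (filter_subset_filter _ (subset_univ _))).trans (hlin x y h h')
  · intro b
    cases b with
    | false =>
      refine le_trans ?_ h1
      rw [← hcard, ← Finset.card_univ]
      refine Finset.card_le_card_of_injOn (fun p => match p with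
        | Sum.inl a => a
        | _ => 0) (fun _ _ => by simp) ?_
      rintro (p | p) hp (p' | p') hp' he <;> simp at hp hp' he ⊢
      exact he
    | true =>
      refine le_trans ?_ h2
      have : d ^ 2 + t = ((univ : Finset ((ZMod d × ZMod d) ⊕ Fin t))).card := by
        rw [Finset.card_univ, Fintype.card_sum, hcard, Fintype.card_fin]
      rw [this]
      refine Finset.card_le_card_of_injOn (fun p => match p with
        | Sum.inr a => a
        | _ => Sum.inl 0) (fun _ _ => by simp) ?_
      rintro (p | p) hp (p' | p') hp' he <;> simp at hp hp' he ⊢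
      exact he
  · exact hdeg
  · exact hlin
  · intro p p' h
    exact mem_filter.2 ⟨mem_univ _, p', h⟩

end Pool.Agent.R97.QL
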