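import Mathlib

/-! MP_8fd344_co: averaging over subsets. -/

open Finset

namespace Pool.Agent.R97.QL

theorem sum_two_card {V : Type} [DecidableEq V] (X : Finset V) :
    ∑ t ∈ X.powerset, 2 * t.card = X.card * 2 ^ X.card := by
  induction X using Finset.induction_on with
  | empty => simp
  | insert a s ha ih =>
    rw [Finset.sum_powerset_insert ha, ih, card_insert_of_notMem ha]
    have : ∑ t ∈ s.powerset, 2 * (insert a t).card = ∑ t ∈ s.powerset, (2 * t.card + 2) := by
      refine Finset.sum_congr rfl fun t ht => ?_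
      rw [card_insert_of_notMem (fun h => ha (mem_powerset.1 ht h))]
      ring
    rw [this, sum_add_distrib, ih, sum_const, card_powerset]
    simp only [smul_eq_mul]
    ring

theorem sum_phi2 {V : Type} [DecidableEq V] (X N : Finset V) (hN : N ⊆ X) (h2 : N.card = 2) :
    ∑ t ∈ X.powerset, (2 - (N ∩ t).card) = 2 ^ X.card := by
  obtain ⟨x, y, hxy, rfl⟩ := Finset.card_eq_two.1 h2
  have hx : x ∈ X := hN (by simp)
  have hy : y ∈ X := hN (by simp)
  set Y := (X.erase x).erase y with hY
  have hyY : y ∉ Y := by simp [hY]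
  have hxY : x ∉ insert y Y := by simp [hY, hxy]
  have hX : X = insert x (insert y Y) := by
    rw [hY, Finset.insert_erase (by simp [hy, Ne.symm hxy]), Finset.insert_erase hx]
  have hxY' : x ∉ Y := fun h => hxY (mem_insert_of_mem h)
  rw [hX, Finset.sum_powerset_insert hxY, Finset.sum_powerset_insert hyY,
    Finset.sum_powerset_insert hyY, card_insert_of_notMem hxY, card_insert_of_notMem hyY,
    ← sum_add_distrib, ← sum_add_distrib, ← sum_add_distrib]
  have hc : ∀ (t s : Finset V), s ⊆ {x, y} → Disjoint t {x, y} →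
      (({x, y} : Finset V) ∩ (s ∪ t)).card = s.card := by
    intro t s hs ht
    congr 1
    ext u
    simp only [mem_inter, mem_union]
    constructor
    · rintro ⟨h1, h2 | h2⟩
      · exact h2
      · exact absurd h1 (Finset.disjoint_left.1 ht h2)
    · intro h; exact ⟨hs h, Or.inl h⟩
  have : ∀ t ∈ Y.powerset, (2 - (({x, y} : Finset V) ∩ t).card +
      (2 - (({x, y} : Finset V) ∩ (insert y t)).card)) +
      (2 - (({x, y} : Finset V) ∩ (insert x t)).card +
      (2 - (({x, y} : Finset V) ∩ (insert x (insert y t))).card)) = 4 := by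
    intro t ht
    have htx : x ∉ t := fun h => hxY' (mem_powerset.1 ht h)
    have hty : y ∉ t := fun h => hyY (mem_powerset.1 ht h)
    have hd : Disjoint t {x, y} := by
      rw [Finset.disjoint_right]
      intro u hu
      simp only [mem_insert, mem_singleton] at hu
      rcases hu with rfl | rfl <;> assumption
    have e0 := hc t ∅ (by simp) hd
    have e1 := hc t {y} (by simp) hd
    have e2 := hc t {x} (by simp) hd
    have e3 := hc t {x, y} (by simp) hd
    simp only [empty_union, singleton_union, insert_union] at e0 e1 e2 e3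
    rw [e0, e1, e2, e3, h2]
    simp
  rw [Finset.sum_congr rfl this, sum_const, card_powerset]
  simp only [smul_eq_mul]
  ring

theorem sum_phi3 {V : Type} [DecidableEq V] (X N : Finset V) (hN : N ⊆ X) (h3 : N.card = 3) :
    8 * ∑ t ∈ X.powerset, (2 - (N ∩ t).card) = 5 * 2 ^ X.card := by
  obtain ⟨x, y, z, hxy, hxz, hyz, rfl⟩ := Finset.card_eq_three.1 h3
  have hx : x ∈ X := hN (by simp)
  have hy : y ∈ X := hN (by simp)
  have hz : z ∈ X := hN (by simp)
  set Y := ((X.erase x).erase y).erase z with hY
  have hzY : z ∉ Y := by simp [hY]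
  have hyY : y ∉ insert z Y := by simp [hY, hyz]
  have hxY : x ∉ insert y (insert z Y) := by simp [hY, hxy, hxz]
  have hX : X = insert x (insert y (insert z Y)) := by
    rw [hY, Finset.insert_erase (by simp [hz, Ne.symm hxz, Ne.symm hyz]),
      Finset.insert_erase (by simp [hy, Ne.symm hxy]), Finset.insert_erase hx]
  have hyY' : y ∉ Y := fun h => hyY (mem_insert_of_mem h)
  have hxY' : x ∉ Y := fun h => hxY (mem_insert_of_mem (mem_insert_of_mem h))
  rw [hX, Finset.sum_powerset_insert hxY, Finset.sum_powerset_insert hyY,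
    Finset.sum_powerset_insert hyY, Finset.sum_powerset_insert hzY,
    Finset.sum_powerset_insert hzY, Finset.sum_powerset_insert hzY,
    Finset.sum_powerset_insert hzY,
    card_insert_of_notMem hxY, card_insert_of_notMem hyY, card_insert_of_notMem hzY,
    ← sum_add_distrib, ← sum_add_distrib, ← sum_add_distrib, ← sum_add_distrib,
    ← sum_add_distrib, ← sum_add_distrib, ← sum_add_distrib]
  have hc : ∀ (t s : Finset V), s ⊆ {x, y, z} → Disjoint t {x, y, z} →
      (({x, y, z} : Finset V) ∩ (s ∪ t)).card = s.card := by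
    intro t s hs ht
    congr 1
    ext u
    simp only [mem_inter, mem_union]
    constructor
    · rintro ⟨h1, h2 | h2⟩
      · exact h2
      · exact absurd h1 (Finset.disjoint_left.1 ht h2)
    · intro h; exact ⟨hs h, Or.inl h⟩
  have : ∀ t ∈ Y.powerset,
      (2 - (({x, y, z} : Finset V) ∩ t).card +
      (2 - (({x, y, z} : Finset V) ∩ (insert z t)).card) +
      (2 - (({x, y, z} : Finset V) ∩ (insert y t)).card +
      (2 - (({x, y, z} : Finset V) ∩ (insert y (insert z t))).card))) +
      (2 - (({x, y, z} : Finset V) ∩ (insert x t)).card +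
      (2 - (({x, y, z} : Finset V) ∩ (insert x (insert z t))).card) +
      (2 - (({x, y, z} : Finset V) ∩ (insert x (insert y t))).card +
      (2 - (({x, y, z} : Finset V) ∩ (insert x (insert y (insert z t)))).card))) = 5 := by
    intro t ht
    have htx : x ∉ t := fun h => hxY' (mem_powerset.1 ht h)
    have hty : y ∉ t := fun h => hyY' (mem_powerset.1 ht h)
    have htz : z ∉ t := fun h => hzY (mem_powerset.1 ht h)
    have hd : Disjoint t {x, y, z} := by
      rw [Finset.disjoint_right]
      intro u hu
      simp only [mem_insert, mem_singleton] at hu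
      rcases hu with rfl | rfl | rfl <;> assumption
    have e0 := hc t ∅ (by simp) hd
    have e1 := hc t {z} (by simp) hd
    have e2 := hc t {y} (by simp) hd
    have e3 := hc t {y, z} (by intro u; simp; tauto) hd
    have e4 := hc t {x} (by simp) hd
    have e5 := hc t {x, z} (by intro u; simp; tauto) hd
    have e6 := hc t {x, y} (by intro u; simp; tauto) hd
    have e7 := hc t {x, y, z} (by simp) hd
    simp only [empty_union, singleton_union, insert_union] at e0 e1 e2 e3 e4 e5 e6 e7
    rw [e0, e1, e2, e3, e4, e5, e6, e7, h3, card_pair hyz, card_pair hxz, card_pair hxy]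
    simp
  rw [Finset.sum_congr rfl this, sum_const, card_powerset]
  simp only [smul_eq_mul]
  ring

theorem exists_avg {V : Type} [DecidableEq V] (X Y : Finset V) (N : V → Finset V)
    (hN : ∀ w ∈ Y, N w ⊆ X) (h2 : ∀ w ∈ Y, 2 ≤ (N w).card) (U : Finset V) (hU : U ⊆ Y)
    (h3 : ∀ w ∈ U, 3 ≤ (N w).card) :
    ∃ t, t ⊆ X ∧ 8 * (2 * t.card + ∑ w ∈ Y, (2 - (N w ∩ t).card)) + 3 * U.card ≤
      8 * X.card + 8 * Y.card := by
  by_contra hcon
  push Not at hcon
  have key : ∀ w ∈ Y, 8 * ∑ t ∈ X.powerset, (2 - (N w ∩ t).card) +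
      (if w ∈ U then 3 * 2 ^ X.card else 0) ≤ 8 * 2 ^ X.card := by
    intro w hw
    by_cases hwU : w ∈ U
    · rw [if_pos hwU]
      obtain ⟨N', hN', hc⟩ := Finset.exists_subset_card_eq (h3 w hwU)
      have h4 := sum_phi3 X N' (hN'.trans (hN w hw)) hc
      have h5 : ∑ t ∈ X.powerset, (2 - (N w ∩ t).card) ≤ ∑ t ∈ X.powerset, (2 - (N' ∩ t).card) := by
        refine Finset.sum_le_sum fun t _ => ?_
        have : (N' ∩ t).card ≤ (N w ∩ t).card :=
          card_le_card (Finset.inter_subset_inter_right hN')
        omega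
      omega
    · rw [if_neg hwU]
      obtain ⟨N', hN', hc⟩ := Finset.exists_subset_card_eq (h2 w hw)
      have h4 := sum_phi2 X N' (hN'.trans (hN w hw)) hc
      have h5 : ∑ t ∈ X.powerset, (2 - (N w ∩ t).card) ≤ ∑ t ∈ X.powerset, (2 - (N' ∩ t).card) := by
        refine Finset.sum_le_sum fun t _ => ?_
        have : (N' ∩ t).card ≤ (N w ∩ t).card :=
          card_le_card (Finset.inter_subset_inter_right hN')
        omega
      omega
  have h6 := Finset.sum_le_sum key
  rw [sum_add_distrib, ← mul_sum, Finset.sum_comm, sum_const, smul_eq_mul,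
    ← Finset.sum_filter, sum_const, smul_eq_mul] at h6
  have hUf : Y.filter (fun w => w ∈ U) = U := by
    ext w; simp only [mem_filter]; exact ⟨fun h => h.2, fun h => ⟨hU h, h⟩⟩
  rw [hUf] at h6
  have h7 : ∑ t ∈ X.powerset, (8 * X.card + 8 * Y.card) <
      ∑ t ∈ X.powerset, (8 * (2 * t.card + ∑ w ∈ Y, (2 - (N w ∩ t).card)) + 3 * U.card) :=
    Finset.sum_lt_sum_of_nonempty ⟨∅, by simp⟩ fun t ht => hcon t (mem_powerset.1 ht)
  rw [sum_const, card_powerset, smul_eq_mul, sum_add_distrib, ← mul_sum, sum_add_distrib,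
    sum_two_card, sum_const, card_powerset, smul_eq_mul] at h7
  nlinarith [h6, h7]

end Pool.Agent.R97.QL
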