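import Pool.Agent.R97.QL.Stm

/-! MP_8fd344_co: the notions of the problem. -/

open Finset Filter Topology Matrix
open scoped Classical

namespace Pool.Agent.R97.QL

/-- A finite bipartite graph with labelled vertex classes `Fin m`, `Fin n` and edge set `E`. -/
structure BipGraph where
  m : ℕ
  n : ℕ
  E : Finset (Fin m × Fin n)

namespace BipGraph

/-- `(f, g)` is a homomorphism `H → G` (mapping the `i`-th class to the `i`-th class). -/
def IsHom (H G : BipGraph) (f : Fin H.m → Fin G.m) (g : Fin H.n → Fin G.n) : Prop :=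
  ∀ e ∈ H.E, (f e.1, g e.2) ∈ G.E

/-- the number of homomorphisms `H → G`. -/
noncomputable def homCount (H G : BipGraph) : ℕ :=
  Nat.card {p : (Fin H.m → Fin G.m) × (Fin H.n → Fin G.n) // IsHom H G p.1 p.2}

/-- homomorphism density `t_B(H, G)`. -/
noncomputable def tB (H G : BipGraph) : ℝ :=
  (homCount H G : ℝ) / ((G.m : ℝ) ^ H.m * (G.n : ℝ) ^ H.n)

/-- the single edge with one endpoint in each class. -/
def K2 : BipGraph := ⟨1, 1, {(0, 0)}⟩

/-- `h(H, G) = log t_B(H, G) / log t_B(K_2, G)`, and `|E(H)|` when `t_B(K_2, G) = 1`. -/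
noncomputable def h (H G : BipGraph) : ℝ :=
  if tB K2 G = 1 then (H.E.card : ℝ) else Real.log (tB H G) / Real.log (tB K2 G)

/-- `H'` is a collapse of `H`: there is a homomorphism `H → H'` which is surjective on vertices
and on edges. -/
def IsCollapse (H H' : BipGraph) : Prop :=
  ∃ (f : Fin H.m → Fin H'.m) (g : Fin H.n → Fin H'.n), IsHom H H' f g ∧
    Function.Surjective f ∧ Function.Surjective g ∧
    ∀ e' ∈ H'.E, ∃ e ∈ H.E, (f e.1, g e.2) = e'

/-- `r(H)`: the minimum over the collapses `H'` of `H` of `|E(H')| + 2 (|V(H)| - |V(H')|)`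
(the subtraction is of natural numbers; a collapse has at most as many vertices as `H`). -/
noncomputable def r (H : BipGraph) : ℕ :=
  sInf {k | ∃ H' : BipGraph, IsCollapse H H' ∧
    k = H'.E.card + 2 * ((H.m + H.n) - (H'.m + H'.n))}

/-- the sequence `G` has the quasirandom log-limit. -/
def QuasirandomLogLimit (G : ℕ → BipGraph) : Prop :=
  ∀ H : BipGraph, H.E.Nonempty → Tendsto (fun k => h H (G k)) atTop (𝓝 (r H : ℝ))

/-- adjacency matrix of the underlying simple graph on `V_1 ⊔ V_2`. -/
noncomputable def adjMatrix (G : BipGraph) :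
    Matrix (Fin G.m ⊕ Fin G.n) (Fin G.m ⊕ Fin G.n) ℝ :=
  Matrix.of fun x y => match x, y with
    | Sum.inl a, Sum.inr b => if (a, b) ∈ G.E then 1 else 0
    | Sum.inr b, Sum.inl a => if (a, b) ∈ G.E then 1 else 0
    | _, _ => 0

/-- the spectrum: the multiset of eigenvalues (roots of the characteristic polynomial) of the
adjacency matrix. -/
noncomputable def spectrum (G : BipGraph) : Multiset ℝ := (adjMatrix G).charpoly.roots

end BipGraph

open BipGraph

theorem val_def' {α β γ δ : Type} [Fintype α] [Fintype β] [i1 : DecidableEq γ]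
    [i2 : DecidableEq δ] [i3 : DecidableEq (γ × δ)] (E : Finset (α × β)) (f : α → γ) (g : β → δ) :
    val E f g = 2 * (((univ.image f).card : ℤ) + ((univ.image g).card : ℤ))
      - ((E.image (Prod.map f g)).card : ℤ) := by
  have h1 : i1 = (fun a b => Classical.propDecidable (a = b)) := Subsingleton.elim _ _
  have h2 : i2 = (fun a b => Classical.propDecidable (a = b)) := Subsingleton.elim _ _
  subst h1 h2
  have h3 : i3 = instDecidableEqProd := Subsingleton.elim _ _
  subst h3
  rfl

theorem homCount_eq (H G : BipGraph) : homCount H G = hom H.E G.E := rfl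

theorem adjMatrix_eq (G : BipGraph) : adjMatrix G = adj G.E := by
  ext x y
  rcases x with x | x <;> rcases y with y | y <;>
    simp [adjMatrix, adj, biadj, Matrix.fromBlocks]

theorem r_eq (H : BipGraph) : ((r H : ℕ) : ℤ) = 2 * (H.m + H.n) - M H.E := by
  set S := {k | ∃ H' : BipGraph, IsCollapse H H' ∧
    k = H'.E.card + 2 * ((H.m + H.n) - (H'.m + H'.n))} with hS
  have himg : ∀ (H' : BipGraph), IsCollapse H H' → H'.m ≤ H.m ∧ H'.n ≤ H.n ∧
      2 * ((H'.m : ℤ) + H'.n) - H'.E.card ≤ M H.E := by
    rintro H' ⟨f, g, h1, h2, h3, h4⟩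
    refine ⟨by simpa using Fintype.card_le_of_surjective f h2,
      by simpa using Fintype.card_le_of_surjective g h3, ?_⟩
    have h5 := val_le_M H.E f g
    rw [val_def'] at h5
    have e1 : (univ.image f) = univ := by
      ext x; simp only [mem_image, mem_univ, true_and, iff_true]; exact h2 x
    have e2 : (univ.image g) = univ := by
      ext x; simp only [mem_image, mem_univ, true_and, iff_true]; exact h3 x
    have e3 : H.E.image (Prod.map f g) = H'.E := by
      ext x
      rw [mem_image]
      constructor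
      · rintro ⟨e, he, rfl⟩
        exact h1 e he
      · intro hx
        obtain ⟨e, he, he'⟩ := h4 x hx
        exact ⟨e, he, he'⟩
    rw [e1, e2, e3, Finset.card_univ, Finset.card_univ, Fintype.card_fin, Fintype.card_fin] at h5
    exact h5
  obtain ⟨f, g, hfg⟩ := exists_M H.E
  -- the optimal collapse
  have hatt : ∃ H' : BipGraph, IsCollapse H H' ∧
      2 * ((H'.m : ℤ) + H'.n) - H'.E.card = M H.E := by
    set e1 := (univ.image f).equivFin with he1
    set e2 := (univ.image g).equivFin with he2
    set f' : Fin H.m → Fin (univ.image f).card := fun a =>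
      e1 ⟨f a, mem_image_of_mem _ (mem_univ _)⟩ with hf'
    set g' : Fin H.n → Fin (univ.image g).card := fun a =>
      e2 ⟨g a, mem_image_of_mem _ (mem_univ _)⟩ with hg'
    refine ⟨⟨(univ.image f).card, (univ.image g).card, H.E.image (Prod.map f' g')⟩,
      ⟨f', g', ?_, ?_, ?_, ?_⟩, ?_⟩
    · intro e he
      exact mem_image_of_mem (Prod.map f' g') he
    · intro y
      obtain ⟨a, _, ha⟩ := mem_image.1 (e1.symm y).2
      refine ⟨a, ?_⟩
      simp only [hf']
      rw [← e1.apply_symm_apply y]
      congr 1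
      exact Subtype.ext ha
    · intro y
      obtain ⟨a, _, ha⟩ := mem_image.1 (e2.symm y).2
      refine ⟨a, ?_⟩
      simp only [hg']
      rw [← e2.apply_symm_apply y]
      congr 1
      exact Subtype.ext ha
    · intro e' he'
      obtain ⟨e, he, he''⟩ := mem_image.1 he'
      exact ⟨e, he, he''⟩
    · rw [← hfg, val_def']
      simp only
      have e3 : (H.E.image (Prod.map f' g')).card = (H.E.image (Prod.map f g)).card := by
        apply card_image_eq_of_ker
        rintro ⟨a1, a2⟩ ⟨b1, b2⟩
        simp only [Prod.map, Prod.mk.injEq, hf', hg', EmbeddingLike.apply_eq_iff_eq,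
          Subtype.mk.injEq]
      rw [e3]
  obtain ⟨H', hc, hv⟩ := hatt
  have hmem : H'.E.card + 2 * ((H.m + H.n) - (H'.m + H'.n)) ∈ S := ⟨H', hc, rfl⟩
  have hle : r H ≤ H'.E.card + 2 * ((H.m + H.n) - (H'.m + H'.n)) := Nat.sInf_le hmem
  obtain ⟨H'', hc'', hk⟩ := Nat.sInf_mem (s := S) ⟨_, hmem⟩
  have hk' : r H = H''.E.card + 2 * ((H.m + H.n) - (H''.m + H''.n)) := hk
  obtain ⟨a1, a2, a3⟩ := himg H' hc
  obtain ⟨b1, b2, b3⟩ := himg H'' hc''
  omega

/-- transport to `Fin`-classes -/
noncomputable def toBip {γ δ : Type} [Fintype γ] [Fintype δ] (F : Finset (γ × δ)) : BipGraph :=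
  ⟨Fintype.card γ, Fintype.card δ,
    F.map ((Fintype.equivFin γ).prodCongr (Fintype.equivFin δ)).toEmbedding⟩

theorem homCount_toBip {γ δ : Type} [Fintype γ] [Fintype δ] (H : BipGraph)
    (F : Finset (γ × δ)) : homCount H (toBip F) = hom H.E F := by
  rw [homCount_eq]
  exact hom_map_right _ _ _ _

theorem ite_eq' {p q : Prop} {i : Decidable p} {j : Decidable q} (hpq : p ↔ q) :
    @ite ℝ p i 1 0 = @ite ℝ q j 1 0 := by
  by_cases hp : p
  · rw [if_pos hp, if_pos (hpq.1 hp)]
  · rw [if_neg hp, if_neg (fun hq => hp (hpq.2 hq))]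

theorem spectrum_toBip {γ δ : Type} [Fintype γ] [Fintype δ]
    (F : Finset (γ × δ)) : BipGraph.spectrum (toBip F) = (adj F).charpoly.roots := by
  unfold BipGraph.spectrum
  congr 1
  rw [adjMatrix_eq]
  have key : ∀ (x : Fin (toBip F).m) (y : Fin (toBip F).n), (x, y) ∈ (toBip F).E ↔
      ((Fintype.equivFin γ).symm x, (Fintype.equivFin δ).symm y) ∈ F := by
    intro x y
    exact Finset.mem_map_equiv
  have : adj (toBip F).E = Matrix.reindex ((Fintype.equivFin γ).sumCongr (Fintype.equivFin δ))
      ((Fintype.equivFin γ).sumCongr (Fintype.equivFin δ)) (adj F) := by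
    ext x y
    rcases x with x | x <;> rcases y with y | y
    · rfl
    · exact ite_eq' (key x y)
    · exact ite_eq' (key y x)
    · rfl
  rw [this]
  exact Matrix.charpoly_reindex ((Fintype.equivFin γ).sumCongr (Fintype.equivFin δ)) (adj F)

end Pool.Agent.R97.QL
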