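import Pool.Agent.R97.QL.Inj
import Pool.Agent.R97.QL.Avg

/-! MP_8fd344_co: the number of injective homomorphisms into the affine incidence graph. -/

open Finset
open scoped Classical

namespace Pool.Agent.R97.QL

section
variable {V P : Type} [Fintype V] [Fintype P]

/-- every class preserving collapse of the graph on `W` has value at most `m` -/
def Hyp (c : V → Bool) (A : V → V → Prop) (W : Finset V) (m : ℕ) : Prop :=
  ∀ (Z : Type) (f : V → Z), (∀ u ∈ W, ∀ v ∈ W, f u = f v → c u = c v) →
    4 * (W.image f).card ≤ 2 * m + ((darts A W).image (Prod.map f f)).card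

variable {c : V → Bool} {A : V → V → Prop}

theorem Hyp.use {W : Finset V} {m : ℕ} (hW : Hyp c A W m) {Z : Type} [i1 : DecidableEq Z]
    [i2 : DecidableEq (Z × Z)] (f : V → Z) (hf : ∀ u ∈ W, ∀ v ∈ W, f u = f v → c u = c v) :
    4 * (W.image f).card ≤ 2 * m + ((darts A W).image (Prod.map f f)).card := by
  have h1 : i1 = (fun a b => Classical.propDecidable (a = b)) := Subsingleton.elim _ _
  subst h1
  have h3 : i2 = instDecidableEqProd := Subsingleton.elim _ _
  subst h3
  exact hW Z f hf

theorem cc_card (hc : ∀ u v, A u v → c u ≠ c v) (U : Finset V) :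
    ((darts A U).image (Prod.map c c)).card ≤ 4 * (U.image c).card := by
  rcases (darts A U).eq_empty_or_nonempty with h | ⟨e, he⟩
  · rw [h]; simp
  · simp only [darts, mem_filter, mem_product] at he
    have h1 : 1 ≤ (U.image c).card := Finset.card_pos.2 ⟨c e.1, mem_image_of_mem _ he.1.1⟩
    have h2 : ((darts A U).image (Prod.map c c)).card ≤ 4 := by
      refine (card_le_univ _).trans ?_
      simp
    omega

theorem darts_mono {X Y : Finset V} (h : X ⊆ Y) : darts A X ⊆ darts A Y := by
  intro e he
  simp only [darts, mem_filter, mem_product] at he ⊢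
  exact ⟨⟨h he.1.1, h he.1.2⟩, he.2⟩

/-- deleting a vertex of degree at most one -/
theorem Hyp_erase (hs : ∀ u v, A u v → A v u) (hc : ∀ u v, A u v → c u ≠ c v)
    {W : Finset V} {w : V} (hw : w ∈ W) {m : ℕ} (hW : Hyp c A W m)
    (hj : (nb A w (W.erase w)).card ≤ 1) :
    ∃ m', m = m' + (2 - (nb A w (W.erase w)).card) ∧ Hyp c A (W.erase w) m' := by
  set j := (nb A w (W.erase w)).card with hjdef
  set W' := W.erase w with hW'
  have hwW' : w ∉ W' := by simp [hW']
  have hWi : W = insert w W' := by rw [hW', insert_erase hw]
  have hirr : ∀ u, ¬ A u u := fun u h => hc u u h rfl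
  have key : ∀ (Z : Type) (f : V → Z), (∀ u ∈ W', ∀ v ∈ W', f u = f v → c u = c v) →
      ∀ [DecidableEq Z] [DecidableEq (Z × Z)],
      4 * (W'.image f).card + 4 ≤ 2 * m + ((darts A W').image (Prod.map f f)).card + 2 * j := by
    intro Z f hf _ _
    set f' : V → Option Z := fun v => if v = w then none else some (f v) with hf'
    have h1 := hW.use f' (by
      intro u hu v hv huv
      simp only [hf'] at huv
      by_cases h : u = w
      · by_cases h' : v = w
        · rw [h, h']
        · rw [if_pos h, if_neg h'] at huv; cases huv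
      · by_cases h' : v = w
        · rw [if_neg h, if_pos h'] at huv; cases huv
        · rw [if_neg h, if_neg h'] at huv
          refine hf u ?_ v ?_ (Option.some.inj huv)
          · exact mem_erase.2 ⟨h, hu⟩
          · exact mem_erase.2 ⟨h', hv⟩)
    have h2 : (W'.image f).card + 1 ≤ (W.image f').card := by
      have e1 : (W'.image f').card = (W'.image f).card := by
        apply le_antisymm
        · apply card_image_le_of_factor
          intro a ha b hb hab
          simp only [hf']
          rw [if_neg (fun h : a = w => hwW' (h ▸ ha)), if_neg (fun h : b = w => hwW' (h ▸ hb)), hab]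
        · apply card_image_le_of_factor
          intro a ha b hb hab
          simp only [hf'] at hab
          rw [if_neg (fun h : a = w => hwW' (h ▸ ha)), if_neg (fun h : b = w => hwW' (h ▸ hb))] at hab
          exact Option.some.inj hab
      rw [hWi, image_insert, card_insert_of_notMem, e1]
      simp only [mem_image, not_exists, not_and]
      intro x hx
      simp only [hf']
      rw [if_neg (fun h : x = w => hwW' (h ▸ hx))]
      simp
    have h3 : ((darts A W).image (Prod.map f' f')).card ≤
        ((darts A W').image (Prod.map f f)).card + 2 * j := by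
      have e1 : (darts A W).image (Prod.map f' f') ⊆
          (darts A W').image (Prod.map f' f') ∪ (darts A W \ darts A W').image (Prod.map f' f') := by
        rw [← image_union]
        apply image_subset_image
        intro e he
        by_cases h : e ∈ darts A W'
        · exact mem_union_left _ h
        · exact mem_union_right _ (mem_sdiff.2 ⟨he, h⟩)
      have e2 : (darts A W \ darts A W').card = 2 * j := by
        rw [card_sdiff_of_subset (darts_mono (by rw [hWi]; exact subset_insert _ _)), hWi,
          darts_insert hs hirr hwW']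
        omega
      have e3 : ((darts A W').image (Prod.map f' f')).card ≤
          ((darts A W').image (Prod.map f f)).card := by
        apply card_image_le_of_factor
        rintro ⟨a1, a2⟩ ha ⟨b1, b2⟩ hb hab
        simp only [darts, mem_filter, mem_product] at ha hb
        simp only [Prod.map, Prod.mk.injEq] at hab ⊢
        simp only [hf']
        rw [if_neg (fun h : a1 = w => hwW' (h ▸ ha.1.1)), if_neg (fun h : a2 = w => hwW' (h ▸ ha.1.2)),
          if_neg (fun h : b1 = w => hwW' (h ▸ hb.1.1)), if_neg (fun h : b2 = w => hwW' (h ▸ hb.1.2)), hab.1, hab.2]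
        exact ⟨rfl, rfl⟩
      calc _ ≤ _ := card_le_card e1
        _ ≤ _ := card_union_le _ _
        _ ≤ ((darts A W').image (Prod.map f f)).card + (darts A W \ darts A W').card :=
          Nat.add_le_add e3 card_image_le
        _ = _ := by rw [e2]
    omega
  have h0 := key Bool c (fun u _ v _ h => h)
  have h0' := cc_card hc W'
  have hm : 2 - j ≤ m := by omega
  refine ⟨m - (2 - j), by omega, ?_⟩
  intro Z f hf
  have := key Z f hf
  omega

/-- the two classes of `W` have at most `m` elements -/
theorem class_le (hc : ∀ u v, A u v → c u ≠ c v) {W : Finset V} {m : ℕ} (hW : Hyp c A W m)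
    (b : Bool) : (W.filter fun v => c v = b).card ≤ m := by
  set B := W.filter fun v => c v = b with hB
  set f : V → Option V := fun v => if c v = b then some v else none with hf
  have h1 := hW.use f (by
    intro u _ v _ huv
    simp only [hf] at huv
    split_ifs at huv with h h'
    · rw [Option.some.inj huv]
    · cases h : c u <;> cases h' : c v <;> cases b <;> simp_all)
  have h2 : B.card ≤ (W.image f).card := by
    have : B.card = (B.image f).card := by
      rw [card_image_of_injOn]
      intro x hx y hy hxy
      simp only [hB, coe_filter, Set.mem_setOf_eq] at hx hy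
      simp only [hf, if_pos hx.2, if_pos hy.2] at hxy
      exact Option.some.inj hxy
    rw [this]
    exact card_le_card (image_subset_image (filter_subset _ _))
  have h3 : ((darts A W).image (Prod.map f f)).card ≤ 2 * B.card := by
    have e1 : (darts A W).image (Prod.map f f) ⊆
        B.image (fun v => (some v, none)) ∪ B.image (fun v => (none, some v)) := by
      intro e he
      rw [mem_image] at he
      obtain ⟨⟨u, v⟩, hd, rfl⟩ := he
      simp only [darts, mem_filter, mem_product] at hd
      have := hc _ _ hd.2
      simp only [Prod.map, hf, mem_union, mem_image, hB, mem_filter]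
      by_cases hu : c u = b
      · left
        refine ⟨u, ⟨hd.1.1, hu⟩, ?_⟩
        rw [if_pos hu, if_neg (fun h => this (hu.trans h.symm))]
      · right
        have hv : c v = b := by
          cases h : c u <;> cases h' : c v <;> cases b <;> simp_all
        refine ⟨v, ⟨hd.1.2, hv⟩, ?_⟩
        rw [if_neg hu, if_pos hv]
    refine (card_le_card e1).trans ((card_union_le _ _).trans ?_)
    have := card_image_le (s := B) (f := fun v => ((some v, none) : Option V × Option V))
    have := card_image_le (s := B) (f := fun v => ((none, some v) : Option V × Option V))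
    omega
  omega

theorem card_classes (c : V → Bool) (W : Finset V) (b : Bool) :
    W.card = (W.filter fun v => c v = b).card + (W.filter fun v => c v = !b).card := by
  rw [← Finset.card_filter_add_card_filter_not (s := W) (fun v => c v = b)]
  congr 2
  ext v
  simp only [mem_filter]
  cases c v <;> cases b <;> simp

/-- collapsing `U` -/
theorem collapse_U (hs : ∀ u v, A u v → A v u) (hc : ∀ u v, A u v → c u ≠ c v)
    {W U : Finset V} (hU : U ⊆ W) {m : ℕ} (hW : Hyp c A W m) :
    4 * (W \ U).card + (darts A U).card ≤ 2 * m + (darts A W).card := by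
  set f : V → Bool ⊕ V := fun v => if v ∈ U then Sum.inl (c v) else Sum.inr v with hf
  have h1 := hW.use f (by
    intro u _ v _ huv
    simp only [hf] at huv
    split_ifs at huv with h h'
    · exact Sum.inl.inj huv
    · rw [Sum.inr.inj huv])
  have h2 : (W \ U).card + (U.image c).card ≤ (W.image f).card := by
    have e1 : ((W \ U).image f).card = (W \ U).card := by
      rw [card_image_of_injOn]
      intro x hx y hy hxy
      simp only [coe_sdiff, Set.mem_diff, mem_coe] at hx hy
      simp only [hf, if_neg hx.2, if_neg hy.2] at hxy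
      exact Sum.inr.inj hxy
    have e2 : (U.image f).card = (U.image c).card := by
      apply le_antisymm
      · apply card_image_le_of_factor
        intro a ha b hb hab
        simp only [hf, if_pos ha, if_pos hb, hab]
      · apply card_image_le_of_factor
        intro a ha b hb hab
        simp only [hf, if_pos ha, if_pos hb] at hab
        exact Sum.inl.inj hab
    rw [← e1, ← e2, ← card_union_of_disjoint]
    · apply card_le_card
      rw [← image_union]
      exact image_subset_image (by
        intro v hv
        rcases mem_union.1 hv with h | h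
        · exact (mem_sdiff.1 h).1
        · exact hU h)
    · rw [Finset.disjoint_left]
      intro z hz hz'
      obtain ⟨x, hx, rfl⟩ := mem_image.1 hz
      obtain ⟨y, hy, hxy⟩ := mem_image.1 hz'
      simp only [hf, if_pos hy, if_neg (mem_sdiff.1 hx).2] at hxy
      cases hxy
  have h3 : ((darts A W).image (Prod.map f f)).card ≤
      (darts A W).card - (darts A U).card + 4 * (U.image c).card := by
    have e1 : (darts A W).image (Prod.map f f) ⊆
        (darts A U).image (Prod.map f f) ∪ (darts A W \ darts A U).image (Prod.map f f) := by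
      rw [← image_union]
      apply image_subset_image
      intro e he
      by_cases h : e ∈ darts A U
      · exact mem_union_left _ h
      · exact mem_union_right _ (mem_sdiff.2 ⟨he, h⟩)
    have e2 : ((darts A U).image (Prod.map f f)).card ≤
        ((darts A U).image (Prod.map c c)).card := by
      apply card_image_le_of_factor
      rintro ⟨a1, a2⟩ ha ⟨b1, b2⟩ hb hab
      simp only [darts, mem_filter, mem_product] at ha hb
      simp only [Prod.map, Prod.mk.injEq] at hab ⊢
      simp only [hf, if_pos ha.1.1, if_pos ha.1.2, if_pos hb.1.1, if_pos hb.1.2, hab]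
      exact ⟨trivial, trivial⟩
    have e3 := cc_card hc U
    have e4 : ((darts A W \ darts A U).image (Prod.map f f)).card ≤
        (darts A W).card - (darts A U).card := by
      refine card_image_le.trans ?_
      rw [card_sdiff_of_subset (darts_mono hU)]
    have := (card_le_card e1).trans (card_union_le _ _)
    omega
  have h4 := card_le_card (darts_mono (A := A) hU)
  omega

/-- the count for minimum degree at least two -/
theorem core_count {k : P → Bool} {T : P → P → Prop} {p0 : P} {Γ : Finset P} {d q : ℕ}
    (hd : 1 ≤ d) (hdq : d ^ 39 ≤ q ^ 20) (hT : Tgt k T Γ (d ^ 2) d)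
    (hs : ∀ u v, A u v → A v u) (hc : ∀ u v, A u v → c u ≠ c v)
    {W : Finset V} {m : ℕ} (hW : Hyp c A W m) (hmin : ∀ w ∈ W, 2 ≤ (nb A w W).card) :
    (NH c A k T p0 Γ W).card ≤ q ^ m := by
  set n := (NH c A k T p0 Γ W).card with hn
  set U := W.filter (fun w => 3 ≤ (nb A w W).card) with hUdef
  have hUW : U ⊆ W := filter_subset _ _
  have hWm : W.card ≤ 2 * m := by
    have h1 := class_le hc hW false
    have h2 := class_le hc hW true
    have h3 := card_classes c W false
    simp only [Bool.not_false] at h3
    omega
  -- it suffices to bound `n ^ 20` by `d ^ (39 m)`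
  have suff : n ^ 20 ≤ d ^ (39 * m) → n ≤ q ^ m := by
    intro h
    have h1 : n ^ 20 ≤ (q ^ m) ^ 20 := by
      calc n ^ 20 ≤ d ^ (39 * m) := h
        _ = (d ^ 39) ^ m := by rw [pow_mul]
        _ ≤ (q ^ 20) ^ m := Nat.pow_le_pow_left hdq m
        _ = (q ^ m) ^ 20 := by rw [← pow_mul, ← pow_mul, mul_comm]
    exact (Nat.pow_le_pow_iff_left (by norm_num)).1 h1
  apply suff
  by_cases hcase : 5 * U.card < W.card
  · have h1 := NH_add (k := k) (T := T) (p0 := p0) (Γ := Γ) hd hT hc ∅ U (by simp) (fun _ => 2)
      (fun w _ => by omega)
    rw [empty_union, sum_const, smul_eq_mul] at h1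
    have h0 := NH_empty c A k T p0 Γ
    have h1' : (NH c A k T p0 Γ U).card ≤ d ^ (2 * U.card) := by
      calc _ ≤ _ := h1
        _ ≤ d ^ (U.card * 2) * 1 := Nat.mul_le_mul_left _ h0
        _ = _ := by rw [mul_one, mul_comm]
    have h2 := NH_add2 (k := k) (T := T) (p0 := p0) (Γ := Γ) hd hT hc hs W U (W \ U)
      disjoint_sdiff (by rw [union_sdiff_of_subset hUW]) (by
        intro w hw
        rw [mem_sdiff, hUdef, mem_filter] at hw
        by_contra hcon
        exact hw.2 ⟨hw.1, by omega⟩)
    rw [union_sdiff_of_subset hUW] at h2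
    have h3 := collapse_U hs hc hUW hW
    have h4 : n ^ 2 * d ^ (darts A W).card ≤ d ^ (2 * m + 4 * U.card) * d ^ (darts A W).card := by
      calc _ ≤ _ := h2
        _ ≤ d ^ (4 * (W \ U).card) * ((d ^ (2 * U.card)) ^ 2 * d ^ (darts A U).card) :=
            Nat.mul_le_mul_left _ (Nat.mul_le_mul_right _ (Nat.pow_le_pow_left h1' 2))
        _ = d ^ (4 * (W \ U).card + (darts A U).card + 4 * U.card) := by
            rw [← pow_mul, ← pow_add, ← pow_add]; congr 1; ring
        _ ≤ d ^ (2 * m + (darts A W).card + 4 * U.card) :=
            Nat.pow_le_pow_right hd (by omega)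
        _ = _ := by rw [← pow_add]; congr 1; ring
    have h5 : n ^ 2 ≤ d ^ (2 * m + 4 * U.card) :=
      Nat.le_of_mul_le_mul_right h4 (by positivity)
    calc n ^ 20 = (n ^ 2) ^ 10 := by rw [← pow_mul]
      _ ≤ (d ^ (2 * m + 4 * U.card)) ^ 10 := Nat.pow_le_pow_left h5 10
      _ = d ^ ((2 * m + 4 * U.card) * 10) := by rw [← pow_mul]
      _ ≤ d ^ (39 * m) := Nat.pow_le_pow_right hd (by omega)
  · push Not at hcase
    -- choose the class with more vertices of large degree
    obtain ⟨b, hb⟩ : ∃ b, U.card ≤ 2 * (U.filter fun v => c v = b).card := by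
      have h3 := card_classes c U false
      simp only [Bool.not_false] at h3
      by_cases h : U.card ≤ 2 * (U.filter fun v => c v = false).card
      · exact ⟨false, h⟩
      · exact ⟨true, by omega⟩
    set Y := W.filter (fun v => c v = b) with hY
    set X := W.filter (fun v => c v = !b) with hX
    have hsz : W.card = Y.card + X.card := card_classes c W b
    have hXY : X ∪ Y = W := by
      ext v
      simp only [hX, hY, mem_union, mem_filter]
      constructor
      · rintro (h | h)
        · exact h.1
        · exact h.1
      · intro h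
        cases h' : c v <;> cases b <;> simp_all
    have hnb : ∀ w ∈ Y, nb A w W ⊆ X := by
      intro w hw u hu
      simp only [hY, hX, nb, mem_filter] at hw hu ⊢
      refine ⟨hu.1, ?_⟩
      have := hc _ _ hu.2
      cases h' : c w <;> cases h'' : c u <;> cases b <;> simp_all
    obtain ⟨t, htX, ht⟩ := exists_avg X Y (fun w => nb A w W) hnb
      (fun w hw => hmin w (mem_filter.1 hw).1) (U.filter fun v => c v = b)
      (by
        intro v hv
        rw [mem_filter] at hv
        exact mem_filter.2 ⟨hUW hv.1, hv.2⟩)
      (by
        intro v hv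
        rw [mem_filter, hUdef, mem_filter] at hv
        exact hv.1.2)
    -- order: t, Y, X \ t
    have h0 := NH_empty c A k T p0 Γ
    have h1 := NH_add (k := k) (T := T) (p0 := p0) (Γ := Γ) hd hT hc ∅ t (by simp) (fun _ => 2)
      (fun w _ => by omega)
    rw [empty_union, sum_const, smul_eq_mul] at h1
    have hYX : Disjoint X Y := by
      rw [Finset.disjoint_left]
      intro v hv hv'
      simp only [hX, hY, mem_filter] at hv hv'
      rw [hv.2] at hv'
      cases b <;> simp at hv'
    have htY : Disjoint t Y := hYX.mono_left htX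
    have h2 := NH_add (k := k) (T := T) (p0 := p0) (Γ := Γ) hd hT hc t Y htY
      (fun w => 2 - (nb A w W ∩ t).card) (by
        intro w hw
        have : nb A w W ∩ t = nb A w t := by
          ext u
          simp only [nb, mem_inter, mem_filter]
          constructor
          · rintro ⟨⟨_, h⟩, h'⟩; exact ⟨h', h⟩
          · rintro ⟨h, h'⟩; exact ⟨⟨(mem_filter.1 (htX h)).1, h'⟩, h⟩
        rw [this]
        omega)
    have htYW : t ∪ Y ∪ (X \ t) = W := by
      rw [← hXY]
      ext v
      simp only [mem_union, mem_sdiff]
      constructor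
      · rintro ((h | h) | h)
        · exact Or.inl (htX h)
        · exact Or.inr h
        · exact Or.inl h.1
      · rintro (h | h)
        · by_cases h' : v ∈ t
          · exact Or.inl (Or.inl h')
          · exact Or.inr ⟨h, h'⟩
        · exact Or.inl (Or.inr h)
    have h3 := NH_add (k := k) (T := T) (p0 := p0) (Γ := Γ) hd hT hc (t ∪ Y) (X \ t) (by
        rw [Finset.disjoint_left]
        intro v hv hv'
        rcases mem_union.1 hv with h | h
        · exact (mem_sdiff.1 hv').2 h
        · exact Finset.disjoint_left.1 hYX (mem_sdiff.1 hv').1 h)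
      (fun _ => 0) (by
        intro w hw
        rw [zero_add]
        have hwX := (mem_sdiff.1 hw).1
        refine (hmin w (mem_filter.1 hwX).1).trans (card_le_card ?_)
        intro u hu
        simp only [nb, mem_filter] at hu ⊢
        refine ⟨mem_union_right _ (mem_filter.2 ⟨hu.1, ?_⟩), hu.2⟩
        have := hc _ _ hu.2
        have h' := (mem_filter.1 hwX).2
        cases h1 : c w <;> cases h2 : c u <;> cases b <;> simp_all)
    rw [htYW, sum_const_zero, pow_zero, one_mul] at h3
    set κ := ∑ w ∈ Y, (2 - (nb A w W ∩ t).card) with hκ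
    have h4 : n ≤ d ^ (2 * t.card + κ) := by
      calc n ≤ _ := h3
        _ ≤ _ := h2
        _ ≤ d ^ κ * (d ^ (t.card * 2) * 1) :=
            Nat.mul_le_mul_left _ (h1.trans (Nat.mul_le_mul_left _ h0))
        _ = _ := by rw [mul_one, ← pow_add]; congr 1; ring
    calc n ^ 20 ≤ (d ^ (2 * t.card + κ)) ^ 20 := Nat.pow_le_pow_left h4 20
      _ = d ^ ((2 * t.card + κ) * 20) := by rw [← pow_mul]
      _ ≤ d ^ (39 * m) := Nat.pow_le_pow_right hd (by omega)

/-- the main count of injective homomorphisms -/
theorem inj_count {k : P → Bool} {T : P → P → Prop} {p0 : P} {Γ : Finset P} {d q : ℕ}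
    (hd : 1 ≤ d) (hq : d ≤ q) (hdq : d ^ 39 ≤ q ^ 20) (hT : Tgt k T Γ (d ^ 2) d)
    (hT' : Tgt k T univ (q ^ 2) d) (hΓ : ∀ p p', T p p' → p ∈ Γ)
    (hs : ∀ u v, A u v → A v u) (hc : ∀ u v, A u v → c u ≠ c v)
    (n : ℕ) : ∀ (W : Finset V), W.card = n → ∀ (m : ℕ), Hyp c A W m →
    (NH c A k T p0 univ W).card ≤ q ^ m := by
  have hq1 : 1 ≤ q := hd.trans hq
  induction n with
  | zero =>
    intro W hW m _
    rw [Finset.card_eq_zero] at hW
    subst hW
    exact (NH_empty c A k T p0 univ).trans (Nat.one_le_pow _ _ hq1)
  | succ n ih =>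
    intro W hWn m hW
    by_cases hlow : ∃ w ∈ W, (nb A w (W.erase w)).card ≤ 1
    · obtain ⟨w, hw, hj⟩ := hlow
      obtain ⟨m', hm, hW'⟩ := Hyp_erase hs hc hw hW hj
      have h1 := ih (W.erase w) (by rw [card_erase_of_mem hw, hWn]; rfl) m' hW'
      have h2 := NH_insert (p0 := p0) hT' hc (notMem_erase w W)
      rw [insert_erase hw] at h2
      refine h2.trans ?_
      have h3 : tau (q ^ 2) d (nb A w (W.erase w)).card ≤ q ^ (2 - (nb A w (W.erase w)).card) := by
        unfold tau
        split_ifs with h0 h1
        · rw [h0]
        · rw [h1]; simpa using hq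
        · exact Nat.one_le_pow _ _ hq1
      calc _ ≤ q ^ (2 - (nb A w (W.erase w)).card) * q ^ m' := Nat.mul_le_mul h3 h1
        _ = q ^ m := by rw [← pow_add, hm]; congr 1; ring
    · push Not at hlow
      have hirr : ∀ u, ¬ A u u := fun u h => hc u u h rfl
      have hmin : ∀ w ∈ W, 2 ≤ (nb A w W).card := fun w hw =>
        (Nat.succ_le_of_lt (hlow w hw)).trans (card_le_card (nb_mono (erase_subset _ _)))
      refine le_trans (card_le_card ?_) (core_count hd hdq hT hs hc hW hmin (p0 := p0) (k := k)
        (T := T) (Γ := Γ))
      intro φ hφ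
      simp only [NH, mem_filter, mem_univ, true_and] at hφ ⊢
      obtain ⟨g1, g2, g3, g4⟩ := hφ
      refine ⟨g1, fun v hv => ⟨?_, g2 v hv⟩, g3, g4⟩
      have h1 : 0 < (nb A v W).card := by have := hmin v hv; omega
      obtain ⟨u, hu⟩ := Finset.card_pos.1 h1
      simp only [nb, mem_filter] at hu
      exact hΓ _ _ (g4 v hv u hu.1 hu.2)

end

end Pool.Agent.R97.QL
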