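import Pool.Agent.R97.QL.Stm

/-! MP_8fd344_co, part P3: the second moment lemma (by helper706, after helper86). -/

open Finset
open scoped Classical

namespace Pool.Agent.R97.QL

theorem card_vanish {ι : Type} [Fintype ι] [DecidableEq ι] (q : ℕ) (hq : 0 < q) (T : Finset ι) :
    ((univ.filter fun c : ι → Fin q => ∀ e ∈ T, (c e).val = 0).card) * q ^ T.card
      = q ^ Fintype.card ι := by
  have h : (univ.filter fun c : ι → Fin q => ∀ e ∈ T, (c e).val = 0)
      = Fintype.piFinset (fun e => if e ∈ T then ({⟨0, hq⟩} : Finset (Fin q)) else univ) := by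
    ext c
    simp only [mem_filter, mem_univ, true_and, Fintype.mem_piFinset]
    constructor
    · intro h e
      by_cases he : e ∈ T
      · simp only [he, if_true, mem_singleton]
        exact Fin.ext (h e he)
      · simp [he]
    · intro h e he
      have := h e
      simp only [he, if_true, mem_singleton] at this
      rw [this]
  rw [h, Fintype.card_piFinset]
  have h2 : ∀ e, (if e ∈ T then ({⟨0, hq⟩} : Finset (Fin q)) else univ).card
      = if e ∈ T then 1 else q := by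
    intro e; split_ifs <;> simp
  rw [Finset.prod_congr rfl (fun e _ => h2 e), Finset.prod_ite]
  simp only [prod_const_one, one_mul, prod_const]
  rw [← pow_add]
  congr 1
  have h3 := Finset.card_filter_add_card_filter_not (s := (univ : Finset ι)) (fun e => e ∈ T)
  have h4 : (univ.filter fun e => e ∈ T) = T := by ext e; simp
  rw [h4] at h3
  rw [Finset.card_univ] at h3
  omega

/-- indicator of the event that all of `T` is present -/
noncomputable def ind {ι : Type} {q : ℕ} (T : Finset ι) (c : ι → Fin q) : ℝ :=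
  if ∀ e ∈ T, (c e).val = 0 then 1 else 0

theorem sum_ind {ι : Type} [Fintype ι] [DecidableEq ι] (q : ℕ) (hq : 0 < q) (T : Finset ι) :
    ∑ c : ι → Fin q, ind T c = (q : ℝ) ^ (Fintype.card ι) * ((q : ℝ)⁻¹) ^ T.card := by
  have h := card_vanish q hq T
  have hq' : (q : ℝ) ≠ 0 := by positivity
  have h0 : ∑ c : ι → Fin q, ind T c
      = (((univ.filter fun c : ι → Fin q => ∀ e ∈ T, (c e).val = 0).card : ℕ) : ℝ) := by
    rw [Finset.card_filter]
    push_cast
    exact Finset.sum_congr rfl fun c _ => by unfold ind; congr 1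
  rw [h0]
  have h2 : (((univ.filter fun c : ι → Fin q => ∀ e ∈ T, (c e).val = 0).card : ℕ) : ℝ)
      * (q : ℝ) ^ T.card = (q : ℝ) ^ Fintype.card ι := by
    exact_mod_cast h
  rw [← h2, inv_pow, mul_assoc, mul_inv_cancel₀ (pow_ne_zero _ hq'), mul_one]

theorem ind_mul {ι : Type} [DecidableEq ι] {q : ℕ} (T T' : Finset ι) (c : ι → Fin q) :
    ind T c * ind T' c = ind (T ∪ T') c := by
  unfold ind
  by_cases h : ∀ e ∈ T, (c e).val = 0
  · by_cases h' : ∀ e ∈ T', (c e).val = 0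
    · rw [if_pos h, if_pos h', if_pos, mul_one]
      intro e he
      rcases mem_union.1 he with h1 | h1
      exacts [h e h1, h' e h1]
    · have h3 : ¬ ∀ e ∈ T ∪ T', (c e).val = 0 :=
        fun h2 => h' fun e he => h2 e (mem_union_right _ he)
      rw [if_neg h', if_neg h3, mul_zero]
  · have h3 : ¬ ∀ e ∈ T ∪ T', (c e).val = 0 :=
      fun h2 => h fun e he => h2 e (mem_union_left _ he)
    rw [if_neg h, if_neg h3, zero_mul]

theorem first_moment {ι P : Type} [Fintype ι] [DecidableEq ι] [Fintype P] (q : ℕ) (hq : 0 < q)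
    (T : P → Finset ι) :
    ∑ c : ι → Fin q, ∑ p, ind (T p) c
      = (q : ℝ) ^ (Fintype.card ι) * ∑ p, ((q : ℝ)⁻¹) ^ (T p).card := by
  rw [Finset.sum_comm, Finset.mul_sum]
  exact Finset.sum_congr rfl fun p _ => sum_ind q hq (T p)

theorem second_moment {ι P : Type} [Fintype ι] [DecidableEq ι] [Fintype P] (q : ℕ) (hq : 0 < q)
    (T : P → Finset ι) :
    ∑ c : ι → Fin q, (∑ p, ind (T p) c) ^ 2
      = (q : ℝ) ^ (Fintype.card ι) * ∑ p, ∑ p', ((q : ℝ)⁻¹) ^ (T p ∪ T p').card := by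
  have h : ∀ c : ι → Fin q, (∑ p, ind (T p) c) ^ 2 = ∑ p, ∑ p', ind (T p ∪ T p') c := by
    intro c
    rw [sq, Finset.sum_mul_sum]
    exact Finset.sum_congr rfl fun p _ => Finset.sum_congr rfl fun p' _ => ind_mul _ _ _
  rw [Finset.sum_congr rfl fun c _ => h c, Finset.sum_comm, Finset.mul_sum]
  refine Finset.sum_congr rfl fun p _ => ?_
  rw [Finset.sum_comm, Finset.mul_sum]
  exact Finset.sum_congr rfl fun p' _ => sum_ind q hq _

theorem cheb {Ω : Type} [Fintype Ω] (X : Ω → ℝ) (W μ D : ℝ) (hμ : 0 ≤ μ)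
    (hW : (Fintype.card Ω : ℝ) = W)
    (h1 : ∑ c, X c = W * μ) (h2 : ∑ c, X c ^ 2 ≤ W * (μ ^ 2 + D)) :
    ((univ.filter fun c => X c < μ / 2).card : ℝ) * (μ / 2) ^ 2 ≤ W * D := by
  have e1 : ((univ.filter fun c => X c < μ / 2).card : ℝ) * (μ / 2) ^ 2
      ≤ ∑ c ∈ univ.filter (fun c => X c < μ / 2), (X c - μ) ^ 2 := by
    rw [← nsmul_eq_mul]
    refine Finset.card_nsmul_le_sum _ _ _ ?_
    intro c hc
    have := (mem_filter.1 hc).2
    nlinarith
  have e2 : ∑ c ∈ univ.filter (fun c => X c < μ / 2), (X c - μ) ^ 2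
      ≤ ∑ c, (X c - μ) ^ 2 :=
    Finset.sum_le_sum_of_subset_of_nonneg (filter_subset _ _) fun _ _ _ => sq_nonneg _
  have e3 : ∑ c, (X c - μ) ^ 2 = ∑ c, X c ^ 2 - 2 * μ * ∑ c, X c + W * μ ^ 2 := by
    have : ∀ c, (X c - μ) ^ 2 = X c ^ 2 - 2 * μ * X c + μ ^ 2 := fun c => by ring
    rw [Finset.sum_congr rfl fun c _ => this c, Finset.sum_add_distrib, Finset.sum_sub_distrib,
      ← Finset.mul_sum, Finset.sum_const, Finset.card_univ, nsmul_eq_mul, hW]
  rw [h1] at e3
  nlinarith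

theorem markov {Ω : Type} [Fintype Ω] (X : Ω → ℝ) (t : ℝ) (hX : ∀ c, 0 ≤ X c) :
    ((univ.filter fun c => t < X c).card : ℝ) * t ≤ ∑ c, X c := by
  have e1 : ((univ.filter fun c => t < X c).card : ℝ) * t
      ≤ ∑ c ∈ univ.filter (fun c => t < X c), X c := by
    rw [← nsmul_eq_mul]
    refine Finset.card_nsmul_le_sum _ _ _ ?_
    intro c hc
    exact (mem_filter.1 hc).2.le
  exact e1.trans (Finset.sum_le_sum_of_subset_of_nonneg (filter_subset _ _) fun c _ _ => hX c)

/-- few maps have a small image -/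
theorem sum_inv_pow {α V : Type} [Fintype α] [Fintype V] (q : ℕ) (hq : 0 < q)
    (hV : Fintype.card V = q ^ 2) :
    ∑ f : α → V, ((q : ℝ)⁻¹) ^ (2 * (univ.image f).card) ≤ (Fintype.card (α → α) : ℝ) := by
  have hq' : (q : ℝ) ≠ 0 := by positivity
  rw [← Finset.sum_fiberwise (s := (univ : Finset (α → V))) (g := fun f => rep f)]
  have key : ∀ ρ : α → α, ∑ f ∈ univ.filter (fun f : α → V => rep f = ρ),
      ((q : ℝ)⁻¹) ^ (2 * (univ.image f).card) ≤ 1 := by
    intro ρ
    have h1 : ∀ f ∈ univ.filter (fun f : α → V => rep f = ρ),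
        ((q : ℝ)⁻¹) ^ (2 * (univ.image f).card)
          = ((q : ℝ)⁻¹) ^ (2 * (univ.image ρ).card) := by
      intro f hf
      have h2 := (mem_filter.1 hf).2
      rw [← h2, card_image_eq_of_ker univ f (rep f) (rep_ker f)]
    rw [Finset.sum_congr rfl h1, Finset.sum_const, nsmul_eq_mul]
    have h3 : (univ.filter (fun f : α → V => rep f = ρ)).card
        ≤ (q ^ 2) ^ (univ.image ρ).card := by
      have h4 : (univ.filter (fun f : α → V => rep f = ρ)).card
          ≤ (univ : Finset ({x // x ∈ univ.image ρ} → V)).card := by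
        refine Finset.card_le_card_of_injOn (fun f x => f x.1) (fun _ _ => mem_coe.2 (mem_univ _)) ?_
        intro f hf f' hf' hff
        have hf := (mem_filter.1 (mem_coe.1 hf)).2
        have hf' := (mem_filter.1 (mem_coe.1 hf')).2
        funext a
        rw [← f_rep f a, ← f_rep f' a, hf, hf']
        have := congrFun hff ⟨ρ a, mem_image_of_mem _ (mem_univ _)⟩
        exact this
      refine h4.trans_eq ?_
      rw [Finset.card_univ, Fintype.card_fun, hV, Fintype.card_coe]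
    calc ((univ.filter (fun f : α → V => rep f = ρ)).card : ℝ)
          * ((q : ℝ)⁻¹) ^ (2 * (univ.image ρ).card)
        ≤ (((q ^ 2) ^ (univ.image ρ).card : ℕ) : ℝ) * ((q : ℝ)⁻¹) ^ (2 * (univ.image ρ).card) := by
          gcongr
      _ = 1 := by
          push_cast
          rw [← pow_mul, inv_pow, mul_inv_cancel₀ (pow_ne_zero _ hq')]
  refine (Finset.sum_le_sum fun ρ _ => key ρ).trans_eq ?_
  simp

/-- the random bipartite graph of a colouring -/
noncomputable def RG {V W : Type} [Fintype V] [Fintype W] {q : ℕ} (c : V × W → Fin q) :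
    Finset (V × W) := univ.filter fun e => (c e).val = 0

theorem hom_eq_sum {α β V W : Type} [Fintype α] [Fintype β] [Fintype V] [Fintype W] {q : ℕ}
    (E : Finset (α × β)) (c : V × W → Fin q) :
    (hom E (RG c) : ℝ)
      = ∑ p : (α → V) × (β → W), ind (E.image (Prod.map p.1 p.2)) c := by
  unfold hom
  rw [Nat.card_eq_fintype_card, Fintype.card_subtype, Finset.card_filter]
  push_cast
  refine Finset.sum_congr rfl fun p _ => ?_
  unfold ind
  have hiff : (∀ e ∈ E, (p.1 e.1, p.2 e.2) ∈ RG c)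
      ↔ ∀ e ∈ E.image (Prod.map p.1 p.2), (c e).val = 0 := by
    simp only [RG, mem_filter, mem_univ, true_and, mem_image, forall_exists_index, and_imp]
    constructor
    · rintro h _ e he rfl
      exact h e he
    · intro h e he
      exact h _ e he rfl
  by_cases h : ∀ e ∈ E, (p.1 e.1, p.2 e.2) ∈ RG c
  · rw [if_pos h, if_pos (hiff.1 h)]
  · rw [if_neg h, if_neg (fun h' => h (hiff.2 h'))]

theorem upper_bound {α β V W : Type} [Fintype α] [Fintype β] [Fintype V] [Fintype W] (q : ℕ)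
    (hq : 0 < q) (hV : Fintype.card V = q ^ 2) (hW : Fintype.card W = q ^ 2)
    (E : Finset (α × β)) :
    ∑ c : V × W → Fin q, (hom E (RG c) : ℝ)
      ≤ (q : ℝ) ^ (Fintype.card (V × W)) * ((q : ℝ) ^ (M E).toNat
        * ((Fintype.card (α → α) : ℝ) * (Fintype.card (β → β) : ℝ))) := by
  have hq1 : (1 : ℝ) ≤ q := by exact_mod_cast hq
  have hq' : (q : ℝ) ≠ 0 := by positivity
  rw [Finset.sum_congr rfl fun c _ => hom_eq_sum E c]
  rw [first_moment q hq (fun p : (α → V) × (β → W) => E.image (Prod.map p.1 p.2))]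
  refine mul_le_mul_of_nonneg_left ?_ (by positivity)
  have h1 : ∀ p : (α → V) × (β → W), ((q : ℝ)⁻¹) ^ (E.image (Prod.map p.1 p.2)).card
      ≤ (q : ℝ) ^ (M E).toNat * (((q : ℝ)⁻¹) ^ (2 * (univ.image p.1).card)
        * ((q : ℝ)⁻¹) ^ (2 * (univ.image p.2).card)) := by
    intro p
    have h2 := val_le_M E p.1 p.2
    unfold val at h2
    have h3 : 2 * (univ.image p.1).card + 2 * (univ.image p.2).card
        ≤ (E.image (Prod.map p.1 p.2)).card + (M E).toNat := by
      have h4 := M_nonneg E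
      omega
    rw [← pow_add]
    calc ((q : ℝ)⁻¹) ^ (E.image (Prod.map p.1 p.2)).card
        = (q : ℝ) ^ (M E).toNat
          * ((q : ℝ)⁻¹) ^ ((E.image (Prod.map p.1 p.2)).card + (M E).toNat) := by
          rw [pow_add, inv_pow, inv_pow]; field_simp
      _ ≤ _ := by
          refine mul_le_mul_of_nonneg_left ?_ (by positivity)
          exact pow_le_pow_of_le_one (by positivity) (inv_le_one_of_one_le₀ hq1) h3
  refine (Finset.sum_le_sum fun p _ => h1 p).trans ?_
  rw [← Finset.mul_sum]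
  refine mul_le_mul_of_nonneg_left ?_ (by positivity)
  rw [Fintype.sum_prod_type]
  simp only []
  rw [← Finset.sum_mul_sum]
  exact mul_le_mul (sum_inv_pow q hq hV) (sum_inv_pow q hq hW)
    (Finset.sum_nonneg fun _ _ => by positivity) (by positivity)

theorem reduce_aux {α β A B : Type} [Fintype α] [Fintype β] [Fintype A] [Fintype B]
    (E : Finset (α × β)) (p : α → A) (r : β → B) (hp : Function.Surjective p)
    (hr : Function.Surjective r) (hval : val E p r = M E) :
    ∃ K : Finset (A × B), (∀ (f : A → A) (g : B → B), val K f g ≤ M E) ∧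
      (2 * ((Fintype.card A : ℤ) + Fintype.card B) - K.card = M E) ∧
      ∀ (V W : Type) [Fintype V] [Fintype W] (R : Finset (V × W)),
        hom K R ≤ hom E R := by
  refine ⟨E.image (Prod.map p r), ?_, ?_, ?_⟩
  · intro f g
    refine le_trans (le_of_eq ?_) (val_le_M E (f ∘ p) (g ∘ r))
    unfold val
    have e1 : univ.image (f ∘ p) = univ.image f := by
      rw [← Finset.image_image, Finset.image_univ_of_surjective hp]
    have e2 : univ.image (g ∘ r) = univ.image g := by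
      rw [← Finset.image_image, Finset.image_univ_of_surjective hr]
    rw [e1, e2, Finset.image_image]
    rfl
  · rw [← hval]
    unfold val
    rw [Finset.image_univ_of_surjective hp, Finset.image_univ_of_surjective hr,
      Finset.card_univ, Finset.card_univ]
  · intro V W _ _ R
    unfold hom
    refine Nat.card_le_card_of_injective (fun s => ⟨(s.1.1 ∘ p, s.1.2 ∘ r), ?_⟩) ?_
    · intro e he
      exact s.2 (p e.1, r e.2) (mem_image_of_mem (Prod.map p r) he)
    · intro s t hst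
      have h1 := congrArg Subtype.val hst
      simp only [Prod.mk.injEq] at h1
      apply Subtype.ext
      apply Prod.ext
      · exact hp.injective_comp_right h1.1
      · exact hr.injective_comp_right h1.2

/-- an optimal collapse -/
theorem reduce {α β : Type} [Fintype α] [Fintype β] (E : Finset (α × β)) :
    ∃ (A B : Type) (_ : Fintype A) (_ : Fintype B) (K : Finset (A × B)),
      (∀ (f : A → A) (g : B → B), val K f g ≤ M E) ∧
      (2 * ((Fintype.card A : ℤ) + Fintype.card B) - K.card = M E) ∧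
      ∀ (V W : Type) [Fintype V] [Fintype W] (R : Finset (V × W)), hom K R ≤ hom E R := by
  obtain ⟨f0, g0, h0⟩ := exists_M E
  let p : α → {x // x ∈ univ.image f0} := fun a => ⟨f0 a, mem_image_of_mem _ (mem_univ _)⟩
  let r : β → {x // x ∈ univ.image g0} := fun a => ⟨g0 a, mem_image_of_mem _ (mem_univ _)⟩
  have hp : Function.Surjective p := by
    rintro ⟨x, hx⟩
    obtain ⟨a, _, rfl⟩ := mem_image.1 hx
    exact ⟨a, rfl⟩
  have hr : Function.Surjective r := by
    rintro ⟨x, hx⟩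
    obtain ⟨a, _, rfl⟩ := mem_image.1 hx
    exact ⟨a, rfl⟩
  have hval : val E p r = val E f0 g0 := by
    refine val_eq_of_ker E f0 g0 p r ?_ ?_
    · intro a b; simp [p]
    · intro a b; simp [r]
  exact ⟨{x // x ∈ univ.image f0}, {x // x ∈ univ.image g0}, _, _,
    reduce_aux E p r hp hr (hval.trans h0)⟩

theorem opt3 {A B : Type} [Fintype A] [Fintype B] (K : Finset (A × B)) (m : ℤ)
    (hopt : ∀ (f : A → A) (g : B → B), val K f g ≤ m)
    (hm : 2 * ((Fintype.card A : ℤ) + Fintype.card B) - K.card = m)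
    (A1 : Finset A) (B1 : Finset B)
    (hne : (K.filter fun e => e.1 ∈ A1 ∧ e.2 ∈ B1).Nonempty) :
    (K.filter fun e => e.1 ∈ A1 ∧ e.2 ∈ B1).card + 3 ≤ 2 * (A1.card + B1.card) := by
  obtain ⟨⟨a0, b0⟩, he0⟩ := hne
  have hK0 := (mem_filter.1 he0).1
  have ha0 : a0 ∈ A1 := (mem_filter.1 he0).2.1
  have hb0 : b0 ∈ B1 := (mem_filter.1 he0).2.2
  set f : A → A := fun a => if a ∈ A1 then a0 else a with hf
  set g : B → B := fun b => if b ∈ B1 then b0 else b with hg
  have h1 : (A1ᶜ).card + 1 ≤ (univ.image f).card := by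
    have : insert a0 A1ᶜ ⊆ univ.image f := by
      intro x hx
      rcases mem_insert.1 hx with rfl | hx
      · exact mem_image.2 ⟨x, mem_univ _, by simp [hf]⟩
      · exact mem_image.2 ⟨x, mem_univ _, by simp [hf, mem_compl.1 hx]⟩
    have h2 := Finset.card_le_card this
    rwa [Finset.card_insert_of_notMem (by simpa using ha0)] at h2
  have h2 : (B1ᶜ).card + 1 ≤ (univ.image g).card := by
    have : insert b0 B1ᶜ ⊆ univ.image g := by
      intro x hx
      rcases mem_insert.1 hx with rfl | hx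
      · exact mem_image.2 ⟨x, mem_univ _, by simp [hg]⟩
      · exact mem_image.2 ⟨x, mem_univ _, by simp [hg, mem_compl.1 hx]⟩
    have h2 := Finset.card_le_card this
    rwa [Finset.card_insert_of_notMem (by simpa using hb0)] at h2
  have h3 : (K.image (Prod.map f g)).card
      ≤ (K.filter fun e => ¬ (e.1 ∈ A1 ∧ e.2 ∈ B1)).card + 1 := by
    have : K.image (Prod.map f g)
        ⊆ insert (a0, b0) ((K.filter fun e => ¬ (e.1 ∈ A1 ∧ e.2 ∈ B1)).image (Prod.map f g)) := by
      intro x hx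
      obtain ⟨e, he, rfl⟩ := mem_image.1 hx
      by_cases h : e.1 ∈ A1 ∧ e.2 ∈ B1
      · refine mem_insert.2 (Or.inl ?_)
        simp [Prod.map, hf, hg, h.1, h.2]
      · exact mem_insert_of_mem (mem_image_of_mem _ (mem_filter.2 ⟨he, h⟩))
    refine (Finset.card_le_card this).trans ((Finset.card_insert_le _ _).trans ?_)
    exact Nat.add_le_add_right Finset.card_image_le 1
  have h4 := Finset.card_filter_add_card_filter_not (s := K) (fun e => e.1 ∈ A1 ∧ e.2 ∈ B1)
  have h5 := Finset.card_compl_add_card A1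
  have h6 := Finset.card_compl_add_card B1
  have h7 := hopt f g
  unfold val at h7
  omega

theorem emb_le {A V : Type} [Fintype A] [Fintype V] (F : (A → V) → ℝ) (hF : ∀ f, 0 ≤ F f) :
    ∑ φ : A ↪ V, F φ ≤ ∑ f : A → V, F f := by
  have h : ∑ φ : A ↪ V, F φ = ∑ f ∈ univ.image (fun φ : A ↪ V => (φ : A → V)), F f := by
    rw [Finset.sum_image]
    intro a _ b _ hab
    exact DFunLike.coe_injective hab
  rw [h]
  exact Finset.sum_le_sum_of_subset_of_nonneg (subset_univ _) fun f _ _ => hF f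

/-- the sum over embeddings is at most the product -/
theorem sum_emb {A V : Type} [Fintype A] [Fintype V] (q : ℕ)
    (hV : Fintype.card V = q ^ 2) (S : Finset V) (hS : S.card ≤ Fintype.card A) :
    ∑ φ : A ↪ V, (q : ℝ) ^ (2 * (univ.filter fun a => φ a ∈ S).card)
      ≤ (((Fintype.card A : ℝ) + 1) * (q : ℝ) ^ 2) ^ Fintype.card A := by
  refine (emb_le (fun f : A → V => (q : ℝ) ^ (2 * (univ.filter fun a => f a ∈ S).card))
    (fun f => by positivity)).trans ?_
  have h1 : ∀ φ : A → V, (q : ℝ) ^ (2 * (univ.filter fun a => φ a ∈ S).card)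
      = ∏ a, (if φ a ∈ S then (q : ℝ) ^ 2 else 1) := by
    intro φ
    rw [Finset.prod_ite, Finset.prod_const, Finset.prod_const_one, mul_one, ← pow_mul]
  have h2 : ∑ φ : A → V, ∏ a, (if φ a ∈ S then (q : ℝ) ^ 2 else 1)
      = ∏ _a : A, ∑ v : V, (if v ∈ S then (q : ℝ) ^ 2 else 1) := by
    rw [Finset.prod_univ_sum, Fintype.piFinset_univ]
  have h3 : ∑ v : V, (if v ∈ S then (q : ℝ) ^ 2 else 1) ≤ ((Fintype.card A : ℝ) + 1) * (q : ℝ) ^ 2 := by
    rw [Finset.sum_ite, Finset.sum_const, Finset.sum_const, nsmul_eq_mul, nsmul_eq_mul, mul_one]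
    have h4 : (univ.filter fun v => v ∈ S) = S := by ext; simp
    have h5 : ((univ.filter fun v => v ∉ S).card : ℝ) ≤ (q : ℝ) ^ 2 := by
      have h6 := Finset.card_filter_le (univ : Finset V) (fun v => v ∉ S)
      rw [Finset.card_univ, hV] at h6
      exact_mod_cast h6
    rw [h4]
    have h7 : (S.card : ℝ) ≤ Fintype.card A := by exact_mod_cast hS
    nlinarith [mul_le_mul_of_nonneg_right h7 (sq_nonneg (q : ℝ))]
  rw [Finset.sum_congr rfl fun φ _ => h1 φ, h2, Finset.prod_const, Finset.card_univ]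
  exact pow_le_pow_left₀ (Finset.sum_nonneg fun v _ => by split_ifs <;> positivity) h3 _

theorem card_image_emb {A B V W : Type} (K : Finset (A × B)) (φ : A ↪ V) (ψ : B ↪ W) :
    (K.image (Prod.map φ ψ)).card = K.card :=
  Finset.card_image_of_injective _ (φ.injective.prodMap ψ.injective)

theorem pair_bound {A B V W : Type} [Fintype A] [Fintype B] (q : ℕ) (hq : 0 < q)
    (K : Finset (A × B)) (m : ℤ)
    (hopt : ∀ (f : A → A) (g : B → B), val K f g ≤ m)
    (hm : 2 * ((Fintype.card A : ℤ) + Fintype.card B) - K.card = m)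
    (φ φ' : A ↪ V) (ψ ψ' : B ↪ W) :
    ((q : ℝ)⁻¹) ^ ((K.image (Prod.map φ ψ)) ∪ (K.image (Prod.map φ' ψ'))).card
      ≤ ((q : ℝ)⁻¹) ^ (2 * K.card) + ((q : ℝ)⁻¹) ^ (2 * K.card + 3)
        * ((q : ℝ) ^ (2 * (univ.filter fun a => φ' a ∈ univ.image φ).card)
          * (q : ℝ) ^ (2 * (univ.filter fun b => ψ' b ∈ univ.image ψ).card)) := by
  have hq1 : (1 : ℝ) ≤ q := by exact_mod_cast hq
  have hq' : (q : ℝ) ≠ 0 := by positivity
  set T := K.image (Prod.map φ ψ) with hT
  set T' := K.image (Prod.map φ' ψ') with hT'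
  set A1 := univ.filter fun a => φ' a ∈ univ.image φ with hA1
  set B1 := univ.filter fun b => ψ' b ∈ univ.image ψ with hB1
  have h1 := Finset.card_union_add_card_inter T T'
  rw [hT, hT', card_image_emb, card_image_emb, ← hT, ← hT'] at h1
  rcases (T ∩ T').eq_empty_or_nonempty with hS | hS
  · rw [hS, Finset.card_empty] at h1
    have h2 : (T ∪ T').card = 2 * K.card := by omega
    rw [h2]
    exact le_add_of_nonneg_right (by positivity)
  · have hsub : T ∩ T' ⊆ (K.filter fun e => e.1 ∈ A1 ∧ e.2 ∈ B1).image (Prod.map φ' ψ') := by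
      intro x hx
      obtain ⟨e, he, rfl⟩ := mem_image.1 (mem_inter.1 hx).2
      obtain ⟨e', he', hee⟩ := mem_image.1 (mem_inter.1 hx).1
      simp only [Prod.map, Prod.mk.injEq] at hee
      refine mem_image_of_mem _ (mem_filter.2 ⟨he, ?_, ?_⟩)
      · exact mem_filter.2 ⟨mem_univ _, mem_image.2 ⟨e'.1, mem_univ _, hee.1⟩⟩
      · exact mem_filter.2 ⟨mem_univ _, mem_image.2 ⟨e'.2, mem_univ _, hee.2⟩⟩
    have hne : (K.filter fun e => e.1 ∈ A1 ∧ e.2 ∈ B1).Nonempty := by
      obtain ⟨x, hx⟩ := hS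
      obtain ⟨e, he, _⟩ := mem_image.1 (hsub hx)
      exact ⟨e, he⟩
    have h3 := opt3 K m hopt hm A1 B1 hne
    have h4 := (Finset.card_le_card hsub).trans Finset.card_image_le
    have h5 : 2 * K.card + 3 ≤ (T ∪ T').card + (2 * A1.card + 2 * B1.card) := by omega
    refine le_add_of_nonneg_of_le (by positivity) ?_
    rw [← pow_add]
    calc ((q : ℝ)⁻¹) ^ (T ∪ T').card
        = ((q : ℝ)⁻¹) ^ ((T ∪ T').card + (2 * A1.card + 2 * B1.card))
          * (q : ℝ) ^ (2 * A1.card + 2 * B1.card) := by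
          rw [pow_add, inv_pow, inv_pow]; field_simp
      _ ≤ _ := by
          refine mul_le_mul_of_nonneg_right ?_ (by positivity)
          exact pow_le_pow_of_le_one (by positivity) (inv_le_one_of_one_le₀ hq1) h5

theorem card_emb_ge {A V : Type} [Fintype A] [Fintype V] (q : ℕ)
    (hV : Fintype.card V = q ^ 2) (hA : 2 * Fintype.card A ≤ q ^ 2) :
    ((q : ℝ) ^ 2 / 2) ^ Fintype.card A ≤ (Fintype.card (A ↪ V) : ℝ) := by
  rw [Fintype.card_embedding_eq, hV]
  have h1 := Nat.pow_sub_le_descFactorial (q ^ 2) (Fintype.card A)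
  have h2 : (((q ^ 2 + 1 - Fintype.card A) ^ Fintype.card A : ℕ) : ℝ)
      ≤ (((q ^ 2).descFactorial (Fintype.card A) : ℕ) : ℝ) := by exact_mod_cast h1
  refine le_trans ?_ h2
  push_cast
  refine pow_le_pow_left₀ (by positivity) ?_ _
  have h3 : Fintype.card A ≤ q ^ 2 + 1 := by omega
  rw [Nat.cast_sub h3]
  push_cast
  have h4 : (2 : ℝ) * Fintype.card A ≤ (q : ℝ) ^ 2 := by exact_mod_cast hA
  linarith

theorem low_bound {A B V W : Type} [Fintype A] [Fintype B] [Fintype V] [Fintype W] (q : ℕ)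
    (hq : 0 < q) (hV : Fintype.card V = q ^ 2) (hW : Fintype.card W = q ^ 2)
    (hA : 2 * Fintype.card A ≤ q ^ 2) (hB : 2 * Fintype.card B ≤ q ^ 2)
    (K : Finset (A × B)) (m : ℕ)
    (hopt : ∀ (f : A → A) (g : B → B), val K f g ≤ m)
    (hm : 2 * ((Fintype.card A : ℤ) + Fintype.card B) - K.card = m) :
    ((univ.filter fun c : V × W → Fin q => (hom K (RG c) : ℝ)
      < (1 / 2) ^ (Fintype.card A + Fintype.card B + 1) * (q : ℝ) ^ m).card : ℝ)
      ≤ (q : ℝ) ^ (Fintype.card (V × W)) * ((4 * ((2 * ((Fintype.card A : ℝ) + 1)) ^ Fintype.card A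
        * (2 * ((Fintype.card B : ℝ) + 1)) ^ Fintype.card B)) * ((q : ℝ)⁻¹) ^ 3) := by
  have hq1 : (1 : ℝ) ≤ q := by exact_mod_cast hq
  have hq' : (q : ℝ) ≠ 0 := by positivity
  set a := Fintype.card A with ha
  set b := Fintype.card B with hb
  set x : ℝ := (q : ℝ)⁻¹ with hx
  have hxp : 0 < x := by positivity
  set T : ((A ↪ V) × (B ↪ W)) → Finset (V × W) := fun p => K.image (Prod.map p.1 p.2) with hT
  set X : (V × W → Fin q) → ℝ := fun c => ∑ p, ind (T p) c with hX
  set I1 : ℝ := (Fintype.card (A ↪ V) : ℝ) with hI1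
  set I2 : ℝ := (Fintype.card (B ↪ W) : ℝ) with hI2
  have hcardP : (Fintype.card ((A ↪ V) × (B ↪ W)) : ℝ) = I1 * I2 := by
    rw [Fintype.card_prod]; push_cast; rfl
  have hI1g : ((q : ℝ) ^ 2 / 2) ^ a ≤ I1 := card_emb_ge q hV hA
  have hI2g : ((q : ℝ) ^ 2 / 2) ^ b ≤ I2 := card_emb_ge q hW hB
  have hI1p : 0 < I1 := lt_of_lt_of_le (by positivity) hI1g
  have hI2p : 0 < I2 := lt_of_lt_of_le (by positivity) hI2g
  set μ : ℝ := I1 * I2 * x ^ K.card with hμ
  have hμp : 0 < μ := by positivity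
  -- X is at most the number of homomorphisms
  have hXle : ∀ c, X c ≤ (hom K (RG c) : ℝ) := by
    intro c
    rw [hom_eq_sum, Fintype.sum_prod_type]
    simp only [hX, hT]
    rw [Fintype.sum_prod_type]
    have h0 : ∀ (p : (A → V)) (r : B → W), 0 ≤ ind (K.image (Prod.map p r)) c := by
      intro p r; unfold ind; split_ifs <;> norm_num
    dsimp only
    have e1 : ∀ φ : A ↪ V, ∑ r : B ↪ W, ind (K.image (Prod.map φ r)) c
        ≤ ∑ r : B → W, ind (K.image (Prod.map φ r)) c := fun φ =>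
      emb_le (fun r : B → W => ind (K.image (Prod.map φ r)) c) (fun r => h0 _ r)
    have e2 := emb_le (fun p : A → V => ∑ r : B → W, ind (K.image (Prod.map p r)) c)
      (fun p => Finset.sum_nonneg fun r _ => h0 _ _)
    exact (Finset.sum_le_sum fun φ _ => e1 φ).trans e2
  -- first moment
  have hfirst : ∑ c, X c = (q : ℝ) ^ (Fintype.card (V × W)) * μ := by
    simp only [hX]
    rw [first_moment q hq T]
    congr 1
    have : ∀ p, (x : ℝ) ^ (T p).card = x ^ K.card := fun p => by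
      rw [hT]; simp only []; rw [card_image_emb]
    rw [Finset.sum_congr rfl fun p _ => this p, Finset.sum_const, Finset.card_univ,
      nsmul_eq_mul, hcardP]
  -- second moment
  have hsecond : ∑ c, X c ^ 2 ≤ (q : ℝ) ^ (Fintype.card (V × W))
      * (μ ^ 2 + I1 * I2 * (x ^ (2 * K.card + 3)
        * ((((a : ℝ) + 1) * (q : ℝ) ^ 2) ^ a * (((b : ℝ) + 1) * (q : ℝ) ^ 2) ^ b))) := by
    simp only [hX]
    rw [second_moment q hq T]
    refine mul_le_mul_of_nonneg_left ?_ (by positivity)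
    have hin : ∀ p : (A ↪ V) × (B ↪ W), ∑ p', x ^ (T p ∪ T p').card
        ≤ I1 * I2 * x ^ (2 * K.card) + x ^ (2 * K.card + 3)
        * ((((a : ℝ) + 1) * (q : ℝ) ^ 2) ^ a * (((b : ℝ) + 1) * (q : ℝ) ^ 2) ^ b) := by
      intro p
      refine (Finset.sum_le_sum fun p' _ =>
        pair_bound q hq K m hopt hm p.1 p'.1 p.2 p'.2).trans ?_
      rw [Finset.sum_add_distrib, Finset.sum_const, Finset.card_univ, nsmul_eq_mul, hcardP,
        ← Finset.mul_sum, Fintype.sum_prod_type]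
      simp only []
      rw [← Finset.sum_mul_sum]
      have hS1 : (univ.image p.1).card ≤ Fintype.card A := by
        rw [← Finset.card_univ]; exact Finset.card_image_le
      have hS2 : (univ.image p.2).card ≤ Fintype.card B := by
        rw [← Finset.card_univ]; exact Finset.card_image_le
      have e1 := sum_emb q hV (univ.image p.1) hS1
      have e2 := sum_emb q hW (univ.image p.2) hS2
      refine add_le_add le_rfl (mul_le_mul_of_nonneg_left ?_ (by positivity))
      exact mul_le_mul e1 e2 (Finset.sum_nonneg fun _ _ => by positivity) (by positivity)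
    refine (Finset.sum_le_sum fun p _ => hin p).trans_eq ?_
    rw [Finset.sum_const, Finset.card_univ, nsmul_eq_mul, hcardP, hμ]
    ring
  have hcard : (Fintype.card (V × W → Fin q) : ℝ) = (q : ℝ) ^ (Fintype.card (V × W)) := by
    rw [Fintype.card_fun, Fintype.card_fin]; push_cast; rfl
  have hch := cheb X _ μ _ hμp.le hcard hfirst hsecond
  -- D ≤ μ² x³ C
  set C2 : ℝ := (2 * ((a : ℝ) + 1)) ^ a * (2 * ((b : ℝ) + 1)) ^ b with hC2
  have hPa : ((((a : ℝ) + 1) * (q : ℝ) ^ 2) ^ a) = (2 * ((a : ℝ) + 1)) ^ a * ((q : ℝ) ^ 2 / 2) ^ a := by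
    rw [← mul_pow]; congr 1; ring
  have hPb : ((((b : ℝ) + 1) * (q : ℝ) ^ 2) ^ b) = (2 * ((b : ℝ) + 1)) ^ b * ((q : ℝ) ^ 2 / 2) ^ b := by
    rw [← mul_pow]; congr 1; ring
  have hD : I1 * I2 * (x ^ (2 * K.card + 3)
        * ((((a : ℝ) + 1) * (q : ℝ) ^ 2) ^ a * (((b : ℝ) + 1) * (q : ℝ) ^ 2) ^ b))
      ≤ μ ^ 2 * (C2 * x ^ 3) := by
    rw [hPa, hPb]
    have e1 : ((q : ℝ) ^ 2 / 2) ^ a * ((q : ℝ) ^ 2 / 2) ^ b ≤ I1 * I2 :=
      mul_le_mul hI1g hI2g (by positivity) hI1p.le
    calc I1 * I2 * (x ^ (2 * K.card + 3) * ((2 * ((a : ℝ) + 1)) ^ a * ((q : ℝ) ^ 2 / 2) ^ a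
          * ((2 * ((b : ℝ) + 1)) ^ b * ((q : ℝ) ^ 2 / 2) ^ b)))
        = (I1 * I2 * x ^ (2 * K.card + 3) * C2)
          * (((q : ℝ) ^ 2 / 2) ^ a * ((q : ℝ) ^ 2 / 2) ^ b) := by rw [hC2]; ring
      _ ≤ (I1 * I2 * x ^ (2 * K.card + 3) * C2) * (I1 * I2) :=
          mul_le_mul_of_nonneg_left e1 (by positivity)
      _ = μ ^ 2 * (C2 * x ^ 3) := by rw [hμ]; ring
  have hbad : ((univ.filter fun c => X c < μ / 2).card : ℝ)
      ≤ (q : ℝ) ^ (Fintype.card (V × W)) * (4 * C2 * x ^ 3) := by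
    have h1 : ((univ.filter fun c => X c < μ / 2).card : ℝ) * (μ / 2) ^ 2
        ≤ (q : ℝ) ^ (Fintype.card (V × W)) * (μ ^ 2 * (C2 * x ^ 3)) :=
      hch.trans (mul_le_mul_of_nonneg_left hD (by positivity))
    have h2 : 0 < (μ / 2) ^ 2 := by positivity
    rw [← mul_le_mul_iff_left₀ h2]
    refine h1.trans_eq ?_
    ring
  refine le_trans ?_ hbad
  have hsub : (univ.filter fun c : V × W → Fin q => (hom K (RG c) : ℝ)
      < (1 / 2) ^ (a + b + 1) * (q : ℝ) ^ m) ⊆ univ.filter fun c => X c < μ / 2 := by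
    intro c hc
    refine mem_filter.2 ⟨mem_univ _, ?_⟩
    have h1 := (mem_filter.1 hc).2
    refine (hXle c).trans_lt (h1.trans_le ?_)
    have h2 : ((q : ℝ) ^ 2 / 2) ^ a * ((q : ℝ) ^ 2 / 2) ^ b * x ^ K.card ≤ μ := by
      rw [hμ]
      exact mul_le_mul_of_nonneg_right (mul_le_mul hI1g hI2g (by positivity) hI1p.le)
        (by positivity)
    have h3 : 2 * (a + b) = m + K.card := by omega
    have h4 : ((q : ℝ) ^ 2 / 2) ^ a * ((q : ℝ) ^ 2 / 2) ^ b * x ^ K.card
        = (1 / 2) ^ (a + b) * (q : ℝ) ^ m := by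
      rw [← pow_add, div_pow, ← pow_mul, h3, pow_add, hx, inv_pow, one_div, inv_pow]
      field_simp
    rw [h4] at h2
    rw [pow_succ]
    linarith
  exact_mod_cast Finset.card_le_card hsub

theorem event_bound {α β : Type} [Fintype α] [Fintype β] (E : Finset (α × β)) (ε δ : ℝ)
    (hε : 0 < ε) (hδ : 0 < δ) : ∃ q0 : ℕ, ∀ q : ℕ, q0 ≤ q →
    ∀ (V W : Type) [Fintype V] [Fintype W], Fintype.card V = q ^ 2 → Fintype.card W = q ^ 2 →
    ((univ.filter fun c : V × W → Fin q =>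
      ¬ ((q : ℝ) ^ ((M E : ℝ) - ε) ≤ (hom E (RG c) : ℝ)
        ∧ (hom E (RG c) : ℝ) ≤ (q : ℝ) ^ ((M E : ℝ) + ε))).card : ℝ)
      ≤ δ * (q : ℝ) ^ (Fintype.card (V × W)) := by
  obtain ⟨A, B, _, _, K, hopt, hm, hhom⟩ := reduce E
  obtain ⟨m, hmm⟩ : ∃ m : ℕ, (m : ℤ) = M E := ⟨(M E).toNat, Int.toNat_of_nonneg (M_nonneg E)⟩
  have hmR : (M E : ℝ) = (m : ℝ) := by rw [← hmm]; simp
  set a := Fintype.card A with ha
  set b := Fintype.card B with hb
  set C1 : ℝ := (Fintype.card (α → α) : ℝ) * (Fintype.card (β → β) : ℝ) with hC1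
  set C2 : ℝ := 4 * ((2 * ((a : ℝ) + 1)) ^ a * (2 * ((b : ℝ) + 1)) ^ b) with hC2
  set C3 : ℝ := (1 / 2) ^ (a + b + 1) with hC3
  have hC3p : 0 < C3 := by positivity
  have t1 : Filter.Tendsto (fun q : ℕ => (q : ℝ) ^ (-ε)) Filter.atTop (nhds 0) :=
    (tendsto_rpow_neg_atTop hε).comp tendsto_natCast_atTop_atTop
  have t2 : Filter.Tendsto (fun q : ℕ => ((q : ℝ)⁻¹) ^ 3) Filter.atTop (nhds 0) := by
    have := ((tendsto_inv_atTop_zero (𝕜 := ℝ)).comp (tendsto_natCast_atTop_atTop (R := ℝ))).pow 3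
    simpa using this
  have t1' : Filter.Tendsto (fun q : ℕ => C1 * (q : ℝ) ^ (-ε)) Filter.atTop (nhds 0) := by
    simpa using t1.const_mul C1
  have t2' : Filter.Tendsto (fun q : ℕ => C2 * ((q : ℝ)⁻¹) ^ 3) Filter.atTop (nhds 0) := by
    simpa using t2.const_mul C2
  have ev : ∀ᶠ q : ℕ in Filter.atTop, C1 * (q : ℝ) ^ (-ε) < δ / 2 ∧ C2 * ((q : ℝ)⁻¹) ^ 3 < δ / 2
      ∧ (q : ℝ) ^ (-ε) < C3 ∧ 2 * a + 2 * b + 1 ≤ q :=
    (t1'.eventually_lt_const (by positivity)).and
      ((t2'.eventually_lt_const (by positivity)).and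
        ((t1.eventually_lt_const hC3p).and (Filter.eventually_ge_atTop _)))
  obtain ⟨q0, hq0⟩ := Filter.eventually_atTop.1 ev
  refine ⟨q0, fun q hq V W _ _ hV hW => ?_⟩
  obtain ⟨h1, h2, h3, h4⟩ := hq0 q hq
  have hqp : 0 < q := by omega
  have hqR : (0 : ℝ) < q := by exact_mod_cast hqp
  have hq2 : q ≤ q ^ 2 := Nat.le_self_pow (by norm_num) q
  set Wt : ℝ := (q : ℝ) ^ (Fintype.card (V × W)) with hWt
  have hWtp : 0 < Wt := by positivity
  have hlow := low_bound q hqp hV hW (by omega) (by omega) K m (by rw [hmm]; exact hopt)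
    (by rw [hmm]; exact hm)
  have hup := upper_bound q hqp hV hW E
  have hmk := markov (fun c : V × W → Fin q => (hom E (RG c) : ℝ))
    ((q : ℝ) ^ ((m : ℝ) + ε)) (fun c => by positivity)
  have hmt : (M E).toNat = m := by omega
  rw [hmt] at hup
  have hfirst : ((univ.filter fun c : V × W → Fin q =>
      (q : ℝ) ^ ((m : ℝ) + ε) < (hom E (RG c) : ℝ)).card : ℝ) ≤ Wt * (C1 * (q : ℝ) ^ (-ε)) := by
    have e1 := hmk.trans hup
    have e2 : 0 < (q : ℝ) ^ ((m : ℝ) + ε) := Real.rpow_pos_of_pos hqR _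
    rw [← mul_le_mul_iff_left₀ e2]
    refine e1.trans_eq ?_
    rw [← hWt, mul_assoc Wt]
    congr 1
    rw [mul_assoc C1, ← Real.rpow_add hqR]
    have e3 : -ε + ((m : ℝ) + ε) = (m : ℝ) := by ring
    rw [e3, Real.rpow_natCast, mul_comm]
  have hsub : (univ.filter fun c : V × W → Fin q =>
      ¬ ((q : ℝ) ^ ((M E : ℝ) - ε) ≤ (hom E (RG c) : ℝ)
        ∧ (hom E (RG c) : ℝ) ≤ (q : ℝ) ^ ((M E : ℝ) + ε)))
      ⊆ (univ.filter fun c : V × W → Fin q =>
          (q : ℝ) ^ ((m : ℝ) + ε) < (hom E (RG c) : ℝ))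
        ∪ (univ.filter fun c : V × W → Fin q =>
          (hom K (RG c) : ℝ) < C3 * (q : ℝ) ^ m) := by
    intro c hc
    have e1 := (mem_filter.1 hc).2
    rw [hmR] at e1
    rw [mem_union, mem_filter, mem_filter]
    by_cases e2 : (hom E (RG c) : ℝ) ≤ (q : ℝ) ^ ((m : ℝ) + ε)
    · right
      refine ⟨mem_univ _, ?_⟩
      have e3 : (hom E (RG c) : ℝ) < (q : ℝ) ^ ((m : ℝ) - ε) := by
        by_contra e4
        exact e1 ⟨not_lt.1 e4, e2⟩
      have e5 : (hom K (RG c) : ℝ) ≤ (hom E (RG c) : ℝ) := by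
        exact_mod_cast hhom _ _ (RG c)
      have e6 : (q : ℝ) ^ ((m : ℝ) - ε) = (q : ℝ) ^ (-ε) * (q : ℝ) ^ m := by
        rw [sub_eq_add_neg, add_comm, Real.rpow_add hqR, Real.rpow_natCast]
      rw [e6] at e3
      exact e5.trans_lt (e3.trans (mul_lt_mul_of_pos_right h3 (by positivity)))
    · left
      exact ⟨mem_univ _, not_le.1 e2⟩
  have hc1 : ((univ.filter fun c : V × W → Fin q =>
      ¬ ((q : ℝ) ^ ((M E : ℝ) - ε) ≤ (hom E (RG c) : ℝ)
        ∧ (hom E (RG c) : ℝ) ≤ (q : ℝ) ^ ((M E : ℝ) + ε))).card : ℝ)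
      ≤ Wt * (C1 * (q : ℝ) ^ (-ε)) + Wt * (C2 * ((q : ℝ)⁻¹) ^ 3) := by
    have e1 := (Finset.card_le_card hsub).trans (Finset.card_union_le _ _)
    have e2 : ((univ.filter fun c : V × W → Fin q =>
      ¬ ((q : ℝ) ^ ((M E : ℝ) - ε) ≤ (hom E (RG c) : ℝ)
        ∧ (hom E (RG c) : ℝ) ≤ (q : ℝ) ^ ((M E : ℝ) + ε))).card : ℝ)
      ≤ ((univ.filter fun c : V × W → Fin q =>
          (q : ℝ) ^ ((m : ℝ) + ε) < (hom E (RG c) : ℝ)).card : ℝ)
        + ((univ.filter fun c : V × W → Fin q =>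
          (hom K (RG c) : ℝ) < C3 * (q : ℝ) ^ m).card : ℝ) := by exact_mod_cast e1
    exact e2.trans (add_le_add hfirst hlow)
  refine hc1.trans ?_
  have e1 := mul_le_mul_of_nonneg_left h1.le hWtp.le
  have e2 := mul_le_mul_of_nonneg_left h2.le hWtp.le
  nlinarith

theorem p3' (N : ℕ) (ε : ℝ) (hε : 0 < ε) : ∃ q0 : ℕ, ∀ q : ℕ, q0 ≤ q →
    ∀ (V W : Type) [Fintype V] [Fintype W], Fintype.card V = q ^ 2 → Fintype.card W = q ^ 2 →
  ∃ R : Finset (V × W),
    ∀ (a b : ℕ) (E : Finset (Fin a × Fin b)), a ≤ N → b ≤ N →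
      (q : ℝ) ^ ((M E : ℝ) - ε) ≤ (hom E R : ℝ) ∧ (hom E R : ℝ) ≤ (q : ℝ) ^ ((M E : ℝ) + ε) := by
  let I : Type := Σ (ab : Fin (N + 1) × Fin (N + 1)), Finset (Fin ab.1 × Fin ab.2)
  have : Fintype I := inferInstanceAs
    (Fintype (Σ (ab : Fin (N + 1) × Fin (N + 1)), Finset (Fin ab.1 × Fin ab.2)))
  set δ : ℝ := 1 / ((Fintype.card I : ℝ) + 1) with hδ
  have hδp : 0 < δ := by positivity
  choose q0 hq0 using fun i : I => event_bound i.2 ε δ hε hδp
  refine ⟨(univ.sup q0) + 1, fun q hq V W _ _ hV hW => ?_⟩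
  have hqp : 0 < q := by omega
  have hqR : (0 : ℝ) < q := by exact_mod_cast hqp
  have hi : ∀ i : I, q0 i ≤ q := fun i => (Finset.le_sup (f := q0) (mem_univ i)).trans (by omega)
  set Wt : ℝ := (q : ℝ) ^ (Fintype.card (V × W)) with hWt
  have hWtp : 0 < Wt := by positivity
  set Bad : I → Finset (V × W → Fin q) := fun i =>
    univ.filter fun c : V × W → Fin q =>
      ¬ ((q : ℝ) ^ ((M i.2 : ℝ) - ε) ≤ (hom i.2 (RG c) : ℝ)
        ∧ (hom i.2 (RG c) : ℝ) ≤ (q : ℝ) ^ ((M i.2 : ℝ) + ε)) with hBad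
  have hb : ∀ i, ((Bad i).card : ℝ) ≤ δ * Wt := fun i => hq0 i q (hi i) V W hV hW
  have hex : ∃ c : V × W → Fin q, ∀ i, c ∉ Bad i := by
    by_contra hcon
    push Not at hcon
    have h1 : (univ : Finset (V × W → Fin q)) ⊆ univ.biUnion Bad := by
      intro c _
      obtain ⟨i, hi⟩ := hcon c
      exact mem_biUnion.2 ⟨i, mem_univ _, hi⟩
    have h2 := (Finset.card_le_card h1).trans Finset.card_biUnion_le
    have h3 : ((univ : Finset (V × W → Fin q)).card : ℝ) = Wt := by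
      rw [Finset.card_univ, Fintype.card_fun, Fintype.card_fin]; push_cast; rfl
    have h4 : Wt ≤ ∑ i, ((Bad i).card : ℝ) := by
      rw [← h3]; exact_mod_cast h2
    have h5 : ∑ i, ((Bad i).card : ℝ) ≤ (Fintype.card I : ℝ) * (δ * Wt) := by
      refine (Finset.sum_le_sum fun i _ => hb i).trans_eq ?_
      rw [Finset.sum_const, Finset.card_univ, nsmul_eq_mul]
    have h6 : (Fintype.card I : ℝ) * (δ * Wt) < Wt := by
      have h7 : (Fintype.card I : ℝ) * δ < 1 := by
        rw [hδ, mul_one_div, div_lt_one (by positivity)]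
        linarith
      calc (Fintype.card I : ℝ) * (δ * Wt) = ((Fintype.card I : ℝ) * δ) * Wt := by ring
        _ < 1 * Wt := mul_lt_mul_of_pos_right h7 hWtp
        _ = Wt := one_mul _
    linarith
  obtain ⟨c, hc⟩ := hex
  refine ⟨RG c, fun a b E ha hb => ?_⟩
  have h1 := hc ⟨(⟨a, by omega⟩, ⟨b, by omega⟩), E⟩
  simp only [hBad, mem_filter, mem_univ, true_and, not_not] at h1
  exact h1

theorem p3 : S_P3 := by
  intro N ε hε
  obtain ⟨q0, hq0⟩ := p3' N ε hε
  exact ⟨q0, fun q hq => hq0 q hq _ _ (Fintype.card_fin _) (Fintype.card_fin _)⟩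

end Pool.Agent.R97.QL
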