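import Pool.Agent.R97.QL.Stm

/-! MP_8fd344_co: the part P4 (cospectrality). -/

open Finset Matrix
open scoped Classical

namespace Pool.Agent.R97.QL

section gen

variable {γ δ γ' δ' : Type} [Fintype γ] [Fintype δ] [Fintype γ'] [Fintype δ']
  [DecidableEq γ] [DecidableEq δ] [DecidableEq γ'] [DecidableEq δ']

theorem p4_charpoly_eval (N : Matrix γ δ ℝ) (x : ℝ) (hx : x ≠ 0) :
    (fromBlocks 0 N Nᵀ 0 : Matrix (γ ⊕ δ) (γ ⊕ δ) ℝ).charpoly.eval x =
      x ^ Fintype.card δ * (x • (1 : Matrix γ γ ℝ) - x⁻¹ • (N * Nᵀ)).det := by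
  rw [Matrix.eval_charpoly]
  have h1 : (Matrix.scalar (γ ⊕ δ) x - fromBlocks 0 N Nᵀ 0 : Matrix (γ ⊕ δ) (γ ⊕ δ) ℝ) =
      fromBlocks (x • 1) (-N) (-Nᵀ) (x • 1) := by
    ext i j
    rcases i with i | i <;> rcases j with j | j <;>
      simp [Matrix.scalar_apply, Matrix.diagonal_apply, Matrix.one_apply, Matrix.smul_apply]
  rw [h1]
  have hinv : Invertible (x • (1 : Matrix δ δ ℝ)) :=
    ⟨x⁻¹ • 1, by simp [hx], by simp [hx]⟩
  rw [Matrix.det_fromBlocks₂₂]
  have h2 : ⅟(x • (1 : Matrix δ δ ℝ)) = x⁻¹ • 1 := by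
    refine invOf_eq_left_inv ?_
    simp [hx]
  rw [h2]
  congr 1
  · simp
  · congr 1
    simp [Matrix.mul_smul, Matrix.smul_mul]

theorem p4_dsum (N : Matrix γ δ ℝ) (N' : Matrix γ' δ' ℝ) (x : ℝ) :
    (x • (1 : Matrix (γ ⊕ γ') (γ ⊕ γ') ℝ) - x⁻¹ •
      ((fromBlocks N 0 0 N' : Matrix (γ ⊕ γ') (δ ⊕ δ') ℝ) * (fromBlocks N 0 0 N')ᵀ)).det =
    (x • (1 : Matrix γ γ ℝ) - x⁻¹ • (N * Nᵀ)).det *
      (x • (1 : Matrix γ' γ' ℝ) - x⁻¹ • (N' * N'ᵀ)).det := by
  rw [← Matrix.det_fromBlocks_zero₂₁ _ 0]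
  congr 1
  rw [Matrix.fromBlocks_transpose, Matrix.fromBlocks_multiply, ← Matrix.fromBlocks_one,
    Matrix.fromBlocks_smul, Matrix.fromBlocks_smul, sub_eq_add_neg, Matrix.fromBlocks_neg,
    Matrix.fromBlocks_add]
  simp [sub_eq_add_neg]

omit [Fintype γ] [Fintype δ] [Fintype γ'] [Fintype δ'] [DecidableEq γ] [DecidableEq δ] [DecidableEq γ'] [DecidableEq δ'] in
theorem p4_biadj_dsum (F : Finset (γ × δ)) (F' : Finset (γ' × δ')) :
    biadj (dsum F F') = fromBlocks (biadj F) 0 0 (biadj F') := by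
  ext i j
  rcases i with i | i <;> rcases j with j | j <;> simp [biadj, dsum]

theorem p4_main (F : Finset (γ × δ)) (F' : Finset (γ' × δ')) (x : ℝ) (hx : x ≠ 0) :
    (adj (dsum F F')).charpoly.eval x = x ^ (Fintype.card δ + Fintype.card δ') *
      ((x • (1 : Matrix γ γ ℝ) - x⁻¹ • (biadj F * (biadj F)ᵀ)).det *
      (x • (1 : Matrix γ' γ' ℝ) - x⁻¹ • (biadj F' * (biadj F')ᵀ)).det) := by
  have h1 := p4_charpoly_eval (biadj (dsum F F')) x hx
  have h2 : adj (dsum F F') = fromBlocks 0 (biadj (dsum F F')) (biadj (dsum F F'))ᵀ 0 := rfl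
  rw [h2, h1, p4_biadj_dsum, p4_dsum, Fintype.card_sum]

end gen

section aff

variable (d : ℕ) [NeZero d]

/-- same class indicator -/
def p4U : Matrix (ZMod d × ZMod d) (ZMod d) ℝ := Matrix.of fun P a => if P.1 = a then 1 else 0

/-- `J - I` -/
def p4B : Matrix (ZMod d) (ZMod d) ℝ := Matrix.of fun a b => if a = b then 0 else 1

theorem p4_UU : (p4U d)ᵀ * p4U d = (d : ℝ) • 1 := by
  ext a b
  rw [Matrix.mul_apply, Fintype.sum_prod_type]
  simp only [p4U, Matrix.transpose_apply, Matrix.of_apply, Matrix.smul_apply, Matrix.one_apply,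
    mul_ite, mul_one, mul_zero, smul_eq_mul, Finset.sum_const, Finset.card_univ, ZMod.card,
    nsmul_eq_mul]
  rcases eq_or_ne a b with rfl | h
  · rw [Finset.sum_eq_single a]
    · simp
    · intro c _ hc
      simp [hc]
    · simp
  · rw [if_neg h]
    refine Finset.sum_eq_zero fun c _ => ?_
    by_cases h1 : c = a
    · simp [h1, h]
    · simp [h1]

theorem p4_affN (t : ℕ) (hd : d.Prime) :
    biadj (aff d t) * (biadj (aff d t))ᵀ = (d : ℝ) • 1 + p4U d * p4B d * (p4U d)ᵀ := by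
  have : Fact d.Prime := ⟨hd⟩
  ext P P'
  have hR : (p4U d * p4B d * (p4U d)ᵀ) P P' = if P.1 = P'.1 then 0 else 1 := by
    rw [Matrix.mul_apply]
    rw [Finset.sum_eq_single P'.1]
    · rw [Matrix.mul_apply, Finset.sum_eq_single P.1]
      · simp [p4U, p4B]
      · intro b _ hb
        simp [p4U, hb.symm]
      · simp
    · intro b _ hb
      simp [p4U, hb.symm]
    · simp
  rw [Matrix.add_apply, hR, Matrix.mul_apply, Fintype.sum_sum_type]
  have hz : ∀ i : Fin t, biadj (aff d t) P (Sum.inr i) * (biadj (aff d t))ᵀ (Sum.inr i) P' = 0 := by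
    intro i
    simp [biadj, aff]
  rw [Finset.sum_congr rfl fun i _ => hz i, Finset.sum_const_zero, add_zero,
    Fintype.sum_prod_type]
  have hs : ∀ m : ZMod d, ∑ c : ZMod d, biadj (aff d t) P (Sum.inl (m, c)) *
      (biadj (aff d t))ᵀ (Sum.inl (m, c)) P' =
      if m * (P'.1 - P.1) = P'.2 - P.2 then 1 else 0 := by
    intro m
    rw [Finset.sum_eq_single (P.2 - m * P.1)]
    · have e1 : biadj (aff d t) P (Sum.inl (m, P.2 - m * P.1)) = 1 := by
        simp [biadj, aff]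
      have e2 : (biadj (aff d t))ᵀ (Sum.inl (m, P.2 - m * P.1)) P' =
          if m * (P'.1 - P.1) = P'.2 - P.2 then 1 else 0 := by
        simp only [biadj, aff, Matrix.transpose_apply, Matrix.of_apply, Finset.mem_filter,
          Finset.mem_univ, true_and, Sum.inl.injEq, exists_eq_left']
        refine if_congr ⟨fun h => ?_, fun h => ?_⟩ rfl rfl
        · rw [h]; ring
        · linear_combination -h
      rw [e1, e2, one_mul]
    · intro c _ hc
      have e1 : biadj (aff d t) P (Sum.inl (m, c)) = 0 := by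
        simp only [biadj, aff, Matrix.of_apply, Finset.mem_filter,
          Finset.mem_univ, true_and, Sum.inl.injEq, exists_eq_left', ite_eq_right_iff,
          one_ne_zero, imp_false]
        intro h
        exact hc (by rw [h]; ring)
      rw [e1, zero_mul]
    · simp
  rw [Finset.sum_congr rfl fun m _ => hs m, Matrix.smul_apply, Matrix.one_apply]
  rcases eq_or_ne P.1 P'.1 with h1 | h1
  · rw [if_pos h1, add_zero]
    simp only [h1, sub_self, mul_zero]
    rcases eq_or_ne P.2 P'.2 with h2 | h2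
    · rw [if_pos (Prod.ext h1 h2)]
      simp [h2]
    · rw [if_neg fun h => h2 (congrArg Prod.snd h)]
      have : ¬ (0 : ZMod d) = P'.2 - P.2 := fun h => h2 (sub_eq_zero.1 h.symm).symm
      simp [this]
  · rw [if_neg h1, if_neg fun h => h1 (congrArg Prod.fst h), smul_zero, zero_add]
    have h3 : P'.1 - P.1 ≠ 0 := sub_ne_zero.2 (Ne.symm h1)
    rw [Finset.sum_eq_single ((P'.2 - P.2) / (P'.1 - P.1))]
    · rw [if_pos (div_mul_cancel₀ _ h3)]
    · intro m _ hm
      rw [if_neg]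
      intro h
      exact hm (by rw [← h, mul_div_cancel_right₀ _ h3])
    · simp

theorem p4_det_aff (t : ℕ) (hd : d.Prime) (x : ℝ) (hx : (d : ℝ) < x) :
    (x • (1 : Matrix (ZMod d × ZMod d) (ZMod d × ZMod d) ℝ) -
      x⁻¹ • (biadj (aff d t) * (biadj (aff d t))ᵀ)).det =
    (x - x⁻¹ * d) ^ (d ^ 2 - d) * x ^ d * (1 - (d / x) ^ 2) := by
  have hd2 : (2 : ℝ) ≤ d := by exact_mod_cast hd.two_le
  have hx0 : 0 < x := by linarith
  have hs : 0 < x - x⁻¹ * d := by
    rw [sub_pos, inv_mul_lt_iff₀ hx0]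
    nlinarith
  set s := x - x⁻¹ * d with hsdef
  rw [p4_affN d t hd]
  have e1 : x • (1 : Matrix (ZMod d × ZMod d) (ZMod d × ZMod d) ℝ) -
      x⁻¹ • ((d : ℝ) • 1 + p4U d * p4B d * (p4U d)ᵀ) =
      s • (1 - p4U d * (((x * s)⁻¹ : ℝ) • (p4B d * (p4U d)ᵀ))) := by
    rw [smul_sub, Matrix.mul_smul, smul_smul, ← Matrix.mul_assoc, smul_add, smul_smul, hsdef,
      sub_smul]
    have : s * (x * s)⁻¹ = x⁻¹ := by field_simp
    rw [← hsdef, this]
    abel
  rw [e1, Matrix.det_smul, Matrix.det_one_sub_mul_comm, Matrix.smul_mul, Matrix.mul_assoc,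
    p4_UU, Matrix.mul_smul, Matrix.mul_one, smul_smul, Fintype.card_prod, ZMod.card]
  set r := (x * s)⁻¹ * (d : ℝ) with hr
  have hxs : x * s = x ^ 2 - d := by
    rw [hsdef]; field_simp
  have hxs0 : 0 < x * s := mul_pos hx0 hs
  have h1r : 1 + r = x ^ 2 / (x * s) := by
    rw [hr]; field_simp; rw [hxs]; ring
  have h1r0 : 1 + r ≠ 0 := by rw [h1r]; positivity
  have hrr : r / (1 + r) = d / x ^ 2 := by
    rw [h1r, hr]; field_simp
  have e2 : (1 : Matrix (ZMod d) (ZMod d) ℝ) - r • p4B d =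
      (1 + r) • (1 + replicateCol Unit (fun _ : ZMod d => -(r / (1 + r))) *
        replicateRow Unit (fun _ : ZMod d => (1 : ℝ))) := by
    ext a b
    simp only [Matrix.sub_apply, Matrix.smul_apply, p4B, Matrix.of_apply, Matrix.add_apply,
      Matrix.mul_apply, replicateCol_apply, replicateRow_apply, smul_eq_mul, Finset.univ_unique,
      Finset.sum_const, Finset.card_singleton, one_smul, mul_one, Matrix.one_apply]
    have h3 : (1 + r) * (r / (1 + r)) = r := mul_div_cancel₀ _ h1r0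
    split_ifs
    · linear_combination h3
    · linear_combination h3
  rw [e2, Matrix.det_smul, Matrix.det_one_add_replicateCol_mul_replicateRow, ZMod.card]
  have e3 : (fun _ : ZMod d => (1 : ℝ)) ⬝ᵥ (fun _ : ZMod d => -(r / (1 + r))) =
      - (d / x) ^ 2 := by
    simp only [dotProduct, one_mul, Finset.sum_const, Finset.card_univ, ZMod.card, nsmul_eq_mul]
    rw [hrr]; ring
  rw [e3]
  have e4 : s ^ (d * d) * (1 + r) ^ d = s ^ (d ^ 2 - d) * x ^ d := by
    have e5 : d * d = (d ^ 2 - d) + d := by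
      have : d ≤ d ^ 2 := Nat.le_self_pow (by norm_num) d
      rw [Nat.sub_add_cancel this, pow_two]
    rw [e5, pow_add, mul_assoc, ← mul_pow, h1r]
    congr 2
    field_simp
  rw [← mul_assoc, e4]
  ring

theorem p4_prod_lv (f : ℕ → ℝ) :
    ∏ P : ZMod d × ZMod d, f (lv d P) = f (d ^ 2) * f 0 ^ (d - 1) * (f d ^ d) ^ (d - 1) := by
  rw [Fintype.prod_prod_type]
  have h1 : ∀ a : ZMod d, a ≠ 0 → ∏ b : ZMod d, f (lv d (a, b)) = f d ^ d := by
    intro a ha
    rw [Finset.prod_congr rfl fun b _ => by rw [lv, if_neg ha], Finset.prod_const,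
      Finset.card_univ, ZMod.card]
  have h2 : ∏ b : ZMod d, f (lv d (0, b)) = f (d ^ 2) * f 0 ^ (d - 1) := by
    rw [← Finset.mul_prod_erase _ _ (Finset.mem_univ (0 : ZMod d))]
    congr 1
    · simp [lv]
    · rw [Finset.prod_congr rfl (g := fun _ => f 0) fun b hb => by
        simp [lv, (Finset.mem_erase.1 hb).1], Finset.prod_const,
        Finset.card_erase_of_mem (Finset.mem_univ _), Finset.card_univ, ZMod.card]
  rw [← Finset.mul_prod_erase _ _ (Finset.mem_univ (0 : ZMod d)), h2,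
    Finset.prod_congr rfl fun a ha => h1 a (Finset.mem_erase.1 ha).1, Finset.prod_const,
    Finset.card_erase_of_mem (Finset.mem_univ _), Finset.card_univ, ZMod.card]

theorem p4_starsN : biadj (stars d) * (biadj (stars d))ᵀ =
    Matrix.diagonal fun P => (lv d P : ℝ) := by
  ext P P'
  rw [Matrix.mul_apply, Matrix.diagonal_apply, Fintype.sum_sigma]
  have hs : ∀ x : ZMod d × ZMod d, ∑ i : Fin (lv d x), biadj (stars d) P ⟨x, i⟩ *
      (biadj (stars d))ᵀ ⟨x, i⟩ P' = if x = P ∧ x = P' then (lv d x : ℝ) else 0 := by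
    intro x
    have : ∀ i : Fin (lv d x), biadj (stars d) P ⟨x, i⟩ *
      (biadj (stars d))ᵀ ⟨x, i⟩ P' = if x = P ∧ x = P' then 1 else 0 := by
      intro i
      simp only [biadj, stars, Matrix.transpose_apply, Matrix.of_apply, Finset.mem_filter,
        Finset.mem_univ, true_and]
      by_cases h1 : x = P <;> by_cases h2 : x = P' <;> simp [h1, h2]
    rw [Finset.sum_congr rfl fun i _ => this i, Finset.sum_const, Finset.card_univ,
      Fintype.card_fin]
    split_ifs <;> simp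
  rw [Finset.sum_congr rfl fun x _ => hs x, Finset.sum_eq_single P]
  · by_cases h : P = P'
    · simp [h]
    · simp [h]
  · intro x _ hx
    rw [if_neg fun h => hx h.1]
  · simp

theorem p4_det_stars (hd : d.Prime) (x : ℝ) (hx : (d : ℝ) < x) :
    (x • (1 : Matrix (ZMod d × ZMod d) (ZMod d × ZMod d) ℝ) -
      x⁻¹ • (biadj (stars d) * (biadj (stars d))ᵀ)).det =
    (x - x⁻¹ * d) ^ (d ^ 2 - d) * x ^ d * (1 - (d / x) ^ 2) := by
  have hx0 : 0 < x := lt_of_le_of_lt (Nat.cast_nonneg d) hx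
  have e1 : x • (1 : Matrix (ZMod d × ZMod d) (ZMod d × ZMod d) ℝ) -
      x⁻¹ • (biadj (stars d) * (biadj (stars d))ᵀ) =
      Matrix.diagonal fun P => x - x⁻¹ * (lv d P : ℝ) := by
    rw [p4_starsN]
    ext P P'
    simp only [Matrix.sub_apply, Matrix.smul_apply, Matrix.one_apply, Matrix.diagonal_apply,
      smul_eq_mul]
    split_ifs <;> simp
  rw [e1, Matrix.det_diagonal, p4_prod_lv d (fun k => x - x⁻¹ * (k : ℝ))]
  obtain ⟨m, rfl⟩ : ∃ m, d = m + 1 := ⟨d - 1, by have := hd.two_le; omega⟩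
  have h3 : (m + 1) ^ 2 - (m + 1) = (m + 1) * m := by
    have : (m + 1) ^ 2 = (m + 1) * m + (m + 1) := by ring
    rw [this, Nat.add_sub_cancel]
  rw [h3, Nat.add_sub_cancel, ← pow_mul, pow_succ x m]
  push_cast
  have h4 : x - x⁻¹ * ((m : ℝ) + 1) ^ 2 = x * (1 - (((m : ℝ) + 1) / x) ^ 2) := by
    field_simp
  rw [h4, mul_zero, sub_zero]
  ring

end aff

theorem p4 : S_P4 := by
  intro d _ γ δ _ _ F hd
  refine Polynomial.eq_of_infinite_eval_eq _ _ ?_
  refine (Set.Ioi_infinite (d : ℝ)).mono fun x hx => ?_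
  have hx' : (d : ℝ) < x := hx
  have hx0 : x ≠ 0 := (lt_of_le_of_lt (Nat.cast_nonneg d) hx').ne'
  have h1 := p4_main F (aff d (d ^ 3 - d ^ 2)) x hx0
  have h2 := p4_main F (stars d) x hx0
  have hc : Fintype.card ((ZMod d × ZMod d) ⊕ Fin (d ^ 3 - d ^ 2)) =
      Fintype.card (Σ x : ZMod d × ZMod d, Fin (lv d x)) := by
    rw [Fintype.card_sum, Fintype.card_prod, ZMod.card, Fintype.card_fin, Fintype.card_sigma]
    simp only [Fintype.card_fin]
    rw [Fintype.sum_prod_type]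
    have e1 : ∀ a : ZMod d, a ≠ 0 → ∑ b : ZMod d, lv d (a, b) = d * d := by
      intro a ha
      rw [Finset.sum_congr rfl fun b _ => by rw [lv, if_neg ha], Finset.sum_const,
        Finset.card_univ, ZMod.card, smul_eq_mul]
    have e2 : ∑ b : ZMod d, lv d (0, b) = d ^ 2 := by
      rw [Finset.sum_eq_single (0 : ZMod d)]
      · simp [lv]
      · intro b _ hb
        simp [lv, hb]
      · simp
    rw [← Finset.add_sum_erase _ _ (Finset.mem_univ (0 : ZMod d)), e2,
      Finset.sum_congr rfl fun a ha => e1 a (Finset.mem_erase.1 ha).1, Finset.sum_const,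
      Finset.card_erase_of_mem (Finset.mem_univ _), Finset.card_univ, ZMod.card, smul_eq_mul]
    obtain ⟨m, rfl⟩ : ∃ m, d = m + 1 := ⟨d - 1, by have := hd.two_le; omega⟩
    have h3 : (m + 1) ^ 3 - (m + 1) ^ 2 = m * (m + 1) ^ 2 := by
      have : (m + 1) ^ 3 = m * (m + 1) ^ 2 + (m + 1) ^ 2 := by ring
      rw [this, Nat.add_sub_cancel]
    rw [h3, Nat.add_sub_cancel]
    ring
  show Polynomial.eval x _ = Polynomial.eval x _
  rw [p4_det_aff d _ hd x hx'] at h1
  rw [p4_det_stars d hd x hx', ← hc] at h2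
  exact h1.trans h2.symm

end Pool.Agent.R97.QL
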