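import Pool.Agent.R97.QL.Stm2
import Pool.Agent.R97.QL.AffHom
import Pool.Agent.R97.QL.P3
import Pool.Agent.R97.QL.P4

/-! MP_8fd344_co: the data. -/

open Finset Filter Topology Matrix
open scoped Classical

namespace Pool.Agent.R97.QL

open BipGraph

theorem log_calc {q x K μ ε : ℝ} {n1 n2 : ℝ} {a b : ℕ} (hq : 1 ≤ q) (hK : 1 ≤ K)
    (h1 : q ^ 2 ≤ n1) (h1' : n1 ≤ 2 * q ^ 2) (h2 : q ^ 2 ≤ n2) (h2' : n2 ≤ 2 * q ^ 2)
    (hl : q ^ (μ - ε) ≤ x) (hu : x ≤ K * q ^ (μ + ε)) :
    |Real.log (x / (n1 ^ a * n2 ^ b)) + (2 * (a + b) - μ) * Real.log q| ≤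
      ε * Real.log q + ((a + b : ℕ) * Real.log 2 + Real.log K) := by
  have hq0 : 0 < q := by linarith
  have hx0 : 0 < x := lt_of_lt_of_le (Real.rpow_pos_of_pos hq0 _) hl
  have hq2 : 0 < q ^ 2 := by positivity
  have hn1 : 0 < n1 := by linarith
  have hn2 : 0 < n2 := by linarith
  have hK0 : 0 < K := by linarith
  set L := Real.log q with hL
  have hlogx : Real.log (x / (n1 ^ a * n2 ^ b)) = Real.log x - (a * Real.log n1 + b * Real.log n2) := by
    rw [Real.log_div hx0.ne' (by positivity), Real.log_mul (by positivity) (by positivity),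
      Real.log_pow, Real.log_pow]
  have e1 : 2 * L ≤ Real.log n1 := by
    have := Real.log_le_log hq2 h1
    rwa [Real.log_pow, Nat.cast_ofNat] at this
  have e1' : Real.log n1 ≤ Real.log 2 + 2 * L := by
    have := Real.log_le_log hn1 h1'
    rwa [Real.log_mul (by norm_num) hq2.ne', Real.log_pow, Nat.cast_ofNat] at this
  have e2 : 2 * L ≤ Real.log n2 := by
    have := Real.log_le_log hq2 h2
    rwa [Real.log_pow, Nat.cast_ofNat] at this
  have e2' : Real.log n2 ≤ Real.log 2 + 2 * L := by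
    have := Real.log_le_log hn2 h2'
    rwa [Real.log_mul (by norm_num) hq2.ne', Real.log_pow, Nat.cast_ofNat] at this
  have e3 : (μ - ε) * L ≤ Real.log x := by
    have := Real.log_le_log (Real.rpow_pos_of_pos hq0 _) hl
    rwa [Real.log_rpow hq0] at this
  have e4 : Real.log x ≤ Real.log K + (μ + ε) * L := by
    have := Real.log_le_log hx0 hu
    rwa [Real.log_mul hK0.ne' (Real.rpow_pos_of_pos hq0 _).ne', Real.log_rpow hq0] at this
  have hlogK : 0 ≤ Real.log K := Real.log_nonneg hK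
  have hlog2 : 0 ≤ Real.log 2 := Real.log_nonneg (by norm_num)
  have f1 : (a : ℝ) * (2 * L) ≤ a * Real.log n1 := mul_le_mul_of_nonneg_left e1 (Nat.cast_nonneg a)
  have f1' : (a : ℝ) * Real.log n1 ≤ a * (Real.log 2 + 2 * L) :=
    mul_le_mul_of_nonneg_left e1' (Nat.cast_nonneg a)
  have f2 : (b : ℝ) * (2 * L) ≤ b * Real.log n2 := mul_le_mul_of_nonneg_left e2 (Nat.cast_nonneg b)
  have f2' : (b : ℝ) * Real.log n2 ≤ b * (Real.log 2 + 2 * L) :=
    mul_le_mul_of_nonneg_left e2' (Nat.cast_nonneg b)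
  have g1 : 0 ≤ (a : ℝ) * Real.log 2 := by positivity
  have g2 : 0 ≤ (b : ℝ) * Real.log 2 := by positivity
  rw [hlogx, abs_le]
  push_cast
  constructor <;> nlinarith

theorem card_lv (d : ℕ) [NeZero d] (hd : d.Prime) :
    Fintype.card (Σ x : ZMod d × ZMod d, Fin (lv d x)) = d ^ 3 := by
  rw [Fintype.card_sigma]
  simp only [Fintype.card_fin]
  rw [Fintype.sum_prod_type]
  have e1 : ∀ a : ZMod d, a ≠ 0 → ∑ b : ZMod d, lv d (a, b) = d * d := by
    intro a ha
    rw [Finset.sum_congr rfl fun b _ => by rw [lv, if_neg ha], Finset.sum_const,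
      Finset.card_univ, ZMod.card, smul_eq_mul]
  have e2 : ∑ b : ZMod d, lv d (0, b) = d ^ 2 := by
    rw [Finset.sum_eq_single (0 : ZMod d)]
    · simp [lv]
    · intro b _ hb
      simp [lv, hb]
    · simp
  rw [← Finset.add_sum_erase _ _ (Finset.mem_univ (0 : ZMod d)), e2,
    Finset.sum_congr rfl fun a ha => e1 a (Finset.mem_erase.1 ha).1, Finset.sum_const,
    Finset.card_erase_of_mem (Finset.mem_univ _), Finset.card_univ, ZMod.card, smul_eq_mul]
  obtain ⟨m, rfl⟩ : ∃ m, d = m + 1 := ⟨d - 1, by have := hd.two_le; omega⟩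
  rw [Nat.add_sub_cancel]
  ring

/-- the parameters -/
theorem params (n0 : ℕ) : ∃ d q : ℕ, d.Prime ∧ n0 ≤ d ∧ d ≤ q ∧ d ^ 39 ≤ q ^ 20 ∧
    d ^ 3 ≤ q ^ 2 ∧ q ^ 20 ≤ 2 ^ 20 * d ^ 39 := by
  obtain ⟨d, hd, hp⟩ := Nat.exists_infinite_primes n0
  have hex : ∃ q, d ^ 39 ≤ q ^ 20 := ⟨d ^ 39, Nat.le_self_pow (by norm_num) _⟩
  set q := Nat.find hex with hq
  have h1 : d ^ 39 ≤ q ^ 20 := Nat.find_spec hex
  have hd2 := hp.two_le
  have hd1 : 1 ≤ d := by omega
  have h2 : d ≤ q := by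
    have : d ^ 20 ≤ q ^ 20 := (Nat.pow_le_pow_right hd1 (by norm_num)).trans h1
    exact (Nat.pow_le_pow_iff_left (by norm_num)).1 this
  have h3 : d ^ 3 ≤ q ^ 2 := by
    have : (d ^ 3) ^ 10 ≤ (q ^ 2) ^ 10 := by
      rw [← pow_mul, ← pow_mul]
      exact (Nat.pow_le_pow_right hd1 (by norm_num)).trans h1
    exact (Nat.pow_le_pow_iff_left (by norm_num)).1 this
  have h4 : (q - 1) ^ 20 < d ^ 39 := by
    have := Nat.find_min hex (m := q - 1) (by omega)
    omega
  refine ⟨d, q, hp, hd, h2, h1, h3, ?_⟩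
  calc q ^ 20 ≤ (2 * (q - 1)) ^ 20 := Nat.pow_le_pow_left (by omega) 20
    _ = 2 ^ 20 * (q - 1) ^ 20 := by rw [mul_pow]
    _ ≤ 2 ^ 20 * d ^ 39 := Nat.mul_le_mul_left _ h4.le

theorem hom_inl_le {α β γ δ γ' δ' : Type} [Fintype α] [Fintype β] [Fintype γ] [Fintype δ]
    [Fintype γ'] [Fintype δ'] (E : Finset (α × β)) (F : Finset (γ × δ)) (F' : Finset (γ' × δ')) :
    hom E F ≤ hom E (dsum F F') := by
  unfold hom
  refine Nat.card_le_card_of_injective (fun p => ⟨(fun a => Sum.inl (p.1.1 a),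
    fun b => Sum.inl (p.1.2 b)), ?_⟩) ?_
  · intro e he
    exact mem_union_left _ (mem_image.2 ⟨_, p.2 e he, rfl⟩)
  · rintro ⟨p, hp⟩ ⟨p', hp'⟩ he
    have h := Subtype.mk.inj he
    have h1 : p.1 = p'.1 := by
      funext a
      exact Sum.inl.inj (congrFun (congrArg Prod.fst h) a)
    have h2 : p.2 = p'.2 := by
      funext a
      exact Sum.inl.inj (congrFun (congrArg Prod.snd h) a)
    exact Subtype.ext (Prod.ext h1 h2)

/-- the edge set of `K2` -/
def edgeK : Finset (Fin 1 × Fin 1) := {(0, 0)}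

theorem mem_edgeK (e : Fin 1 × Fin 1) : e ∈ edgeK := by
  rw [edgeK, mem_singleton]
  exact Prod.ext (Subsingleton.elim _ _) (Subsingleton.elim _ _)

theorem hom_edge {γ δ : Type} [Fintype γ] [Fintype δ] (F : Finset (γ × δ)) :
    hom edgeK F = F.card := by
  unfold hom
  have h1 : Nat.card F = F.card := by simp
  rw [← h1]
  refine Nat.card_congr ⟨fun p => ⟨(p.1.1 0, p.1.2 0), p.2 (0, 0) (mem_edgeK _)⟩,
    fun e => ⟨(fun _ => e.1.1, fun _ => e.1.2), fun _ _ => e.2⟩, ?_, ?_⟩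
  · rintro ⟨⟨p1, p2⟩, hp⟩
    apply Subtype.ext
    refine Prod.ext ?_ ?_
    · funext i
      rw [Subsingleton.elim i 0]
    · funext i
      rw [Subsingleton.elim i 0]
  · rintro ⟨e, he⟩
    rfl

theorem M_edge : M edgeK = 3 := by
  apply le_antisymm
  · apply M_le
    intro f g
    rw [val_def']
    have h1 : (univ.image f).card ≤ 1 := card_image_le.trans (by simp)
    have h2 : (univ.image g).card ≤ 1 := card_image_le.trans (by simp)
    have h3 : 1 ≤ (edgeK.image (Prod.map f g)).card :=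
      Finset.card_pos.2 ⟨_, mem_image_of_mem _ (mem_edgeK (0, 0))⟩
    omega
  · refine le_trans ?_ (val_le_M edgeK id id)
    rw [val_def']
    simp [edgeK]

theorem card_dsum_le {γ δ γ' δ' : Type} (F : Finset (γ × δ)) (F' : Finset (γ' × δ')) :
    (dsum F F').card ≤ F.card + F'.card :=
  (card_union_le _ _).trans (Nat.add_le_add card_image_le card_image_le)

theorem dsum_ne {γ δ γ' δ' : Type} {F : Finset (γ × δ)} (hF : F.Nonempty)
    (F' : Finset (γ' × δ')) : (dsum F F').Nonempty := by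
  obtain ⟨e, he⟩ := hF
  exact ⟨_, mem_union_left _ (mem_image_of_mem _ he)⟩

theorem mem_dsum_inr {γ δ γ' δ' : Type} {F : Finset (γ × δ)} {F' : Finset (γ' × δ')}
    {x : γ'} {y : δ'} (h : (x, y) ∈ F') : (Sum.inr x, Sum.inr y) ∈ dsum F F' :=
  mem_union_right _ (mem_image.2 ⟨(x, y), h, rfl⟩)

theorem roots_congr {n m : Type} [Fintype n] [Fintype m] {i i' : DecidableEq n}
    {j j' : DecidableEq m} (A : Matrix n n ℝ) (B : Matrix m m ℝ)
    (h : @Matrix.charpoly ℝ _ n i _ A = @Matrix.charpoly ℝ _ m j _ B) :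
    (@Matrix.charpoly ℝ _ n i' _ A).roots = (@Matrix.charpoly ℝ _ m j' _ B).roots := by
  have h1 : i = i' := Subsingleton.elim _ _
  have h2 : j = j' := Subsingleton.elim _ _
  subst h1 h2
  rw [h]

theorem data (hsplit : S_Split) : S_Data := by
  refine ⟨fun v => v * Real.log 2 + Real.log (2 ^ v * (v + 1) ^ v) + 200, fun n => ?_⟩
  obtain ⟨q0, hq0⟩ := p3 (n + 1) (1 / (n + 1)) (by positivity)
  obtain ⟨d, q, hp, hd0, hdq, h39, h32, hq20⟩ := params (max q0 (3 ^ n))
  haveI : NeZero d := ⟨hp.ne_zero⟩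
  have hd2 := hp.two_le
  have hd1 : 1 ≤ d := by omega
  obtain ⟨R, hR⟩ := hq0 q (le_trans (le_max_left _ _) (hd0.trans hdq))
  have hq1 : 1 ≤ q := hd1.trans hdq
  have hqR : (1 : ℝ) ≤ q := by exact_mod_cast hq1
  have hqR0 : (0 : ℝ) < q := by linarith
  set ε : ℝ := 1 / (n + 1) with hε
  have hε0 : 0 < ε := by positivity
  set L := Real.log q with hL
  have h3n : 3 ^ n ≤ q := le_trans (le_max_right _ _) (hd0.trans hdq)
  have hlog3 : (1 : ℝ) ≤ Real.log 3 := by
    rw [Real.le_log_iff_exp_le (by norm_num)]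
    exact Real.exp_one_lt_three.le
  have hnL : (n : ℝ) ≤ L := by
    have h1 : Real.log ((3 : ℝ) ^ n) ≤ L := by
      apply Real.log_le_log (by positivity)
      exact_mod_cast h3n
    rw [Real.log_pow] at h1
    have : (n : ℝ) * 1 ≤ n * Real.log 3 := mul_le_mul_of_nonneg_left hlog3 (Nat.cast_nonneg n)
    linarith
  have hL0 : 0 < L := Real.log_pos (by
    have : 2 ≤ q := hd2.trans hdq
    exact_mod_cast this)
  have hd22 : d ^ 2 ≤ d ^ 3 := Nat.pow_le_pow_right hd1 (by norm_num)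
  set t := d ^ 3 - d ^ 2 with ht
  have hdt : d ^ 2 + t = d ^ 3 := by omega
  set G := toBip (dsum R (aff d t)) with hG
  set G' := toBip (dsum R (stars d)) with hG'
  have hzz : Fintype.card (ZMod d × ZMod d) = d ^ 2 := by
    rw [Fintype.card_prod, ZMod.card]; ring
  have hGm : G.m = q ^ 2 + d ^ 2 := by
    show Fintype.card (Fin (q ^ 2) ⊕ (ZMod d × ZMod d)) = _
    rw [Fintype.card_sum, hzz, Fintype.card_fin]
  have hGn : G.n = q ^ 2 + d ^ 3 := by
    show Fintype.card (Fin (q ^ 2) ⊕ ((ZMod d × ZMod d) ⊕ Fin t)) = _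
    rw [Fintype.card_sum, Fintype.card_sum, hzz, Fintype.card_fin, Fintype.card_fin, hdt]
  have hG'm : G'.m = q ^ 2 + d ^ 2 := by
    show Fintype.card (Fin (q ^ 2) ⊕ (ZMod d × ZMod d)) = _
    rw [Fintype.card_sum, hzz, Fintype.card_fin]
  have hG'n : G'.n = q ^ 2 + d ^ 3 := by
    show Fintype.card (Fin (q ^ 2) ⊕ (Σ x : ZMod d × ZMod d, Fin (lv d x))) = _
    rw [Fintype.card_sum, card_lv d hp, Fintype.card_fin]
  have hn1 : (q : ℝ) ^ 2 ≤ ((q ^ 2 + d ^ 2 : ℕ) : ℝ) := by push_cast; nlinarith [sq_nonneg (d : ℝ)]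
  have hn1' : ((q ^ 2 + d ^ 2 : ℕ) : ℝ) ≤ 2 * (q : ℝ) ^ 2 := by
    have : q ^ 2 + d ^ 2 ≤ 2 * q ^ 2 := by omega
    exact_mod_cast this
  have hn2 : (q : ℝ) ^ 2 ≤ ((q ^ 2 + d ^ 3 : ℕ) : ℝ) := by
    have : q ^ 2 ≤ q ^ 2 + d ^ 3 := by omega
    exact_mod_cast this
  have hn2' : ((q ^ 2 + d ^ 3 : ℕ) : ℝ) ≤ 2 * (q : ℝ) ^ 2 := by
    have : q ^ 2 + d ^ 3 ≤ 2 * q ^ 2 := by omega
    exact_mod_cast this
  have hlog2 : 0 ≤ Real.log 2 := Real.log_nonneg (by norm_num)
  have hlog2' : Real.log 2 ≤ 0.7 := by linarith [Real.log_two_lt_d9]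
  -- edges of `R`
  have hRK := hR 1 1 edgeK (by omega) (by omega)
  rw [hom_edge, M_edge] at hRK
  have hRne : R.Nonempty := by
    rw [← Finset.card_pos]
    have : (0 : ℝ) < R.card := lt_of_lt_of_le (Real.rpow_pos_of_pos hqR0 _) hRK.1
    exact_mod_cast this
  have hne : ∀ {γ' δ' : Type} [Fintype γ'] [Fintype δ'] (F' : Finset (γ' × δ')),
      (toBip (dsum R F')).E.Nonempty := by
    intro γ' δ' _ _ F'
    exact Finset.Nonempty.map (dsum_ne hRne F')
  refine ⟨G, G', L, hnL, hL0, hne _, hne _, ?_, ?_, ?_, ?_⟩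
  · rw [hG, hG', spectrum_toBip, spectrum_toBip]
    have h4 := p4 d _ _ R hp
    exact roots_congr _ _ h4
  · intro H hHm hHn
    set v := H.m + H.n with hv
    set K : ℝ := (v + 1) ^ v with hK
    have hK1 : 1 ≤ K := one_le_pow₀ (by have := Nat.cast_nonneg (α := ℝ) v; linarith)
    have hlow : (q : ℝ) ^ ((M H.E : ℝ) - ε) ≤ (homCount H G : ℝ) := by
      rw [hG, homCount_toBip]
      refine (hR H.m H.n H.E (by omega) (by omega)).1.trans ?_
      exact_mod_cast hom_inl_le H.E R (aff d t)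
    have hup : (homCount H G : ℝ) ≤ (2 ^ v * K) * (q : ℝ) ^ ((M H.E : ℝ) + ε) := by
      rw [hG, homCount_toBip]
      have := hsplit (Fin H.m) (Fin H.n) _ _ _ _ H.E R (aff d t) q ε K hqR hε0.le
        (by linarith) ?_
      · simpa only [Fintype.card_fin] using this
      intro a b E' ha hb
      rw [Fintype.card_fin] at ha hb
      refine ⟨(hR a b E' (by omega) (by omega)).2, ?_⟩
      obtain ⟨Γ, hT, hT', hΓ⟩ := tgt_aff (d := d) (t := t) (q := q) hp (hd22.trans h32)
        (by rw [hdt]; exact h32)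
      have h1 := hom_le E' (aff d t) (Sum.inl 0) hd1 hdq h39 hT hT' hΓ
      have h2 : Nat.card (Fin a ⊕ Fin b → Fin a ⊕ Fin b) ≤ (v + 1) ^ v := by
        rw [Nat.card_eq_fintype_card, Fintype.card_fun, Fintype.card_sum, Fintype.card_fin,
          Fintype.card_fin]
        exact (Nat.pow_le_pow_left (by omega) _).trans (Nat.pow_le_pow_right (by omega) (by omega))
      have h3 : (hom E' (aff d t) : ℝ) ≤ ((v + 1) ^ v * q ^ (M E').toNat : ℕ) := by
        exact_mod_cast h1.trans (Nat.mul_le_mul_right _ h2)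
      refine h3.trans (le_of_eq ?_)
      push_cast
      rw [hK, ← Real.rpow_natCast (q : ℝ)]
      congr 2
      have := Int.toNat_of_nonneg (M_nonneg E')
      exact_mod_cast this
    have hKK : 1 ≤ 2 ^ v * K := by
      have : (1 : ℝ) ≤ 2 ^ v := one_le_pow₀ (by norm_num)
      nlinarith
    have := log_calc (a := H.m) (b := H.n) hqR hKK hn1 hn1' hn2 hn2' hlow hup
    have hr : ((r H : ℕ) : ℝ) = 2 * (H.m + H.n) - (M H.E : ℝ) := by
      have := r_eq H
      exact_mod_cast this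
    have htB : tB H G = (homCount H G : ℝ) / (((q ^ 2 + d ^ 2 : ℕ) : ℝ) ^ H.m *
        ((q ^ 2 + d ^ 3 : ℕ) : ℝ) ^ H.n) := by
      unfold tB
      rw [← hGm, ← hGn]
    rw [← htB, ← hr] at this
    refine this.trans ?_
    rw [hε, one_div, inv_mul_eq_div, ← hv, hK]
    linarith
  · have hlow : (q : ℝ) ^ ((3 : ℝ) - ε) ≤ (homCount K2 G' : ℝ) := by
      rw [hG', homCount_toBip]
      have h1 := hom_inl_le edgeK R (stars d)
      rw [hom_edge] at h1
      refine le_trans (by simpa using hRK.1) ?_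
      exact_mod_cast h1
    have hup : (homCount K2 G' : ℝ) ≤ 2 * (q : ℝ) ^ ((3 : ℝ) + ε) := by
      rw [hG', homCount_toBip]
      have h0 : hom K2.E (dsum R (stars d)) = (dsum R (stars d)).card := hom_edge _
      rw [h0]
      have h1 := card_dsum_le R (stars d)
      have h2 : (stars d).card ≤ d ^ 3 := by
        rw [← card_lv d hp, ← Finset.card_univ]
        refine Finset.card_le_card_of_injOn Prod.snd (fun _ _ => by simp) ?_
        rintro ⟨x, y⟩ hx ⟨x', y'⟩ hx' he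
        simp only [stars, coe_filter, mem_univ, true_and, Set.mem_setOf_eq] at hx hx' he
        subst he
        rw [← hx, ← hx']
      have h3 : ((dsum R (stars d)).card : ℝ) ≤ R.card + (q : ℝ) ^ 2 := by
        exact_mod_cast h1.trans (Nat.add_le_add_left (h2.trans h32) _)
      have h4 : (q : ℝ) ^ 2 ≤ (q : ℝ) ^ ((3 : ℝ) + ε) := by
        rw [← Real.rpow_natCast]
        exact Real.rpow_le_rpow_of_exponent_le hqR (by push_cast; linarith)
      have h5 : (R.card : ℝ) ≤ (q : ℝ) ^ ((3 : ℝ) + ε) := by simpa using hRK.2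
      linarith
    have := log_calc (a := 1) (b := 1) hqR (by norm_num : (1 : ℝ) ≤ 2) hn1 hn1' hn2 hn2' hlow hup
    have htB : tB K2 G' = (homCount K2 G' : ℝ) / (((q ^ 2 + d ^ 2 : ℕ) : ℝ) ^ 1 *
        ((q ^ 2 + d ^ 3 : ℕ) : ℝ) ^ 1) := by
      unfold tB
      rw [← hG'm, ← hG'n]
      rfl
    rw [← htB] at this
    have e1 : (2 * (((1 : ℕ) : ℝ) + ((1 : ℕ) : ℝ)) - 3) * Real.log q = L := by
      rw [← hL]; push_cast; ring
    rw [e1] at this
    refine this.trans ?_
    have e2 : (0 : ℝ) ≤ Real.log (2 ^ 2 * ((2 : ℕ) + 1) ^ 2) := Real.log_nonneg (by norm_num)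
    rw [← hL, hε, one_div, inv_mul_eq_div]
    push_cast at e2 ⊢
    generalize Real.log (2 ^ 2 * (2 + 1) ^ 2) = Z at *
    linarith
  · -- the star
    have hhom : (d ^ 2) ^ 80 ≤ homCount star80 G' := by
      rw [hG', homCount_toBip]
      have h1 : Nat.card (Fin 80 → Fin (d ^ 2)) = (d ^ 2) ^ 80 := by
        rw [Nat.card_eq_fintype_card, Fintype.card_fun, Fintype.card_fin, Fintype.card_fin]
      rw [← h1]
      unfold hom
      have h0 : lv d 0 = d ^ 2 := by simp [lv]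
      refine Nat.card_le_card_of_injective (fun φ => ⟨(fun _ => Sum.inr 0,
        fun b => Sum.inr ⟨0, Fin.cast h0.symm (φ b)⟩), ?_⟩) ?_
      · intro e _
        exact mem_dsum_inr (mem_filter.2 ⟨mem_univ _, rfl⟩)
      · intro φ φ' he
        funext b
        have h := congrFun (congrArg Prod.snd (Subtype.mk.inj he)) b
        have h2 := Sum.inr.inj h
        have h3 := eq_of_heq (Sigma.mk.inj h2).2
        exact Fin.cast_injective _ h3
    have hdR : (1 : ℝ) ≤ d := by exact_mod_cast hd1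
    have hlogd : (20 / 39) * (L - Real.log 2) ≤ Real.log d := by
      have h1 : ((q : ℝ)) ^ 20 ≤ 2 ^ 20 * (d : ℝ) ^ 39 := by exact_mod_cast hq20
      have h2 := Real.log_le_log (by positivity) h1
      rw [Real.log_mul (by norm_num) (by positivity), Real.log_pow, Real.log_pow, Real.log_pow] at h2
      push_cast at h2
      rw [← hL] at h2
      linarith
    have h1 : Real.log (tB star80 G') = Real.log (homCount star80 G' : ℝ) -
        (Real.log ((q ^ 2 + d ^ 2 : ℕ) : ℝ) + 80 * Real.log ((q ^ 2 + d ^ 3 : ℕ) : ℝ)) := by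
      unfold tB
      rw [hG'm, hG'n]
      have hx : (0 : ℝ) < homCount star80 G' := by
        have : 0 < (d ^ 2) ^ 80 := by positivity
        exact_mod_cast lt_of_lt_of_le this hhom
      have hp1 : (0 : ℝ) < ((q ^ 2 + d ^ 2 : ℕ) : ℝ) := lt_of_lt_of_le (by positivity) hn1
      have hp2 : (0 : ℝ) < ((q ^ 2 + d ^ 3 : ℕ) : ℝ) := lt_of_lt_of_le (by positivity) hn2
      rw [Real.log_div hx.ne' (by positivity), Real.log_mul (by positivity) (by positivity),
        Real.log_pow, Real.log_pow]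
      simp [star80]
    have h2 : 160 * Real.log d ≤ Real.log (homCount star80 G' : ℝ) := by
      have h3 : ((d : ℝ) ^ 2) ^ 80 ≤ (homCount star80 G' : ℝ) := by exact_mod_cast hhom
      have h4 := Real.log_le_log (by positivity) h3
      rw [← pow_mul, Real.log_pow] at h4
      push_cast at h4
      linarith
    have h3 : Real.log ((q ^ 2 + d ^ 2 : ℕ) : ℝ) ≤ Real.log 2 + 2 * L := by
      have := Real.log_le_log (lt_of_lt_of_le (by positivity) hn1) hn1'
      rwa [Real.log_mul (by norm_num) (by positivity), Real.log_pow, Nat.cast_ofNat] at this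
    have h4 : Real.log ((q ^ 2 + d ^ 3 : ℕ) : ℝ) ≤ Real.log 2 + 2 * L := by
      have := Real.log_le_log (lt_of_lt_of_le (by positivity) hn2) hn2'
      rwa [Real.log_mul (by norm_num) (by positivity), Real.log_pow, Nat.cast_ofNat] at this
    have e2 : (0 : ℝ) ≤ Real.log (2 ^ 81 * ((81 : ℕ) + 1) ^ 81) := Real.log_nonneg (by norm_num)
    rw [h1]
    have e3 : (fun v : ℕ => (v : ℝ) * Real.log 2 + Real.log (2 ^ v * ((v : ℝ) + 1) ^ v) + 200) 81 =
        81 * Real.log 2 + Real.log (2 ^ 81 * (((81 : ℕ) : ℝ) + 1) ^ 81) + 200 := by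
      simp only []
      norm_cast
    rw [e3]
    generalize Real.log (2 ^ 81 * (((81 : ℕ) : ℝ) + 1) ^ 81) = Z at *
    linarith

end Pool.Agent.R97.QL
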