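import Mathlib

/-! Quasirandom log-limit and spectra (MP_8fd344_co): basic notions.
Paper proof by helper86 (Pool/Agent/R86/notes_MP_8fd344_co.md). -/

open Finset
open scoped Classical

namespace Pool.Agent.R97.QL

/-- number of class preserving homomorphisms from the bipartite graph `E` to the bipartite
graph `F` -/
noncomputable def hom {α β γ δ : Type} (E : Finset (α × β)) (F : Finset (γ × δ)) : ℕ :=
  Nat.card {p : (α → γ) × (β → δ) // ∀ e ∈ E, (p.1 e.1, p.2 e.2) ∈ F}

/-- twice the number of image vertices minus the number of image edges -/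
noncomputable def val {α β γ δ : Type} [Fintype α] [Fintype β] (E : Finset (α × β))
    (f : α → γ) (g : β → δ) : ℤ :=
  2 * (((univ.image f).card : ℤ) + ((univ.image g).card : ℤ))
    - ((E.image (Prod.map f g)).card : ℤ)

/-- the largest value -/
noncomputable def M {α β : Type} [Fintype α] [Fintype β] (E : Finset (α × β)) : ℤ :=
  (univ : Finset ((α → α) × (β → β))).sup' ⟨(id, id), mem_univ _⟩ (fun p => val E p.1 p.2)

theorem card_image_le_of_factor {ι κ κ' : Type} [DecidableEq κ] [DecidableEq κ'] (T : Finset ι) (f : ι → κ) (f' : ι → κ')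
    (h : ∀ a ∈ T, ∀ b ∈ T, f a = f b → f' a = f' b) :
    (T.image f').card ≤ (T.image f).card := by
  have hex : ∀ y ∈ T.image f', ∃ t, t ∈ T ∧ f' t = y := fun y hy => by simpa using hy
  rcases T.eq_empty_or_nonempty with hT | ⟨t0, ht0⟩
  · subst hT; simp
  set t : κ' → ι := fun y => if hy : y ∈ T.image f' then (hex y hy).choose else t0 with ht
  have h1 : ∀ y, (hy : y ∈ T.image f') → t y ∈ T ∧ f' (t y) = y := by
    intro y hy
    simp only [ht, dif_pos hy]
    exact (hex y hy).choose_spec
  refine Finset.card_le_card_of_injOn (fun y => f (t y)) ?_ ?_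
  · intro y hy
    exact mem_coe.2 (mem_image_of_mem f (h1 y (mem_coe.1 hy)).1)
  · intro y hy z hz hyz
    have a := h1 y (mem_coe.1 hy)
    have b := h1 z (mem_coe.1 hz)
    rw [← a.2, ← b.2]
    exact h _ a.1 _ b.1 hyz

theorem card_image_eq_of_ker {ι κ κ' : Type} [DecidableEq κ] [DecidableEq κ'] (T : Finset ι) (f : ι → κ) (f' : ι → κ')
    (h : ∀ a b, f a = f b ↔ f' a = f' b) :
    (T.image f').card = (T.image f).card :=
  le_antisymm (card_image_le_of_factor T f f' fun a _ b _ => (h a b).1)
    (card_image_le_of_factor T f' f fun a _ b _ => (h a b).2)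

/-- canonical representatives of the fibres of `f` -/
noncomputable def rep {α γ : Type} (f : α → γ) : α → α :=
  fun a => Classical.choose (⟨a, rfl⟩ : ∃ a', f a' = f a)

theorem f_rep {α γ : Type} (f : α → γ) (a : α) : f (rep f a) = f a :=
  Classical.choose_spec (⟨a, rfl⟩ : ∃ a', f a' = f a)

theorem rep_eq {α γ : Type} (f : α → γ) {a b : α} (h : f a = f b) : rep f a = rep f b := by
  unfold rep
  congr 1
  funext x
  rw [h]

theorem rep_ker {α γ : Type} (f : α → γ) (a b : α) : f a = f b ↔ rep f a = rep f b :=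
  ⟨rep_eq f, fun h => by rw [← f_rep f a, ← f_rep f b, h]⟩

theorem val_eq_of_ker {α β γ δ γ' δ' : Type} [Fintype α] [Fintype β] (E : Finset (α × β))
    (f : α → γ) (g : β → δ) (f' : α → γ') (g' : β → δ')
    (hf : ∀ a b, f a = f b ↔ f' a = f' b) (hg : ∀ a b, g a = g b ↔ g' a = g' b) :
    val E f' g' = val E f g := by
  unfold val
  rw [card_image_eq_of_ker univ f f' hf, card_image_eq_of_ker univ g g' hg,
    card_image_eq_of_ker E (Prod.map f g) (Prod.map f' g')]
  intro a b
  simp only [Prod.map, Prod.mk.injEq, hf, hg]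

theorem val_le_M {α β γ δ : Type} [Fintype α] [Fintype β] (E : Finset (α × β))
    (f : α → γ) (g : β → δ) : val E f g ≤ M E := by
  rw [← val_eq_of_ker E f g (rep f) (rep g) (rep_ker f) (rep_ker g)]
  exact Finset.le_sup' (fun p : (α → α) × (β → β) => val E p.1 p.2) (mem_univ (rep f, rep g))

theorem exists_M {α β : Type} [Fintype α] [Fintype β] (E : Finset (α × β)) :
    ∃ (f : α → α) (g : β → β), val E f g = M E := by
  obtain ⟨p, _, hp⟩ := Finset.exists_mem_eq_sup' (s := (univ : Finset ((α → α) × (β → β))))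
    ⟨(id, id), mem_univ _⟩ (fun p => val E p.1 p.2)
  exact ⟨p.1, p.2, hp.symm⟩

theorem M_le {α β : Type} [Fintype α] [Fintype β] (E : Finset (α × β)) (c : ℤ)
    (h : ∀ (f : α → α) (g : β → β), val E f g ≤ c) : M E ≤ c := by
  obtain ⟨f, g, hfg⟩ := exists_M E
  rw [← hfg]; exact h f g

/-- transport along bijections -/
theorem M_map {α β α' β' : Type} [Fintype α] [Fintype β] [Fintype α'] [Fintype β']
    (E : Finset (α × β)) (e1 : α ≃ α') (e2 : β ≃ β') :
    M (E.map (e1.prodCongr e2).toEmbedding) = M E := by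
  have key : ∀ {α β α' β' γ δ : Type} [Fintype α] [Fintype β] [Fintype α'] [Fintype β']
      (E : Finset (α × β)) (e1 : α ≃ α') (e2 : β ≃ β') (f : α' → γ) (g : β' → δ),
      val (E.map (e1.prodCongr e2).toEmbedding) f g = val E (f ∘ e1) (g ∘ e2) := by
    intro α β α' β' γ δ _ _ _ _ E e1 e2 f g
    unfold val
    have h1 : univ.image f = univ.image (f ∘ e1) := by
      ext x; simp only [mem_image, mem_univ, true_and, Function.comp]
      exact ⟨fun ⟨a, ha⟩ => ⟨e1.symm a, by simpa using ha⟩, fun ⟨a, ha⟩ => ⟨_, ha⟩⟩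
    have h2 : univ.image g = univ.image (g ∘ e2) := by
      ext x; simp only [mem_image, mem_univ, true_and, Function.comp]
      exact ⟨fun ⟨a, ha⟩ => ⟨e2.symm a, by simpa using ha⟩, fun ⟨a, ha⟩ => ⟨_, ha⟩⟩
    rw [h1, h2]
    congr 3
    rw [Finset.map_eq_image, Finset.image_image]
    rfl
  apply le_antisymm
  · apply M_le
    intro f g
    rw [key]
    exact val_le_M _ _ _
  · obtain ⟨f, g, hfg⟩ := exists_M E
    rw [← hfg]
    have := key E e1 e2 (f ∘ e1.symm) (g ∘ e2.symm)
    have h3 : val E ((f ∘ e1.symm) ∘ e1) ((g ∘ e2.symm) ∘ e2) = val E f g := by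
      congr 1 <;> funext x <;> simp
    rw [← h3, ← this]
    exact val_le_M _ _ _

theorem hom_map {α β α' β' γ δ : Type} 
    (E : Finset (α × β)) (F : Finset (γ × δ)) (e1 : α ≃ α') (e2 : β ≃ β') :
    hom (E.map (e1.prodCongr e2).toEmbedding) F = hom E F := by
  unfold hom
  refine Nat.card_congr ?_
  refine Equiv.subtypeEquiv
    ((Equiv.arrowCongr e1.symm (Equiv.refl γ)).prodCongr (Equiv.arrowCongr e2.symm (Equiv.refl δ)))
    ?_
  intro p
  simp only [mem_map, Prod.forall]
  constructor
  · intro h a b hab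
    exact h (e1 a) (e2 b) ⟨(a, b), hab, rfl⟩
  · rintro h a b ⟨⟨x, y⟩, hxy, he⟩
    simp at he
    have := h x y hxy
    rw [← he.1, ← he.2]
    simpa using this

/-- transport of the target along bijections -/
theorem hom_map_right {α β γ δ γ' δ' : Type} 
    (E : Finset (α × β)) (F : Finset (γ × δ)) (e1 : γ ≃ γ') (e2 : δ ≃ δ') :
    hom E (F.map (e1.prodCongr e2).toEmbedding) = hom E F := by
  unfold hom
  symm
  refine Nat.card_congr ?_
  refine Equiv.subtypeEquiv
    ((Equiv.arrowCongr (Equiv.refl α) e1).prodCongr (Equiv.arrowCongr (Equiv.refl β) e2))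
    ?_
  intro p
  simp only [mem_map, Prod.forall]
  constructor
  · intro h a b hab
    exact ⟨_, h a b hab, rfl⟩
  · intro h a b hab
    obtain ⟨⟨x, y⟩, hxy, he⟩ := h a b hab
    simp at he
    rw [← he.1, ← he.2]
    exact hxy

theorem one_le_card_image {α γ : Type} [Fintype α] [DecidableEq γ] (f : α → γ) (a : α) :
    1 ≤ (univ.image f).card :=
  Finset.card_pos.2 ⟨f a, mem_image_of_mem _ (mem_univ _)⟩

theorem card_image_le_one {ι κ : Type} [DecidableEq κ] [Subsingleton κ] (T : Finset ι)
    (f : ι → κ) : (T.image f).card ≤ 1 :=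
  Finset.card_le_one_of_subsingleton _

theorem M_nonneg {α β : Type} [Fintype α] [Fintype β] (E : Finset (α × β)) : 0 ≤ M E := by
  have aux : ∀ (γ δ : Type) [Subsingleton γ] [Subsingleton δ] (c : γ) (d : δ),
      0 ≤ val E (fun _ => c) (fun _ => d) := by
    intro γ δ _ _ c d
    unfold val
    rcases E.eq_empty_or_nonempty with h | ⟨e, he⟩
    · subst h; simp; positivity
    · have key : ∀ x y z : ℕ, 1 ≤ x → 1 ≤ y → z ≤ 1 → (0:ℤ) ≤ 2 * ((x:ℤ) + y) - z := by
        intros; omega
      exact key _ _ _ (one_le_card_image _ e.1) (one_le_card_image _ e.2) (card_image_le_one _ _)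
  exact (aux Unit Unit () ()).trans (val_le_M E _ _)

end Pool.Agent.R97.QL
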