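import Pool.Agent.R97.QL.Data

/-! MP_8fd344_co: the final deduction. -/

open Finset Filter Topology Matrix
open scoped Classical

namespace Pool.Agent.R97.QL

open BipGraph

theorem lim_aux (x L : ℕ → ℝ) (ρ C : ℝ) (hnL : ∀ n : ℕ, (n : ℝ) ≤ L n) (hL0 : ∀ n, 0 < L n)
    (N : ℕ) (hx : ∀ n : ℕ, N ≤ n → |x n + ρ * L n| ≤ L n / (n + 1) + C) :
    Tendsto (fun n => x n / L n) atTop (𝓝 (-ρ)) := by
  have hLinf : Tendsto L atTop atTop := tendsto_atTop_mono hnL tendsto_natCast_atTop_atTop
  have h1 : Tendsto (fun n : ℕ => (1 : ℝ) / ((n : ℝ) + 1) + C / L n) atTop (𝓝 0) := by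
    have := (tendsto_one_div_add_atTop_nhds_zero_nat (𝕜 := ℝ)).add
      (hLinf.const_div_atTop C)
    simpa using this
  rw [tendsto_iff_norm_sub_tendsto_zero]
  refine squeeze_zero' (Eventually.of_forall fun n => norm_nonneg _) ?_ h1
  filter_upwards [eventually_ge_atTop N] with n hn
  have h2 := hx n hn
  have h3 : x n / L n - -ρ = (x n + ρ * L n) / L n := by
    have := (hL0 n).ne'
    field_simp
    ring
  rw [h3, Real.norm_eq_abs, abs_div, abs_of_pos (hL0 n), div_le_iff₀ (hL0 n)]
  refine h2.trans (le_of_eq ?_)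
  have := (hL0 n).ne'
  field_simp

theorem r_K2 : r K2 = 1 := by
  have h1 := r_eq K2
  have h2 : M K2.E = 3 := M_edge
  rw [h2] at h1
  have h3 : K2.m = 1 := rfl
  have h4 : K2.n = 1 := rfl
  rw [h3, h4] at h1
  omega

theorem r_star : 80 ≤ r star80 := by
  have h1 := r_eq star80
  have h2 : M star80.E ≤ 82 := by
    apply M_le
    intro f g
    rw [val_def']
    have e1 : (univ.image f).card ≤ 1 := card_image_le.trans (by simp [star80])
    have e2 : (univ.image g).card ≤ 80 := card_image_le.trans (by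
      rw [Finset.card_univ]
      exact (Fintype.card_fin 80).le)
    have e3 : (univ.image g).card ≤ (star80.E.image (Prod.map f g)).card := by
      refine Finset.card_le_card_of_surjOn Prod.snd ?_
      intro y hy
      obtain ⟨b, _, rfl⟩ := mem_image.1 (mem_coe.1 hy)
      refine ⟨(f ⟨0, by decide⟩, g b), ?_, rfl⟩
      exact mem_coe.2 (mem_image.2 ⟨(⟨0, by decide⟩, b), mem_univ _, rfl⟩)
    omega
  have h3 : star80.m = 1 := rfl
  have h4 : star80.n = 80 := rfl
  omega

theorem fin : S_Fin := by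
  rintro ⟨C, hC⟩
  choose G G' L hnL hL0 hne hne' hsp hH hK hS using hC
  have hLinf : Tendsto L atTop atTop := tendsto_atTop_mono hnL tendsto_natCast_atTop_atTop
  refine ⟨G, G', fun k => ⟨hne k, hne' k, hsp k⟩, ?_, ?_⟩
  · intro H _
    have h1 : Tendsto (fun n => Real.log (tB H (G n)) / L n) atTop (𝓝 (-(r H : ℝ))) :=
      lim_aux _ L (r H) (C (H.m + H.n)) hnL hL0 (max H.m H.n) (fun n hn =>
        hH n H ((le_max_left _ _).trans hn) ((le_max_right _ _).trans hn))
    have h2 : Tendsto (fun n => Real.log (tB K2 (G n)) / L n) atTop (𝓝 (-((1 : ℕ) : ℝ))) := by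
      have := lim_aux (fun n => Real.log (tB K2 (G n))) L (r K2) (C (K2.m + K2.n)) hnL hL0 1
        (fun n hn => hH n K2 hn hn)
      rwa [r_K2] at this
    have h3 := h1.div h2 (by norm_num)
    have h4 : -(r H : ℝ) / -((1 : ℕ) : ℝ) = r H := by norm_num
    rw [h4] at h3
    refine h3.congr' ?_
    have h5 : ∀ᶠ n in atTop, Real.log (tB K2 (G n)) / L n < -1 / 2 :=
      h2.eventually_lt_const (by norm_num)
    filter_upwards [h5] with n hn
    have hs : Real.log (tB K2 (G n)) ≠ 0 := by
      intro h0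
      rw [h0, zero_div] at hn
      linarith
    have hs1 : tB K2 (G n) ≠ 1 := by
      intro h1
      rw [h1, Real.log_one] at hs
      exact hs rfl
    unfold h
    rw [if_neg hs1]
    have := (hL0 n).ne'
    simp only [Pi.div_apply]
    field_simp
  · intro hG'
    have h1 := hG' star80 ⟨(⟨0, by decide⟩, ⟨0, by decide⟩), mem_univ _⟩
    have h2 : Tendsto (fun n => Real.log (tB K2 (G' n)) / L n) atTop (𝓝 (-1)) :=
      lim_aux (fun n => Real.log (tB K2 (G' n))) L 1 (C 2) hnL hL0 0
        (fun n _ => by simpa using hK n)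
    have h3 := h1.mul h2
    have h5 : ∀ᶠ n in atTop, Real.log (tB K2 (G' n)) / L n < -1 / 2 :=
      h2.eventually_lt_const (by norm_num)
    have h6 : Tendsto (fun n => (3200 / 39 - 162 : ℝ) - C 81 / L n) atTop
        (𝓝 ((3200 / 39 - 162 : ℝ) - 0)) :=
      tendsto_const_nhds.sub (hLinf.const_div_atTop _)
    have h7 : (3200 / 39 - 162 : ℝ) - 0 ≤ (r star80 : ℝ) * -1 := by
      refine le_of_tendsto_of_tendsto h6 h3 ?_
      filter_upwards [h5] with n hn
      have hs : Real.log (tB K2 (G' n)) ≠ 0 := by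
        intro h0
        rw [h0, zero_div] at hn
        linarith
      have hs1 : tB K2 (G' n) ≠ 1 := by
        intro h1
        rw [h1, Real.log_one] at hs
        exact hs rfl
      unfold h
      rw [if_neg hs1]
      have hLn := hL0 n
      have e1 : Real.log (tB star80 (G' n)) / Real.log (tB K2 (G' n)) *
          (Real.log (tB K2 (G' n)) / L n) = Real.log (tB star80 (G' n)) / L n := by
        field_simp
      rw [e1, le_div_iff₀ hLn, sub_mul, div_mul_cancel₀ _ hLn.ne']
      exact hS n
    have h8 : (80 : ℝ) ≤ r star80 := by exact_mod_cast r_star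
    linarith

end Pool.Agent.R97.QL
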