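import Pool.Agent.R97.QL.Defs

/-! MP_8fd344_co: counting injective homomorphisms into a linear space graph. -/

open Finset
open scoped Classical

namespace Pool.Agent.R97.QL

section
variable {V P : Type} [Fintype V] [Fintype P]

/-- injective class preserving homomorphisms on `W`, with values in `Γ`, equal to `p0`
outside `W` -/
noncomputable def NH (c : V → Bool) (A : V → V → Prop) (k : P → Bool) (T : P → P → Prop)
    (p0 : P) (Γ : Finset P) (W : Finset V) : Finset (V → P) :=
  univ.filter fun φ => (∀ v, v ∉ W → φ v = p0) ∧ (∀ v ∈ W, φ v ∈ Γ ∧ k (φ v) = c v) ∧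
    Set.InjOn φ (W : Set V) ∧ ∀ u ∈ W, ∀ v ∈ W, A u v → T (φ u) (φ v)

variable (c : V → Bool) (A : V → V → Prop) (k : P → Bool) (T : P → P → Prop) (p0 : P)
  (Γ : Finset P)

theorem NH_empty : (NH c A k T p0 Γ ∅).card ≤ 1 := by
  rw [Finset.card_le_one]
  intro a ha b hb
  simp only [NH, mem_filter] at ha hb
  funext v
  rw [ha.2.1 v (by simp), hb.2.1 v (by simp)]

theorem NH_step {W : Finset V} {w : V} (hw : w ∉ W) (t : ℕ)
    (ht : ∀ φ ∈ NH c A k T p0 Γ W,
      (Γ.filter fun p => k p = c w ∧ ∀ u ∈ W, A w u → T p (φ u)).card ≤ t) :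
    (NH c A k T p0 Γ (insert w W)).card ≤ t * (NH c A k T p0 Γ W).card := by
  refine Finset.card_le_mul_card_image_of_maps_to (f := fun φ => Function.update φ w p0) ?_ t ?_
  · intro φ hφ
    simp only [NH, mem_filter, mem_univ, true_and] at hφ ⊢
    obtain ⟨h1, h2, h3, h4⟩ := hφ
    have hne : ∀ v ∈ W, v ≠ w := fun v hv h => hw (h ▸ hv)
    refine ⟨?_, ?_, ?_, ?_⟩
    · intro v hv
      by_cases h : v = w
      · subst h; simp
      · rw [Function.update_of_ne h]
        exact h1 v (by simp [h, hv])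
    · intro v hv
      rw [Function.update_of_ne (hne v hv)]
      exact h2 v (mem_insert_of_mem hv)
    · intro u hu v hv huv
      have hu' := mem_coe.1 hu
      have hv' := mem_coe.1 hv
      rw [Function.update_of_ne (hne u hu'), Function.update_of_ne (hne v hv')] at huv
      exact h3 (mem_coe.2 (mem_insert_of_mem hu')) (mem_coe.2 (mem_insert_of_mem hv')) huv
    · intro u hu v hv huv
      rw [Function.update_of_ne (hne u hu), Function.update_of_ne (hne v hv)]
      exact h4 u (mem_insert_of_mem hu) v (mem_insert_of_mem hv) huv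
  · intro ψ hψ
    refine le_trans ?_ (ht ψ hψ)
    refine Finset.card_le_card_of_injOn (fun φ => φ w) ?_ ?_
    · intro φ hφ
      simp only [NH, coe_filter, mem_univ, true_and, mem_filter, Set.mem_setOf_eq] at hφ ⊢
      obtain ⟨⟨h1, h2, h3, h4⟩, h5⟩ := hφ
      refine ⟨(h2 w (mem_insert_self _ _)).1, (h2 w (mem_insert_self _ _)).2, ?_⟩
      intro u hu hwu
      have := h4 w (mem_insert_self _ _) u (mem_insert_of_mem hu) hwu
      rw [← h5, Function.update_of_ne (fun h : u = w => hw (h ▸ hu))]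
      exact this
    · intro φ hφ φ' hφ' he
      simp only [coe_filter, Set.mem_setOf_eq] at hφ hφ'
      funext v
      by_cases h : v = w
      · subst h; exact he
      · have h1 := congrFun hφ.2 v
        have h2 := congrFun hφ'.2 v
        simp only [Function.update_of_ne h] at h1 h2
        rw [h1, h2]

/-- neighbours of `w` in `X` -/
noncomputable def nb (A : V → V → Prop) (w : V) (X : Finset V) : Finset V := X.filter (A w)

theorem nb_mono {A : V → V → Prop} {w : V} {X Y : Finset V} (h : X ⊆ Y) : nb A w X ⊆ nb A w Y :=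
  Finset.filter_subset_filter _ h

/-- darts inside `X` -/
noncomputable def darts (A : V → V → Prop) (X : Finset V) : Finset (V × V) :=
  (X ×ˢ X).filter fun e => A e.1 e.2

theorem darts_insert {A : V → V → Prop} (hs : ∀ u v, A u v → A v u) (hirr : ∀ u, ¬ A u u)
    {X : Finset V} {w : V} (hw : w ∉ X) :
    (darts A (insert w X)).card = (darts A X).card + 2 * (nb A w X).card := by
  have h1 : darts A (insert w X) = darts A X ∪
      ((nb A w X).image (fun u => (w, u)) ∪ (nb A w X).image (fun u => (u, w))) := by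
    ext ⟨u, v⟩
    simp only [darts, nb, mem_filter, mem_product, mem_insert, mem_union, mem_image, Prod.mk.injEq]
    constructor
    · rintro ⟨⟨hu, hv⟩, h⟩
      rcases hu with rfl | hu
      · rcases hv with rfl | hv
        · exact absurd h (hirr _)
        · exact Or.inr (Or.inl ⟨v, ⟨hv, h⟩, rfl, rfl⟩)
      · rcases hv with rfl | hv
        · exact Or.inr (Or.inr ⟨u, ⟨hu, hs _ _ h⟩, rfl, rfl⟩)
        · exact Or.inl ⟨⟨hu, hv⟩, h⟩
    · rintro (⟨⟨hu, hv⟩, h⟩ | ⟨x, ⟨hx, h⟩, rfl, rfl⟩ | ⟨x, ⟨hx, h⟩, rfl, rfl⟩)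
      · exact ⟨⟨Or.inr hu, Or.inr hv⟩, h⟩
      · exact ⟨⟨Or.inl rfl, Or.inr hx⟩, h⟩
      · exact ⟨⟨Or.inr hx, Or.inl rfl⟩, hs _ _ h⟩
  rw [h1, card_union_of_disjoint, card_union_of_disjoint, card_image_of_injective,
    card_image_of_injective]
  · ring
  · intro a b h; simpa using h
  · intro a b h; simpa using h
  · rw [Finset.disjoint_left]
    rintro ⟨x, y⟩ h2 h3
    simp only [mem_image, Prod.mk.injEq, nb, mem_filter] at h2 h3
    obtain ⟨u, ⟨hu, _⟩, rfl, rfl⟩ := h2
    obtain ⟨v, ⟨hv, _⟩, rfl, _⟩ := h3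
    exact hw hv
  · rw [Finset.disjoint_left]
    rintro ⟨x, y⟩ h2 h3
    simp only [mem_image, Prod.mk.injEq, nb, mem_filter, mem_union, darts, mem_product] at h2 h3
    obtain ⟨⟨hx, hy⟩, _⟩ := h2
    rcases h3 with ⟨u, ⟨hu, _⟩, rfl, rfl⟩ | ⟨u, ⟨hu, _⟩, rfl, rfl⟩
    · exact hw hx
    · exact hw hy

/-- hypotheses on the target -/
structure Tgt (k : P → Bool) (T : P → P → Prop) (Γ : Finset P) (D d : ℕ) : Prop where
  sz : ∀ b, (Γ.filter fun p => k p = b).card ≤ D
  deg : ∀ x, (Γ.filter fun p => T p x).card ≤ d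
  lin : ∀ x y, x ≠ y → k x = k y → (Γ.filter fun p => T p x ∧ T p y).card ≤ 1

/-- the number of choices for a vertex with `j` neighbours already placed -/
def tau (D d j : ℕ) : ℕ := if j = 0 then D else if j = 1 then d else 1

variable {c A k T p0 Γ}

theorem NH_insert {D d : ℕ} (hT : Tgt k T Γ D d) (hc : ∀ u v, A u v → c u ≠ c v)
    {W : Finset V} {w : V} (hw : w ∉ W) :
    (NH c A k T p0 Γ (insert w W)).card ≤ tau D d (nb A w W).card *
      (NH c A k T p0 Γ W).card := by
  apply NH_step _ _ _ _ _ _ hw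
  intro φ hφ
  unfold tau
  split_ifs with h0 h1
  · refine (card_le_card ?_).trans (hT.sz (c w))
    intro p hp
    simp only [mem_filter] at hp ⊢
    exact ⟨hp.1, hp.2.1⟩
  · rw [Finset.card_eq_one] at h1
    obtain ⟨u, hu⟩ := h1
    have hu' : u ∈ nb A w W := by rw [hu]; simp
    simp only [nb, mem_filter] at hu'
    refine (card_le_card ?_).trans (hT.deg (φ u))
    intro p hp
    simp only [mem_filter] at hp ⊢
    exact ⟨hp.1, hp.2.2 u hu'.1 hu'.2⟩
  · have h2 : 1 < (nb A w W).card := by omega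
    rw [Finset.one_lt_card] at h2
    obtain ⟨u, hu, v, hv, huv⟩ := h2
    simp only [nb, mem_filter] at hu hv
    simp only [NH, mem_filter, mem_univ, true_and] at hφ
    obtain ⟨g1, g2, g3, g4⟩ := hφ
    have hcu : c u = c v := by
      have := hc _ _ hu.2
      have := hc _ _ hv.2
      cases h : c w <;> cases h' : c u <;> cases h'' : c v <;> simp_all
    refine (card_le_card ?_).trans (hT.lin (φ u) (φ v)
      (fun h => huv (g3 (mem_coe.2 hu.1) (mem_coe.2 hv.1) h)) ?_)
    · intro p hp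
      simp only [mem_filter] at hp ⊢
      exact ⟨hp.1, hp.2.2 u hu.1 hu.2, hp.2.2 v hv.1 hv.2⟩
    · rw [(g2 u hu.1).2, (g2 v hv.1).2, hcu]

theorem tau_eq (d j : ℕ) : tau (d ^ 2) d j = d ^ (2 - j) := by
  unfold tau
  split_ifs with h0 h1
  · subst h0; simp
  · subst h1; simp
  · have : 2 - j = 0 := by omega
    rw [this, pow_zero]

/-- adding a set of vertices -/
theorem NH_add {d : ℕ} (hd : 1 ≤ d) (hT : Tgt k T Γ (d ^ 2) d) (hc : ∀ u v, A u v → c u ≠ c v)
    (X S : Finset V) (hXS : Disjoint X S) (κ : V → ℕ)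
    (hκ : ∀ w ∈ S, 2 ≤ κ w + (nb A w X).card) :
    (NH c A k T p0 Γ (X ∪ S)).card ≤ d ^ (∑ w ∈ S, κ w) * (NH c A k T p0 Γ X).card := by
  induction S using Finset.induction_on with
  | empty => simp
  | insert w S hw ih =>
    have h1 := ih (hXS.mono_right (subset_insert _ _)) (fun v hv => hκ v (mem_insert_of_mem hv))
    have hwX : w ∉ X ∪ S := by
      rw [mem_union, not_or]
      exact ⟨fun h => Finset.disjoint_left.1 hXS h (mem_insert_self _ _), hw⟩
    have h2 := NH_insert (p0 := p0) hT hc hwX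
    rw [union_insert, Finset.sum_insert hw, pow_add]
    rw [tau_eq] at h2
    have h3 : d ^ (2 - (nb A w (X ∪ S)).card) ≤ d ^ κ w := by
      apply Nat.pow_le_pow_right hd
      have := hκ w (mem_insert_self _ _)
      have h4 : (nb A w X).card ≤ (nb A w (X ∪ S)).card := card_le_card (nb_mono subset_union_left)
      omega
    calc _ ≤ _ := h2
      _ ≤ d ^ κ w * (d ^ (∑ w ∈ S, κ w) * (NH c A k T p0 Γ X).card) := Nat.mul_le_mul h3 h1
      _ = _ := by ring

/-- adding vertices of degree at most two, keeping track of edges -/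
theorem NH_add2 {d : ℕ} (hd : 1 ≤ d) (hT : Tgt k T Γ (d ^ 2) d) (hc : ∀ u v, A u v → c u ≠ c v)
    (hs : ∀ u v, A u v → A v u)
    (W X S : Finset V) (hXS : Disjoint X S) (hW : X ∪ S ⊆ W)
    (hdeg : ∀ w ∈ S, (nb A w W).card ≤ 2) :
    (NH c A k T p0 Γ (X ∪ S)).card ^ 2 * d ^ (darts A (X ∪ S)).card ≤
      d ^ (4 * S.card) * ((NH c A k T p0 Γ X).card ^ 2 * d ^ (darts A X).card) := by
  induction S using Finset.induction_on with
  | empty => simp
  | insert w S hw ih =>
    have h1 := ih (hXS.mono_right (subset_insert _ _))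
      (fun v hv => hW (by rw [union_insert]; exact mem_insert_of_mem hv))
      (fun v hv => hdeg v (mem_insert_of_mem hv))
    have hwX : w ∉ X ∪ S := by
      rw [mem_union, not_or]
      exact ⟨fun h => Finset.disjoint_left.1 hXS h (mem_insert_self _ _), hw⟩
    have h2 := NH_insert (p0 := p0) hT hc hwX
    have hirr : ∀ u, ¬ A u u := fun u h => hc u u h rfl
    rw [union_insert, darts_insert hs hirr hwX, card_insert_of_notMem hw]
    rw [tau_eq] at h2
    have h3 : (nb A w (X ∪ S)).card ≤ 2 := by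
      refine (card_le_card (nb_mono ?_)).trans (hdeg w (mem_insert_self _ _))
      exact fun v hv => hW (by rw [union_insert]; exact mem_insert_of_mem hv)
    set j := (nb A w (X ∪ S)).card with hj
    set N := (NH c A k T p0 Γ (X ∪ S)).card
    calc (NH c A k T p0 Γ (insert w (X ∪ S))).card ^ 2 * d ^ ((darts A (X ∪ S)).card + 2 * j)
        ≤ (d ^ (2 - j) * N) ^ 2 * d ^ ((darts A (X ∪ S)).card + 2 * j) :=
          Nat.mul_le_mul_right _ (Nat.pow_le_pow_left h2 2)
      _ = d ^ (2 * (2 - j) + 2 * j) * (N ^ 2 * d ^ (darts A (X ∪ S)).card) := by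
          rw [pow_add, pow_add, mul_pow, ← pow_mul]; ring
      _ = d ^ 4 * (N ^ 2 * d ^ (darts A (X ∪ S)).card) := by
          congr 2; omega
      _ ≤ d ^ 4 * (d ^ (4 * S.card) * ((NH c A k T p0 Γ X).card ^ 2 * d ^ (darts A X).card)) :=
          Nat.mul_le_mul_left _ h1
      _ = _ := by rw [mul_add, pow_add]; ring

end

end Pool.Agent.R97.QL
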