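import Pool.Agent.R97.QL.Stm2

/-! MP_8fd344_co: homomorphisms into a disjoint union. -/

open Finset
open scoped Classical

namespace Pool.Agent.R97.QL

section
variable {α β γ δ γ' δ' : Type} [Fintype α] [Fintype β] [Fintype γ] [Fintype δ]
  [Fintype γ'] [Fintype δ']

/-- induced subgraph -/
noncomputable def sub (E : Finset (α × β)) (P : α → Prop) (P' : β → Prop) :
    Finset ({a // P a} × {b // P' b}) := univ.filter fun e => (e.1.1, e.2.1) ∈ E

theorem key_img {α' : Type} [Fintype α'] (P Q : α' → Prop) (hQ : ∀ a, ¬ P a → Q a)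
    (hQ' : ∀ a, Q a → ¬ P a) (f1 : {a // P a} → {a // P a}) (f2 : {a // Q a} → {a // Q a}) :
    (univ.image f1).card + (univ.image f2).card ≤
    (univ.image (fun a => if h : P a then (Sum.inl (f1 ⟨a, h⟩) : {a // P a} ⊕ {a // Q a})
      else Sum.inr (f2 ⟨a, hQ a h⟩))).card := by
  have e1 : ((univ.image f1).image Sum.inl ∪ (univ.image f2).image Sum.inr :
      Finset ({a // P a} ⊕ {a // Q a})) ⊆
      univ.image (fun a => if h : P a then (Sum.inl (f1 ⟨a, h⟩) : {a // P a} ⊕ {a // Q a})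
      else Sum.inr (f2 ⟨a, hQ a h⟩)) := by
    intro x hx
    simp only [mem_union, mem_image, mem_univ, true_and] at hx ⊢
    rcases hx with ⟨_, ⟨a, rfl⟩, rfl⟩ | ⟨_, ⟨a, rfl⟩, rfl⟩
    · exact ⟨a.1, by rw [dif_pos a.2]⟩
    · exact ⟨a.1, by rw [dif_neg (hQ' _ a.2)]⟩
  have e2 := card_le_card e1
  rw [card_union_of_disjoint, card_image_of_injective _ Sum.inl_injective,
    card_image_of_injective _ Sum.inr_injective] at e2
  · exact e2
  · rw [Finset.disjoint_left]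
    intro x hx hx'
    obtain ⟨_, _, rfl⟩ := mem_image.1 hx
    obtain ⟨_, _, h⟩ := mem_image.1 hx'
    cases h

theorem M_add (E : Finset (α × β)) (P Q : α → Prop) (P' Q' : β → Prop)
    (hQ : ∀ a, ¬ P a → Q a) (hQn : ∀ a, Q a → ¬ P a)
    (hQ' : ∀ a, ¬ P' a → Q' a) (hQn' : ∀ a, Q' a → ¬ P' a)
    (hE : ∀ e ∈ E, (P e.1 ↔ P' e.2)) :
    M (sub E P P') + M (sub E Q Q') ≤ M E := by
  obtain ⟨f1, g1, h1⟩ := exists_M (sub E P P')
  obtain ⟨f2, g2, h2⟩ := exists_M (sub E Q Q')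
  set f : α → {a // P a} ⊕ {a // Q a} := fun a =>
    if h : P a then Sum.inl (f1 ⟨a, h⟩) else Sum.inr (f2 ⟨a, hQ a h⟩) with hf
  set g : β → {b // P' b} ⊕ {b // Q' b} := fun b =>
    if h : P' b then Sum.inl (g1 ⟨b, h⟩) else Sum.inr (g2 ⟨b, hQ' b h⟩) with hg
  have hfg := val_le_M E f g
  rw [val_def'] at h1 h2 hfg
  have k1 := key_img P Q hQ hQn f1 f2
  have k2 := key_img P' Q' hQ' hQn' g1 g2
  have k3 : (E.image (Prod.map f g)).card ≤ ((sub E P P').image (Prod.map f1 g1)).card +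
      ((sub E Q Q').image (Prod.map f2 g2)).card := by
    have e1 : E.image (Prod.map f g) ⊆
        ((sub E P P').image (Prod.map f1 g1)).image (Prod.map Sum.inl Sum.inl) ∪
        ((sub E Q Q').image (Prod.map f2 g2)).image
          (Prod.map Sum.inr Sum.inr) := by
      intro x hx
      obtain ⟨⟨a, b⟩, he, rfl⟩ := mem_image.1 hx
      have hab := hE _ he
      simp only at hab
      by_cases ha : P a
      · have hb := hab.1 ha
        apply mem_union_left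
        refine mem_image.2 ⟨(f1 ⟨a, ha⟩, g1 ⟨b, hb⟩), mem_image.2 ⟨(⟨a, ha⟩, ⟨b, hb⟩),
          mem_filter.2 ⟨mem_univ _, he⟩, rfl⟩, ?_⟩
        simp only [Prod.map, hf, hg, dif_pos ha, dif_pos hb]
      · have hb : ¬ P' b := fun h => ha (hab.2 h)
        apply mem_union_right
        refine mem_image.2 ⟨(f2 ⟨a, hQ a ha⟩, g2 ⟨b, hQ' b hb⟩),
          mem_image.2 ⟨(⟨a, hQ a ha⟩, ⟨b, hQ' b hb⟩),
          mem_filter.2 ⟨mem_univ _, he⟩, rfl⟩, ?_⟩
        simp only [Prod.map, hf, hg, dif_neg ha, dif_neg hb]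
    exact (card_le_card e1).trans ((card_union_le _ _).trans
      (Nat.add_le_add card_image_le card_image_le))
  rw [← h1, ← h2]
  refine le_trans ?_ hfg
  have k1' : ((univ.image f1).card : ℤ) + (univ.image f2).card ≤ (univ.image f).card := by
    exact_mod_cast k1
  have k2' : ((univ.image g1).card : ℤ) + (univ.image g2).card ≤ (univ.image g).card := by
    exact_mod_cast k2
  have k3' : ((E.image (Prod.map f g)).card : ℤ) ≤ ((sub E P P').image (Prod.map f1 g1)).card +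
      ((sub E Q Q').image (Prod.map f2 g2)).card := by
    exact_mod_cast k3
  linarith

theorem mem_dsum_iff (F : Finset (γ × δ)) (F' : Finset (γ' × δ')) (x : γ ⊕ γ') (y : δ ⊕ δ') :
    (x, y) ∈ dsum F F' ↔ (∃ a b, (a, b) ∈ F ∧ x = Sum.inl a ∧ y = Sum.inl b) ∨
      ∃ a b, (a, b) ∈ F' ∧ x = Sum.inr a ∧ y = Sum.inr b := by
  unfold dsum
  simp only [mem_union, mem_image, Prod.exists, Prod.map, Prod.mk.injEq]
  constructor
  · rintro (⟨a, b, h, rfl, rfl⟩ | ⟨a, b, h, rfl, rfl⟩)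
    · exact Or.inl ⟨a, b, h, rfl, rfl⟩
    · exact Or.inr ⟨a, b, h, rfl, rfl⟩
  · rintro (⟨a, b, h, rfl, rfl⟩ | ⟨a, b, h, rfl, rfl⟩)
    · exact Or.inl ⟨a, b, h, rfl, rfl⟩
    · exact Or.inr ⟨a, b, h, rfl, rfl⟩

theorem fiber_le (E : Finset (α × β)) (F : Finset (γ × δ)) (F' : Finset (γ' × δ'))
    (P Q : α → Prop) (P' Q' : β → Prop) (hQ : ∀ a, ¬ P a → Q a) (hQn : ∀ a, Q a → ¬ P a)
    (hQ' : ∀ a, ¬ P' a → Q' a) (hQn' : ∀ a, Q' a → ¬ P' a) :
    Nat.card {x : (α → γ ⊕ γ') × (β → δ ⊕ δ') // (∀ e ∈ E, (x.1 e.1, x.2 e.2) ∈ dsum F F') ∧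
      (∀ a, Sum.isLeft (x.1 a) = true ↔ P a) ∧ ∀ b, Sum.isLeft (x.2 b) = true ↔ P' b} ≤
    hom (sub E P P') F * hom (sub E Q Q') F' := by
  unfold hom
  rw [← Nat.card_prod]
  have hR : ∀ {ι κ κ' : Type} {x : ι → κ ⊕ κ'} {a : ι} {p : Prop},
      (Sum.isLeft (x a) = true ↔ p) → ¬ p → Sum.isRight (x a) = true := by
    intro ι κ κ' x a p h h'
    cases hx : x a with
    | inl c => exact absurd (h.1 (by rw [hx]; rfl)) h'
    | inr c => rfl
  refine Nat.card_le_card_of_injective (fun x =>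
    (⟨(fun a => Sum.getLeft (x.1.1 a.1) ((x.2.2.1 a.1).2 a.2),
      fun b => Sum.getLeft (x.1.2 b.1) ((x.2.2.2 b.1).2 b.2)), ?_⟩,
    ⟨(fun a => Sum.getRight (x.1.1 a.1) (hR (x.2.2.1 a.1) (hQn _ a.2)),
      fun b => Sum.getRight (x.1.2 b.1) (hR (x.2.2.2 b.1) (hQn' _ b.2))), ?_⟩)) ?_
  · rintro ⟨a, b⟩ he
    have he' := (mem_filter.1 he).2
    have h1 := x.2.1 _ he'
    rw [mem_dsum_iff] at h1
    rcases h1 with ⟨c, d, hcd, h2, h3⟩ | ⟨c, d, hcd, h2, h3⟩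
    · simp only [h2, h3, Sum.getLeft_inl]
      exact hcd
    · exfalso
      have h4 := (x.2.2.1 a.1).2 a.2
      simp only at h2
      rw [h2] at h4
      exact Bool.false_ne_true h4
  · rintro ⟨a, b⟩ he
    have he' := (mem_filter.1 he).2
    have h1 := x.2.1 _ he'
    rw [mem_dsum_iff] at h1
    rcases h1 with ⟨c, d, hcd, h2, h3⟩ | ⟨c, d, hcd, h2, h3⟩
    · exfalso
      have h4 := (x.2.2.1 a.1).1
      simp only at h2
      rw [h2] at h4
      exact hQn _ a.2 (h4 rfl)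
    · simp only [h2, h3, Sum.getRight_inr]
      exact hcd
  · rintro ⟨⟨f, g⟩, hx1, hx2, hx3⟩ ⟨⟨f', g'⟩, hy1, hy2, hy3⟩ he
    simp only [Prod.mk.injEq, Subtype.mk.injEq] at he
    obtain ⟨⟨h1, h2⟩, h3, h4⟩ := he
    have hf : f = f' := by
      funext a
      by_cases ha : P a
      · have h5 := congrFun h1 ⟨a, ha⟩
        simp only at h5
        rw [← Sum.inl_getLeft (f a) ((hx2 a).2 ha), ← Sum.inl_getLeft (f' a) ((hy2 a).2 ha), h5]
      · have h5 := congrFun h3 ⟨a, hQ a ha⟩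
        simp only at h5
        rw [← Sum.inr_getRight (f a) (hR (hx2 a) ha),
          ← Sum.inr_getRight (f' a) (hR (hy2 a) ha), h5]
    have hg : g = g' := by
      funext a
      by_cases ha : P' a
      · have h5 := congrFun h2 ⟨a, ha⟩
        simp only at h5
        rw [← Sum.inl_getLeft (g a) ((hx3 a).2 ha), ← Sum.inl_getLeft (g' a) ((hy3 a).2 ha), h5]
      · have h5 := congrFun h4 ⟨a, hQ' a ha⟩
        simp only at h5
        rw [← Sum.inr_getRight (g a) (hR (hx3 a) ha),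
          ← Sum.inr_getRight (g' a) (hR (hy3 a) ha), h5]
    subst hf hg
    rfl

theorem pattern_le (E : Finset (α × β)) (F : Finset (γ × δ)) (F' : Finset (γ' × δ'))
    (P Q : α → Prop) (P' Q' : β → Prop) (hQ : ∀ a, ¬ P a → Q a) (hQn : ∀ a, Q a → ¬ P a)
    (hQ' : ∀ a, ¬ P' a → Q' a) (hQn' : ∀ a, Q' a → ¬ P' a) (q ε K : ℝ) (hq : 1 ≤ q)
    (hK : 0 ≤ K)
    (hyp' : ∀ (α' β' : Type) [Fintype α'] [Fintype β'] (E' : Finset (α' × β')),
      Fintype.card α' ≤ Fintype.card α → Fintype.card β' ≤ Fintype.card β →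
      (hom E' F : ℝ) ≤ q ^ ((M E' : ℝ) + ε) ∧ (hom E' F' : ℝ) ≤ K * q ^ (M E' : ℝ)) :
    (Nat.card {x : (α → γ ⊕ γ') × (β → δ ⊕ δ') // (∀ e ∈ E, (x.1 e.1, x.2 e.2) ∈ dsum F F') ∧
      (∀ a, Sum.isLeft (x.1 a) = true ↔ P a) ∧ ∀ b, Sum.isLeft (x.2 b) = true ↔ P' b} : ℝ) ≤
    K * q ^ ((M E : ℝ) + ε) := by
  have hq0 : 0 < q := by linarith
  rcases isEmpty_or_nonempty {x : (α → γ ⊕ γ') × (β → δ ⊕ δ') //
      (∀ e ∈ E, (x.1 e.1, x.2 e.2) ∈ dsum F F') ∧
      (∀ a, Sum.isLeft (x.1 a) = true ↔ P a) ∧ ∀ b, Sum.isLeft (x.2 b) = true ↔ P' b} with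
    hem | ⟨⟨x, hx1, hx2, hx3⟩⟩
  · rw [Nat.card_of_isEmpty, Nat.cast_zero]
    exact mul_nonneg hK (Real.rpow_nonneg hq0.le _)
  have hcross : ∀ e ∈ E, (P e.1 ↔ P' e.2) := by
    intro e he
    have h3 := hx1 e he
    rw [mem_dsum_iff] at h3
    rw [← hx2, ← hx3]
    rcases h3 with ⟨a, b, _, h4, h5⟩ | ⟨a, b, _, h4, h5⟩ <;> rw [h4, h5] <;> simp
  have hM := M_add E P Q P' Q' hQ hQn hQ' hQn' hcross
  have hfib := fiber_le E F F' P Q P' Q' hQ hQn hQ' hQn'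
  obtain ⟨a1, _⟩ := hyp' _ _ (sub E P P') (Fintype.card_subtype_le _) (Fintype.card_subtype_le _)
  obtain ⟨_, a2⟩ := hyp' _ _ (sub E Q Q') (Fintype.card_subtype_le _) (Fintype.card_subtype_le _)
  refine (Nat.cast_le.2 hfib).trans ?_
  push_cast
  refine (mul_le_mul a1 a2 (Nat.cast_nonneg _) (Real.rpow_nonneg hq0.le _)).trans ?_
  rw [mul_left_comm, ← Real.rpow_add hq0]
  refine mul_le_mul_of_nonneg_left ?_ hK
  refine Real.rpow_le_rpow_of_exponent_le hq ?_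
  have : ((M (sub E P P') : ℤ) : ℝ) + (M (sub E Q Q') : ℤ) ≤ M E := by exact_mod_cast hM
  linarith

end

theorem split : S_Split := by
  intro α β γ δ γ' δ' _ _ _ _ _ _ E F F' q ε K hq hε hK hyp
  set B : ℝ := K * q ^ ((M E : ℝ) + ε) with hB
  -- typed version of the hypotheses
  have hyp' : ∀ (α' β' : Type) [Fintype α'] [Fintype β'] (E' : Finset (α' × β')),
      Fintype.card α' ≤ Fintype.card α → Fintype.card β' ≤ Fintype.card β →
      (hom E' F : ℝ) ≤ q ^ ((M E' : ℝ) + ε) ∧ (hom E' F' : ℝ) ≤ K * q ^ (M E' : ℝ) := by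
    intro α' β' _ _ E' h1 h2
    have := hyp _ _ (E'.map ((Fintype.equivFin α').prodCongr (Fintype.equivFin β')).toEmbedding)
      h1 h2
    rwa [hom_map, hom_map, M_map] at this
  -- all homomorphisms, by patterns
  have h1 : hom E (dsum F F') = ∑ P : (α → Bool) × (β → Bool),
      Nat.card {x : (α → γ ⊕ γ') × (β → δ ⊕ δ') // (∀ e ∈ E, (x.1 e.1, x.2 e.2) ∈ dsum F F') ∧
      (∀ a, Sum.isLeft (x.1 a) = true ↔ P.1 a = true) ∧
      ∀ b, Sum.isLeft (x.2 b) = true ↔ P.2 b = true} := by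
    rw [← Nat.card_sigma]
    unfold hom
    refine Nat.card_congr ⟨fun x => ⟨(fun a => Sum.isLeft (x.1.1 a), fun b => Sum.isLeft (x.1.2 b)),
      ⟨x.1, x.2, fun _ => Iff.rfl, fun _ => Iff.rfl⟩⟩, fun y => ⟨y.2.1, y.2.2.1⟩, ?_, ?_⟩
    · intro x; rfl
    · rintro ⟨⟨p, p'⟩, ⟨x, hx1, hx2, hx3⟩⟩
      have e1 : (fun a => Sum.isLeft (x.1 a)) = p := by
        funext a
        exact Bool.eq_iff_iff.2 (hx2 a)
      have e2 : (fun b => Sum.isLeft (x.2 b)) = p' := by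
        funext a
        exact Bool.eq_iff_iff.2 (hx3 a)
      subst e1 e2
      rfl
  rw [h1]
  push_cast
  refine (Finset.sum_le_sum fun P _ => pattern_le E F F' (fun a => P.1 a = true)
    (fun a => ¬ P.1 a = true) (fun a => P.2 a = true)
    (fun a => ¬ P.2 a = true) (fun _ h => h) (fun _ h => h) (fun _ h => h) (fun _ h => h)
    q ε K hq hK hyp').trans (le_of_eq ?_)
  rw [Finset.sum_const, Finset.card_univ, Fintype.card_prod, Fintype.card_fun, Fintype.card_fun,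
    Fintype.card_bool, nsmul_eq_mul, ← pow_add]
  push_cast
  ring

end Pool.Agent.R97.QL
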