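import Pool.Agent.R97.QL.Bip

/-! MP_8fd344_co: exact statements of the last parts. -/

open Finset Filter Topology Matrix
open scoped Classical

namespace Pool.Agent.R97.QL

open BipGraph

/-- homomorphisms into a disjoint union -/
def S_Split : Prop := ∀ (α β γ δ γ' δ' : Type) [Fintype α] [Fintype β] [Fintype γ] [Fintype δ]
  [Fintype γ'] [Fintype δ'] (E : Finset (α × β)) (F : Finset (γ × δ)) (F' : Finset (γ' × δ'))
  (q ε K : ℝ), 1 ≤ q → 0 ≤ ε → 0 ≤ K →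
  (∀ (a b : ℕ) (E' : Finset (Fin a × Fin b)), a ≤ Fintype.card α → b ≤ Fintype.card β →
    (hom E' F : ℝ) ≤ q ^ ((M E' : ℝ) + ε) ∧ (hom E' F' : ℝ) ≤ K * q ^ (M E' : ℝ)) →
  (hom E (dsum F F') : ℝ) ≤ 2 ^ (Fintype.card α + Fintype.card β) * K * q ^ ((M E : ℝ) + ε)

/-- the star with centre in the first class and `80` leaves -/
def star80 : BipGraph := ⟨1, 80, univ⟩

/-- the data -/
def S_Data : Prop := ∃ C : ℕ → ℝ, ∀ n : ℕ, ∃ (G G' : BipGraph) (L : ℝ), (n : ℝ) ≤ L ∧ 0 < L ∧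
  G.E.Nonempty ∧ G'.E.Nonempty ∧ BipGraph.spectrum G = BipGraph.spectrum G' ∧
  (∀ H : BipGraph, H.m ≤ n → H.n ≤ n →
    |Real.log (tB H G) + (r H : ℝ) * L| ≤ L / (n + 1) + C (H.m + H.n)) ∧
  |Real.log (tB K2 G') + L| ≤ L / (n + 1) + C 2 ∧
  (3200 / 39 - 162) * L - C 81 ≤ Real.log (tB star80 G')

/-- the final deduction (with `r K2 = 1` and `80 ≤ r star80`, from `r_eq`) -/
def S_Fin : Prop := S_Data →
  ∃ G G' : ℕ → BipGraph,
    (∀ k, (G k).E.Nonempty ∧ (G' k).E.Nonempty ∧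
      BipGraph.spectrum (G k) = BipGraph.spectrum (G' k)) ∧
    QuasirandomLogLimit G ∧ ¬ QuasirandomLogLimit G'

end Pool.Agent.R97.QL
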